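import Pool.Agent.Helper16_Fine.Stmt
import Pool.Agent.Helper12_AEU.Cross
import Pool.Agent.Helper25_AEU.Defs

/-!
AEU (MP_5b0138_an): almost every convex polygon is determined by its Dirichlet spectrum among convex
polygons with at most as many vertices.  Definitions which connect the parts: the contribution of a
triple of side lines to the heat trace, its transform, and the germs of the four types.

Bodies are sublinear functions `h : ℂ → ℝ` (support functions); `hs ω` is the support function of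
the Brownian loop of duration one.
-/

set_option autoImplicit false

namespace Pool.Agent.AEU

open MeasureTheory Complex Filter Topology ProbabilityTheory Pool.Agent.H16Iso Pool.Agent.H62T
open scoped ENNReal NNReal

/-- for three normals: the linear combination of the support numbers which vanishes if and only if
the three lines `ip u_j x = h u_j` have a common point -/
def DD (u₁ u₂ u₃ : ℂ) (h : ℂ → ℝ) : ℝ := dt u₂ u₃ * h u₁ + dt u₃ u₁ * h u₂ + dt u₁ u₂ * h u₃

/-- positive for spanning triples and negative for nonspanning triples (in counterclockwise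
order) -/
def pr (u₁ u₂ u₃ : ℂ) : ℝ := dt u₁ u₂ * dt u₂ u₃ * dt u₃ u₁

/-- contribution of a triple of lines with `DD H = D₀ > 0` to the area of the inner parallel body
of the body `h` -/
noncomputable def ZZ (u₁ u₂ u₃ : ℂ) (D₀ : ℝ) (h : ℂ → ℝ) : ℝ :=
  -(min (D₀ - DD u₁ u₂ u₃ h) 0) ^ 2 / (2 * pr u₁ u₂ u₃)

/-- its expectation for the Brownian loop of duration `t` -/
noncomputable def EZ (u₁ u₂ u₃ : ℂ) (D₀ t : ℝ) : ℝ :=
  ∫ ω, ZZ u₁ u₂ u₃ D₀ (fun u => Real.sqrt t * hs ω u) ∂PP

/-- the transform `∫ exp(-κ² t) f(t) dt/(4 π t²)` -/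
noncomputable def Lap (f : ℝ → ℝ) (κ : ℝ) : ℝ :=
  ∫ t in Set.Ioi (0 : ℝ), Real.exp (-(κ ^ 2 * t)) * f t / (4 * Real.pi * t ^ 2)

/-- `f` is exponentially smaller than `exp(-L κ)` -/
def Small (L : ℝ) (f : ℝ → ℝ) : Prop :=
  ∃ C δ : ℝ, 0 < δ ∧ ∀ᶠ κ in atTop, |f κ| ≤ C * Real.exp (-((L + δ) * κ))

/-! ### Triples of half planes

A polygon is a finite set `P` of half planes `s = (u, H)`, that is, `{x | ip s.1 x ≤ s.2}`. -/

/-- the value of `DD` at the support numbers of the polygon; positive if `a`, `b`, `c` are in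
counterclockwise order -/
def D0 (a b c : HP) : ℝ := dt b.1 c.1 * a.2 + dt c.1 a.1 * b.2 + dt a.1 b.1 * c.2

open Classical in
/-- contribution of the triple `S` of half planes: it is `ZZ a b c (D0 a b c) h` for
`S = {a, b, c}` with `0 < D0 a b c` -/
noncomputable def Zs (S : Finset HP) (h : ℂ → ℝ) : ℝ :=
  (1 / 3) * ∑ a ∈ S, ∑ b ∈ S, ∑ c ∈ S,
    if 0 < D0 a b c then ZZ a.1 b.1 c.1 (D0 a b c) h else 0

/-- expected contribution of the triple `S` if nothing else is in the way -/
noncomputable def EZs (S : Finset HP) (t : ℝ) : ℝ :=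
  ∫ ω, Zs S (fun u => Real.sqrt t * hs ω u) ∂PP

/-- expected contribution of the triple `S` of sides of `P` -/
noncomputable def TPS (P S : Finset HP) (t : ℝ) : ℝ :=
  ∫ ω, H16F.ind (Ev P S fun u => Real.sqrt t * hs ω u) * Zs S (fun u => Real.sqrt t * hs ω u) ∂PP

/-- the remainder of the heat trace of `P` after the heat invariants -/
noncomputable def RP (P : Finset HP) (t : ℝ) : ℝ := ∑ S ∈ P.powersetCard 3, TPS P S t

/-- the open polygon -/
def opn (P : Finset HP) : Set ℂ := {x | ∀ s ∈ P, ip s.1 x < s.2}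

/-! ### Germs -/

/-- germ of an edge of length `l` with exterior angles `β`, `β'` at its ends -/
noncomputable def germA (l β β' κ : ℝ) : ℝ :=
  (1 / Real.pi ^ 2) * H12.TA (Real.pi / (Real.pi - β)) (Real.pi / (Real.pi - β')) (κ * l)

/-- germ of a vertex with interior angle `α` at distance `d` from a side, the direction of the
perpendicular forms the angle `η` with one of the sides at the vertex -/
noncomputable def germB (d α η κ : ℝ) : ℝ := H12.TB d (Real.pi / α) η κ

/-- germ of an inscribed triangle of perimeter `l` -/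
noncomputable def germD (l κ : ℝ) : ℝ := -Real.exp (-(l * κ))

/-! ### Part III: the statements needed -/

/-- III.A: an edge of length `l` whose exterior angles are acute (interior angles obtuse) -/
def GermAStmt : Prop :=
  ∀ (z : ℂ) (β β' l : ℝ), ‖z‖ = 1 → 0 < β → β < Real.pi / 2 → 0 < β' → β' < Real.pi / 2 → 0 < l →
    Small (2 * l) fun κ =>
      Lap (EZ (z * exp (-β * I)) z (z * exp (β' * I)) (Real.sin β * Real.sin β' * l)) κ
        - germA l β β' κ

/-- III.B: a vertex with obtuse interior angle `α` and a side line at distance `d` -/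
def GermBStmt : Prop :=
  ∀ (z : ℂ) (α η d : ℝ), ‖z‖ = 1 → Real.pi / 2 < α → α < Real.pi → 0 < η → η < α →
    η ≠ Real.pi / 2 → α - η ≠ Real.pi / 2 → 0 < d →
    Small (2 * d) fun κ =>
      Lap (EZ (z * exp (-(Real.pi - α) * I)) z (z * I * exp (η * I)) (Real.sin α * d)) κ
        - germB d α η κ

/-- III.B': an acute triangle, `α` is its largest angle, `d` the altitude from the corresponding
vertex -/
def GermB'Stmt : Prop :=
  ∀ (z : ℂ) (α η d : ℝ), ‖z‖ = 1 → α < Real.pi / 2 → Real.pi / 2 - η < α →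
    Real.pi / 2 - (α - η) < α → 0 < d →
    Small (2 * d) fun κ =>
      Lap (EZ (z * exp (-(Real.pi - α) * I)) z (z * I * exp (η * I)) (Real.sin α * d)) κ
        - (germB d α η κ + germD (2 * d * Real.sin α) κ)

/-- III.D: an acute triangle with three different angles, up to the shortest altitude -/
def GermDStmt : Prop :=
  ∀ (u₁ u₂ u₃ : ℂ) (D₀ L : ℝ), ‖u₁‖ = 1 → ‖u₂‖ = 1 → ‖u₃‖ = 1 → 0 < dt u₁ u₂ → 0 < dt u₂ u₃ →
    0 < dt u₃ u₁ → ip u₁ u₂ < 0 → ip u₂ u₃ < 0 → ip u₃ u₁ < 0 →
    dt u₁ u₂ ≠ dt u₂ u₃ → dt u₂ u₃ ≠ dt u₃ u₁ → dt u₃ u₁ ≠ dt u₁ u₂ → 0 < D₀ →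
    L * dt u₁ u₂ < 2 * D₀ → L * dt u₂ u₃ < 2 * D₀ → L * dt u₃ u₁ < 2 * D₀ →
    Small L fun κ => Lap (EZ u₁ u₂ u₃ D₀) κ - germD (2 * D₀) κ

end Pool.Agent.AEU
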