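import Pool.Agent.Helper35_AEU.TpsB

/-! AEU: localisation errors; invariance under isometries -/

set_option autoImplicit false

namespace Pool.Agent.AEU.H35

open MeasureTheory Complex Filter Topology ProbabilityTheory Pool.Agent.H16Iso Pool.Agent.H62T
open Pool.Agent.AEU
open Pool.Agent.H62T.H9 (AM)
open Pool.Agent.H16F (ind Sublin)

/-- LD: Gaussian tail of the perimeter of the loop -/
def LDStmt : Prop := ∀ ε : ℝ, 0 < ε → ε < 1 → ∃ C : ℝ, ∀ y : ℝ, 0 ≤ y →
  PP {ω | y ≤ lam (hs ω)} ≤ ENNReal.ofReal (C * Real.exp (-((1 - ε) * y ^ 2 / 4)))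

lemma lam_smul (c : ℝ) (h : ℂ → ℝ) : lam (fun u => c * h u) = c * lam h := by
  unfold lam
  rw [intervalIntegral.integral_const_mul]

theorem loc_err (hLD : LDStmt) (S : Finset HP) {A L : ℝ} (hL : 0 ≤ L) (hA : L < A)
    (e : ℝ → Sp → ℝ) (he : ∀ t ω, |e t ω| ≤ 1)
    (hz : ∀ t, 0 < t → ∀ᵐ ω ∂PP, Real.sqrt t * lam (hs ω) < A → e t ω = 0) :
    Small L (Lap fun t => ∫ ω, e t ω * Zs S (fun u => Real.sqrt t * hs ω u) ∂PP) := by
  have hA0 : 0 < A := lt_of_le_of_lt hL hA
  obtain ⟨C, hC0, hC⟩ := abs_Zs_le S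
  refine Lap_small hL hA ?_ ?_
  · intro ε hε hε1
    have hAt : ∀ ε : ℝ, 0 < ε → ε < 1 → ∃ C : ℝ, ∀ t : ℝ, 0 < t → t ≤ 1 →
        PP {ω | A ≤ Real.sqrt t * lam (hs ω)} ≤
          ENNReal.ofReal (C * Real.exp (-((1 - ε) * (A / 2) ^ 2 / t))) := by
      intro ε h0 h1
      obtain ⟨C, hC⟩ := hLD ε h0 h1
      refine ⟨C, fun t ht _ => ?_⟩
      have hst : 0 < Real.sqrt t := Real.sqrt_pos.2 ht
      have e1 : {ω | A ≤ Real.sqrt t * lam (hs ω)} = {ω | A / Real.sqrt t ≤ lam (hs ω)} := by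
        ext ω
        show A ≤ Real.sqrt t * lam (hs ω) ↔ A / Real.sqrt t ≤ lam (hs ω)
        rw [div_le_iff₀ hst, mul_comm]
      have e2 : (1 - ε) * (A / 2) ^ 2 / t = (1 - ε) * (A / Real.sqrt t) ^ 2 / 4 := by
        rw [div_pow, div_pow, Real.sq_sqrt ht.le]
        ring
      rw [e1, e2]
      exact hC _ (by positivity)
    obtain ⟨C', -, hC'⟩ := H16F.H10.tail_int (am_sz S C)
      (fun ω => mul_nonneg hC0 (sz_nonneg _ _)) hAt ε hε hε1
    refine ⟨C', fun t ht ht1 => ?_⟩
    have h1 := hC' t ht ht1 (fun ω => e t ω * Zs S (fun u => Real.sqrt t * hs ω u)) (by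
      filter_upwards [hz t ht] with ω hω
      rw [abs_mul]
      by_cases hA' : A ≤ Real.sqrt t * lam (hs ω)
      · rw [H16F.H10.ind_pos hA', mul_one]
        have h2 := hC fun u => Real.sqrt t * hs ω u
        have h3 := sz_scale_near S ω ht ht1
        calc |e t ω| * |Zs S fun u => Real.sqrt t * hs ω u|
            ≤ 1 * (C * sz S (fun u => Real.sqrt t * hs ω u)) := by
              gcongr
              exact he t ω
          _ ≤ 1 * (C * sz S (hs ω)) := by gcongr
          _ = _ := by ring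
      · rw [hω (not_le.1 hA'), abs_zero, zero_mul]
        exact mul_nonneg (mul_nonneg hC0 (sz_nonneg _ _)) (H16F.H10.ind_nonneg _))
    refine h1.trans (le_of_eq ?_)
    congr 2
    field_simp
    ring
  · obtain ⟨C', h⟩ := far_bound S
    exact ⟨C', fun t ht => h t ht (e t) (he t)⟩

lemma ind_congr {p q : Prop} (h : p ↔ q) : ind p = ind q := by
  rw [propext h]

lemma abs_ind_sub_le (p q : Prop) : |ind p - ind q| ≤ 1 := by
  unfold ind
  split_ifs <;> simp

lemma sublin_ae : ∀ᵐ ω ∂PP, Sublin (hs ω) := H16F.H13.law2.2.2.1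

lemma sublin_scale {ω : Sp} (h : Sublin (hs ω)) (t : ℝ) : Sublin fun u => Real.sqrt t * hs ω u :=
  H16F.H10.sublin_smul h (Real.sqrt_nonneg _)

/-- triples which cannot be touched by short bodies -/
theorem small_out (hLD : LDStmt) {P S : Finset HP} {A L : ℝ} (hL : 0 ≤ L) (hA : L < A)
    (h : ∀ h, Sublin h → lam h < A → ¬ Ev P S h) : Small L (Lap (TPS P S)) := by
  refine loc_err hLD S hL hA (fun t ω => ind (Ev P S fun u => Real.sqrt t * hs ω u))
    (fun t ω => abs_ind_le _) ?_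
  intro t ht
  filter_upwards [sublin_ae] with ω hω hlt
  rw [H16F.H10.ind_neg]
  exact h _ (sublin_scale hω t) (by rw [lam_smul]; exact hlt)

/-- if `Zs` does not vanish then the event with the three lines occurs -/
lemma evL_of_Zs {S : Finset HP} (hT : Tr S) {h : ℂ → ℝ} (hz : Zs S h ≠ 0) : EvL S h := by
  classical
  obtain ⟨a, b, c, rfl, hab, hac, hbc, hD⟩ := exists_order hT.card
  rcases hD.eq_or_lt with hD | hD
  · exact absurd (Zs_zero hD.symm h) hz
  · rw [Zs_eq hab hac hbc hD] at hz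
    have hDD : D0 a b c < DD a.1 b.1 c.1 h := by
      by_contra hcon
      exact hz (ZZ_eq_zero (not_lt.1 hcon))
    have hdt := hT.nd a (by simp) b (by simp) hab
    have h3 : Ev3 ∅ a b c h := (ev_iff hdt hD h).2 ⟨hDD.le, by simp⟩
    obtain ⟨σ, hσ, hσ1, x, -, ha, hb, hc⟩ := h3
    refine ⟨σ, x, hσ, hσ1, ?_⟩
    intro s hs'
    simp only [Finset.mem_insert, Finset.mem_singleton] at hs'
    rcases hs' with rfl | rfl | rfl <;> linarith

/-- triples where nothing is in the way -/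
theorem small_loc (hLD : LDStmt) {P S : Finset HP} (hT : Tr S) (hSP : S ⊆ P) {A L : ℝ}
    (hL : 0 ≤ L) (hA : L < A) (h : ∀ h, Sublin h → lam h < A → (Ev P S h ↔ EvL S h)) :
    Small L (fun κ => Lap (TPS P S) κ - Lap (EZs S) κ) := by
  have h1 : Small L (Lap fun t => ∫ ω, (ind (Ev P S fun u => Real.sqrt t * hs ω u) -
      ind (EvL S fun u => Real.sqrt t * hs ω u)) * Zs S (fun u => Real.sqrt t * hs ω u) ∂PP) := by
    refine loc_err hLD S hL hA (fun t ω => ind (Ev P S fun u => Real.sqrt t * hs ω u) -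
      ind (EvL S fun u => Real.sqrt t * hs ω u)) (fun t ω => abs_ind_sub_le _ _) ?_
    intro t ht
    filter_upwards [sublin_ae] with ω hω hlt
    rw [ind_congr (h _ (sublin_scale hω t) (by rw [lam_smul]; exact hlt)), sub_self]
  refine small_congr h1 ?_
  filter_upwards [eventually_gt_atTop 0] with κ hκ
  rw [← Lap_sub (adm_TPS hT hSP) (adm_EZs hT) hκ]
  refine Lap_congr (fun t ht => ?_) κ
  obtain ⟨C, hC0, hC⟩ := abs_Zs_le S
  have hmz : Measurable fun ω : Sp => Zs S (fun u => Real.sqrt t * hs ω u) :=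
    measurable_Zs S (fun (ω : Sp) u => Real.sqrt t * hs ω u) fun u => (momS.1 u).const_mul _
  have hme : Measurable fun ω : Sp => ind (Ev P S fun u => Real.sqrt t * hs ω u) *
      Zs S (fun u => Real.sqrt t * hs ω u) :=
    measurable_indZs hT hSP (fun (ω : Sp) u => Real.sqrt t * hs ω u) fun u => (momS.1 u).const_mul _
  have hi0 : Integrable (fun ω => C * (max t 1) * sz S (hs ω)) PP := (am_sz S _).integrable
  have hb : ∀ ω, |Zs S fun u => Real.sqrt t * hs ω u| ≤ C * (max t 1) * sz S (hs ω) := by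
    intro ω
    refine (hC _).trans ?_
    rw [mul_assoc]
    refine mul_le_mul_of_nonneg_left ?_ hC0
    rcases le_total t 1 with h1 | h1
    · rw [max_eq_right h1, one_mul]; exact sz_scale_near S ω ht h1
    · rw [max_eq_left h1]; exact sz_scale_far S ω h1
  have i1 : Integrable (fun ω => ind (Ev P S fun u => Real.sqrt t * hs ω u) *
      Zs S (fun u => Real.sqrt t * hs ω u)) PP := by
    refine hi0.mono' hme.aestronglyMeasurable (Eventually.of_forall fun ω => ?_)
    rw [Real.norm_eq_abs, abs_mul]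
    calc |ind _| * |Zs S _| ≤ 1 * |Zs S fun u => Real.sqrt t * hs ω u| :=
          mul_le_mul_of_nonneg_right (abs_ind_le _) (abs_nonneg _)
      _ ≤ _ := by rw [one_mul]; exact hb ω
  have i2 : Integrable (fun ω => Zs S (fun u => Real.sqrt t * hs ω u)) PP :=
    hi0.mono' hmz.aestronglyMeasurable (Eventually.of_forall fun ω => hb ω)
  unfold TPS EZs
  rw [← integral_sub i1 i2]
  refine integral_congr_ae (Eventually.of_forall fun ω => ?_)
  simp only
  by_cases hz : Zs S (fun u => Real.sqrt t * hs ω u) = 0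
  · rw [hz]; ring
  · rw [H16F.H10.ind_pos (evL_of_Zs hT hz)]; ring

/-! ### isometries -/

lemma ip_iso (L : ℂ ≃ₗᵢ[ℝ] ℂ) (a b : ℂ) : ip (L a) (L b) = ip a b := by
  have h : ∀ x y : ℂ, ip x y = (‖x + y‖ ^ 2 - ‖x - y‖ ^ 2) / 4 := by
    intro x y
    rw [← Complex.normSq_eq_norm_sq, ← Complex.normSq_eq_norm_sq]
    simp only [Complex.normSq_apply, Complex.add_re, Complex.add_im, Complex.sub_re, Complex.sub_im]
    unfold ip; ring
  rw [h, h, ← map_add, ← map_sub, L.norm_map, L.norm_map]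

lemma ip_iso' (L : ℂ ≃ₗᵢ[ℝ] ℂ) (a y : ℂ) : ip (L a) y = ip a (L.symm y) := by
  conv_lhs => rw [← L.apply_symm_apply y]
  exact ip_iso L a _

/-- orientation -/
lemma dt_iso (L : ℂ ≃ₗᵢ[ℝ] ℂ) : (∀ a b, dt (L a) (L b) = dt a b) ∨ ∀ a b, dt (L a) (L b) = -dt a b := by
  obtain ⟨c, hc⟩ := linear_isometry_complex L
  have hcn : (c : ℂ).re ^ 2 + (c : ℂ).im ^ 2 = 1 := by
    have := Complex.normSq_apply (c : ℂ)
    rw [Complex.normSq_eq_norm_sq, Circle.norm_coe] at this
    nlinarith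
  rcases hc with rfl | rfl
  · left
    intro a b
    rw [rotation_apply, rotation_apply]
    unfold dt
    simp only [Complex.mul_re, Complex.mul_im]
    linear_combination (a.re * b.im - a.im * b.re) * hcn
  · right
    intro a b
    simp only [LinearIsometryEquiv.trans_apply, rotation_apply, conjLIE_apply]
    unfold dt
    simp only [Complex.mul_re, Complex.mul_im, Complex.conj_re, Complex.conj_im]
    linear_combination (-(a.re * b.im - a.im * b.re)) * hcn

/-- the law of the loop is invariant under linear isometries -/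
lemma law_iso (L : ℂ ≃ₗᵢ[ℝ] ℂ) : ∃ G : Sp → Sp, MeasurePreserving G PP PP ∧
    ∀ ω u, hs (G ω) u = hs ω (L u) := by
  obtain ⟨c, hc⟩ := linear_isometry_complex L
  obtain ⟨g1, hg1, h1⟩ := H16F.H13.law2.1 (c : ℂ) (Circle.norm_coe c)
  rcases hc with rfl | rfl
  · exact ⟨g1, hg1, fun ω u => by rw [h1, rotation_apply]⟩
  · obtain ⟨g2, hg2, h2⟩ := H16F.H13.law2.2.1
    refine ⟨g2 ∘ g1, hg2.comp hg1, fun ω u => ?_⟩
    rw [Function.comp_apply, h2, h1]
    simp [rotation_apply]

end Pool.Agent.AEU.H35
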