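import Pool.Agent.Helper35_AEU.LocE

/-! AEU: the contributions of matched triples agree up to a small error -/

set_option autoImplicit false

namespace Pool.Agent.AEU.H35

open MeasureTheory Complex Filter Topology ProbabilityTheory Pool.Agent.H16Iso Pool.Agent.H62T
open Pool.Agent.AEU
open Pool.Agent.H62T.H9 (AM)
open Pool.Agent.H16F (ind Sublin)

/-- the body `h` after the linear part of the isometry `g` -/
noncomputable def m0 (g : Iso2) (h : ℂ → ℝ) (w : ℂ) : ℝ := h (g.linearIsometryEquiv.symm w)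

lemma ip_add_r (w x y : ℂ) : ip w (x + y) = ip w x + ip w y := by
  unfold ip; simp only [Complex.add_re, Complex.add_im]; ring

lemma ip_mul_r (w x : ℂ) (r : ℝ) : ip w ((r : ℂ) * x) = r * ip w x := by
  unfold ip
  simp only [Complex.mul_re, Complex.mul_im, Complex.ofReal_re, Complex.ofReal_im]
  ring

lemma ev_tr (P S : Finset HP) (h : ℂ → ℝ) (y : ℂ) :
    Ev P S (fun w => h w + ip w y) ↔ Ev P S h := by
  constructor
  · rintro ⟨σ, x, h0, h1, hf, ht⟩
    have e : (fun w => σ * (h w + ip w y) + ip w x) = fun w => σ * h w + ip w ((σ : ℂ) * y + x) := by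
      funext w
      rw [ip_add_r, ip_mul_r]; ring
    rw [e] at hf ht
    exact ⟨σ, _, h0, h1, hf, ht⟩
  · rintro ⟨σ, x, h0, h1, hf, ht⟩
    have e : (fun w => σ * (h w + ip w y) + ip w (x + ((-σ : ℝ) : ℂ) * y))
        = fun w => σ * h w + ip w x := by
      funext w
      rw [ip_add_r, ip_mul_r]; ring
    refine ⟨σ, x + ((-σ : ℝ) : ℂ) * y, h0, h1, ?_, ?_⟩
    · rw [e]; exact hf
    · rw [e]; exact ht

lemma ev_mb (P S : Finset HP) (g : Iso2) (h : ℂ → ℝ) : Ev P S (mb g h) ↔ Ev P S (m0 g h) :=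
  ev_tr P S (m0 g h) (g 0)

lemma orient (g : Iso2) : ∃ ε : ℝ, (ε = 1 ∨ ε = -1) ∧
    ∀ a b, dt (g.linearIsometryEquiv a) (g.linearIsometryEquiv b) = ε * dt a b := by
  rcases dt_iso g.linearIsometryEquiv with h | h
  · exact ⟨1, Or.inl rfl, fun a b => by rw [h, one_mul]⟩
  · exact ⟨-1, Or.inr rfl, fun a b => by rw [h]; ring⟩

lemma mv_inj (g : Iso2) : Function.Injective (mv g) := by
  intro a b hab
  unfold mv at hab
  rw [Prod.mk.injEq] at hab
  have h1 : a.1 = b.1 := g.linearIsometryEquiv.injective hab.1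
  have h2 := hab.2
  rw [h1] at h2
  exact Prod.ext h1 (by linarith)

lemma D0_mv {g : Iso2} {ε : ℝ} (he : ∀ a b, dt (g.linearIsometryEquiv a) (g.linearIsometryEquiv b)
    = ε * dt a b) (a b c : HP) : D0 (mv g a) (mv g b) (mv g c) = ε * D0 a b c := by
  have h := dt_ip_cyc a.1 b.1 c.1 (g.linearIsometryEquiv.symm (g 0))
  unfold D0 mv
  simp only [he, ip_iso']
  linear_combination ε * h

lemma DD_m0 {g : Iso2} {ε : ℝ} (he : ∀ a b, dt (g.linearIsometryEquiv a) (g.linearIsometryEquiv b)
    = ε * dt a b) (a b c : ℂ) (h : ℂ → ℝ) :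
    DD (g.linearIsometryEquiv a) (g.linearIsometryEquiv b) (g.linearIsometryEquiv c) (m0 g h)
      = ε * DD a b c h := by
  unfold DD m0
  simp only [he, LinearIsometryEquiv.symm_apply_apply]
  ring

lemma pr_m0 {g : Iso2} {ε : ℝ} (he : ∀ a b, dt (g.linearIsometryEquiv a) (g.linearIsometryEquiv b)
    = ε * dt a b) (a b c : ℂ) :
    pr (g.linearIsometryEquiv a) (g.linearIsometryEquiv b) (g.linearIsometryEquiv c)
      = ε ^ 3 * pr a b c := by
  unfold pr
  simp only [he]
  ring

/-- invariance of the contribution -/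
theorem Zs_mv (S : Finset HP) (g : Iso2) (h : ℂ → ℝ) :
    Zs (S.image (mv g)) (m0 g h) = Zs S h := by
  classical
  have hi : Set.InjOn (mv g) (S : Set HP) := (mv_inj g).injOn
  obtain ⟨ε, hε, he⟩ := orient g
  unfold Zs
  rw [Finset.sum_image hi]
  simp_rw [Finset.sum_image hi, D0_mv he]
  congr 1
  rcases hε with rfl | rfl
  · refine Finset.sum_congr rfl fun a _ => Finset.sum_congr rfl fun b _ =>
      Finset.sum_congr rfl fun c _ => ?_
    rw [one_mul]
    congr 1
    unfold ZZ mv
    simp only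
    rw [DD_m0 he, pr_m0 he]
    ring_nf
  · rw [Finset.sum_comm]
    refine Finset.sum_congr rfl fun a _ => Finset.sum_congr rfl fun b _ =>
      Finset.sum_congr rfl fun c _ => ?_
    have e1 : -1 * D0 b a c = D0 a b c := by rw [D0_swap]; ring
    rw [e1]
    congr 1
    unfold ZZ mv
    simp only
    rw [DD_m0 he, pr_m0 he, DD_swap, pr_swap]
    ring_nf

lemma tr_mv {S : Finset HP} (hT : Tr S) (g : Iso2) : Tr (S.image (mv g)) := by
  classical
  obtain ⟨ε, hε, he⟩ := orient g
  refine ⟨?_, ?_, ?_⟩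
  · rw [Finset.card_image_of_injective _ (mv_inj g), hT.card]
  · intro s hs'
    obtain ⟨t, ht, rfl⟩ := Finset.mem_image.1 hs'
    show ‖g.linearIsometryEquiv t.1‖ = 1
    rw [LinearIsometryEquiv.norm_map]
    exact hT.unit t ht
  · intro s hs' s' hs'' hne
    obtain ⟨t, ht, rfl⟩ := Finset.mem_image.1 hs'
    obtain ⟨t', ht', rfl⟩ := Finset.mem_image.1 hs''
    show dt (g.linearIsometryEquiv t.1) (g.linearIsometryEquiv t'.1) ≠ 0
    rw [he]
    refine mul_ne_zero ?_ (hT.nd t ht t' ht' fun h => hne (by rw [h]))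
    rcases hε with rfl | rfl <;> norm_num

/-- the contribution of the moved triple in terms of the original bodies -/
lemma TPS_mv {Q S : Finset HP} (g : Iso2) (hT : Tr S) (hSQ : S.image (mv g) ⊆ Q) (t : ℝ) :
    TPS Q (S.image (mv g)) t =
      ∫ ω, ind (Ev Q (S.image (mv g)) (m0 g fun u => Real.sqrt t * hs ω u)) *
        Zs S (fun u => Real.sqrt t * hs ω u) ∂PP := by
  obtain ⟨G, hG, hGω⟩ := law_iso g.linearIsometryEquiv.symm
  have hm : Measurable fun ω : Sp => ind (Ev Q (S.image (mv g)) fun u => Real.sqrt t * hs ω u) *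
      Zs (S.image (mv g)) (fun u => Real.sqrt t * hs ω u) :=
    measurable_indZs (tr_mv hT g) hSQ (fun (ω : Sp) u => Real.sqrt t * hs ω u)
      fun u => (momS.1 u).const_mul _
  unfold TPS
  conv_lhs => rw [← hG.map_eq]
  rw [integral_map hG.measurable.aemeasurable hm.aestronglyMeasurable]
  refine integral_congr_ae (Eventually.of_forall fun ω => ?_)
  simp only
  have e : (fun u => Real.sqrt t * hs (G ω) u) = m0 g fun u => Real.sqrt t * hs ω u := by
    funext u
    rw [hGω]
    rfl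
  rw [e, Zs_mv]

lemma zs_bound (S : Finset HP) (t : ℝ) : ∃ C : ℝ, Integrable (fun ω => C * sz S (hs ω)) PP ∧
    ∀ ω, |Zs S fun u => Real.sqrt t * hs ω u| ≤ C * sz S (hs ω) := by
  obtain ⟨C, hC0, hC⟩ := abs_Zs_le S
  refine ⟨C * max t 1, (am_sz S _).integrable, fun ω => (hC _).trans ?_⟩
  rw [mul_assoc]
  refine mul_le_mul_of_nonneg_left ?_ hC0
  rcases le_total t 1 with h1 | h1
  · rw [max_eq_right h1, one_mul]
    rcases le_total t 0 with h0 | h0
    · unfold sz
      simp only [Real.sqrt_eq_zero_of_nonpos h0, zero_mul, abs_zero, Finset.sum_const_zero, add_zero]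
      have h2 : 0 ≤ ∑ s ∈ S, |hs ω s.1| := Finset.sum_nonneg fun i _ => abs_nonneg _
      nlinarith
    · rcases h0.eq_or_lt with h0 | h0
      · unfold sz
        simp only [← h0, Real.sqrt_zero, zero_mul, abs_zero, Finset.sum_const_zero, add_zero]
        have h2 : 0 ≤ ∑ s ∈ S, |hs ω s.1| := Finset.sum_nonneg fun i _ => abs_nonneg _
        nlinarith
      · exact sz_scale_near S ω h0 h1
  · rw [max_eq_left h1]; exact sz_scale_far S ω h1

/-- matched triples -/
theorem small_mat (hLD : LDStmt) {P Q S : Finset HP} (g : Iso2) (hT : Tr S) (hSP : S ⊆ P)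
    (hSQ : S.image (mv g) ⊆ Q) {A L : ℝ} (hL : 0 ≤ L) (hA : L < A)
    (h : ∀ h, Sublin h → lam h < A → (Ev P S h ↔ Ev Q (S.image (mv g)) (mb g h))) :
    Small L (fun κ => Lap (TPS P S) κ - Lap (TPS Q (S.image (mv g))) κ) := by
  have h1 : Small L (Lap fun t => ∫ ω, (ind (Ev P S fun u => Real.sqrt t * hs ω u) -
      ind (Ev Q (S.image (mv g)) (m0 g fun u => Real.sqrt t * hs ω u))) *
        Zs S (fun u => Real.sqrt t * hs ω u) ∂PP) := by
    refine loc_err hLD S hL hA (fun t ω => ind (Ev P S fun u => Real.sqrt t * hs ω u) -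
      ind (Ev Q (S.image (mv g)) (m0 g fun u => Real.sqrt t * hs ω u)))
        (fun t ω => abs_ind_sub_le _ _) ?_
    intro t ht
    filter_upwards [sublin_ae] with ω hω hlt
    have h2 := h _ (sublin_scale hω t) (by rw [lam_smul]; exact hlt)
    rw [ev_mb] at h2
    rw [ind_congr h2, sub_self]
  refine small_congr h1 ?_
  filter_upwards [eventually_gt_atTop 0] with κ hκ
  rw [← Lap_sub (adm_TPS hT hSP) (adm_TPS (tr_mv hT g) hSQ) hκ]
  refine Lap_congr (fun t ht => ?_) κ
  rw [TPS_mv g hT hSQ]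
  obtain ⟨C, hi0, hb⟩ := zs_bound S t
  have hme : Measurable fun ω : Sp => ind (Ev P S fun u => Real.sqrt t * hs ω u) *
      Zs S (fun u => Real.sqrt t * hs ω u) :=
    measurable_indZs hT hSP (fun (ω : Sp) u => Real.sqrt t * hs ω u) fun u => (momS.1 u).const_mul _
  have hme' : Measurable fun ω : Sp =>
      ind (Ev Q (S.image (mv g)) (m0 g fun u => Real.sqrt t * hs ω u)) *
        Zs S (fun u => Real.sqrt t * hs ω u) := by
    have := measurable_indZs (tr_mv hT g) hSQ (fun (ω : Sp) => m0 g fun u => Real.sqrt t * hs ω u)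
      fun u => (momS.1 _).const_mul _
    simpa only [Zs_mv] using this
  have i1 : Integrable (fun ω => ind (Ev P S fun u => Real.sqrt t * hs ω u) *
      Zs S (fun u => Real.sqrt t * hs ω u)) PP := by
    refine hi0.mono' hme.aestronglyMeasurable (Eventually.of_forall fun ω => ?_)
    rw [Real.norm_eq_abs, abs_mul]
    calc |ind _| * |Zs S _| ≤ 1 * |Zs S fun u => Real.sqrt t * hs ω u| :=
          mul_le_mul_of_nonneg_right (abs_ind_le _) (abs_nonneg _)
      _ ≤ _ := by rw [one_mul]; exact hb ω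
  have i2 : Integrable (fun ω => ind (Ev Q (S.image (mv g)) (m0 g fun u => Real.sqrt t * hs ω u)) *
      Zs S (fun u => Real.sqrt t * hs ω u)) PP := by
    refine hi0.mono' hme'.aestronglyMeasurable (Eventually.of_forall fun ω => ?_)
    rw [Real.norm_eq_abs, abs_mul]
    calc |ind _| * |Zs S _| ≤ 1 * |Zs S fun u => Real.sqrt t * hs ω u| :=
          mul_le_mul_of_nonneg_right (abs_ind_le _) (abs_nonneg _)
      _ ≤ _ := by rw [one_mul]; exact hb ω
  unfold TPS
  rw [← integral_sub i1 i2]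
  refine integral_congr_ae (Eventually.of_forall fun ω => ?_)
  simp only
  ring

end Pool.Agent.AEU.H35
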