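import Pool.Agent.Helper35_AEU.DefsMain

/-! AEU: the event `Ev` in explicit form, measurability -/

set_option autoImplicit false

namespace Pool.Agent.AEU.H35

open MeasureTheory Complex Filter Topology ProbabilityTheory Pool.Agent.H16Iso Pool.Agent.H62T
open Pool.Agent.AEU

lemma dt_ip_cyc (a b c x : ℂ) :
    dt b c * ip a x + dt c a * ip b x + dt a b * ip c x = 0 := by
  unfold dt ip; ring

lemma dt_ip_cramer (a b s x : ℂ) :
    dt a b * ip s x = dt a s * ip b x + dt s b * ip a x := by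
  unfold dt ip; ring

/-- the point with `ip a x = p`, `ip b x = q` -/
noncomputable def cpt (a b : ℂ) (p q : ℝ) : ℂ :=
  ⟨(p * b.im - q * a.im) / dt a b, (q * a.re - p * b.re) / dt a b⟩

lemma ip_cpt_left {a b : ℂ} (h : dt a b ≠ 0) (p q : ℝ) : ip a (cpt a b p q) = p := by
  unfold ip cpt
  simp only
  have e : a.re * ((p * b.im - q * a.im) / dt a b) + a.im * ((q * a.re - p * b.re) / dt a b)
      = p * (dt a b / dt a b) := by unfold dt; ring
  rw [e, div_self h, mul_one]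

lemma ip_cpt_right {a b : ℂ} (h : dt a b ≠ 0) (p q : ℝ) : ip b (cpt a b p q) = q := by
  unfold ip cpt
  simp only
  have e : b.re * ((p * b.im - q * a.im) / dt a b) + b.im * ((q * a.re - p * b.re) / dt a b)
      = q * (dt a b / dt a b) := by unfold dt; ring
  rw [e, div_self h, mul_one]

/-- some copy `x + σ K`, `0 < σ ≤ 1`, of the body `h` fits in `P` and touches the lines `a`, `b`
and `c` -/
def Ev3 (P : Finset HP) (a b c : HP) (h : ℂ → ℝ) : Prop :=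
  ∃ σ : ℝ, 0 < σ ∧ σ ≤ 1 ∧ ∃ x : ℂ, (∀ s ∈ P, ip s.1 x + σ * h s.1 ≤ s.2) ∧
    ip a.1 x + σ * h a.1 = a.2 ∧ ip b.1 x + σ * h b.1 = b.2 ∧ ip c.1 x + σ * h c.1 = c.2

/-- explicit form of `Ev3` -/
def EvX (P : Finset (ℂ × ℝ)) (a b c : ℂ × ℝ) (h : ℂ → ℝ) : Prop :=
  D0 a b c ≤ DD a.1 b.1 c.1 h ∧ ∀ s ∈ P,
    (dt a.1 s.1 * (b.2 - D0 a b c / DD a.1 b.1 c.1 h * h b.1)
      + dt s.1 b.1 * (a.2 - D0 a b c / DD a.1 b.1 c.1 h * h a.1)) / dt a.1 b.1
      + D0 a b c / DD a.1 b.1 c.1 h * h s.1 ≤ s.2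

theorem ev_iff {P : Finset (ℂ × ℝ)} {a b c : ℂ × ℝ} (hab : dt a.1 b.1 ≠ 0) (hD : 0 < D0 a b c)
    (h : ℂ → ℝ) : Ev3 P a b c h ↔ EvX P a b c h := by
  constructor
  · rintro ⟨σ, hσ, hσ1, x, hx, ha, hb, hc⟩
    have h1 : σ * DD a.1 b.1 c.1 h = D0 a b c := by
      have := dt_ip_cyc a.1 b.1 c.1 x
      have ea : a.2 - σ * h a.1 = ip a.1 x := by linarith
      have eb : b.2 - σ * h b.1 = ip b.1 x := by linarith
      have ec : c.2 - σ * h c.1 = ip c.1 x := by linarith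
      rw [← ea, ← eb, ← ec] at this
      unfold DD D0
      linarith
    have hDD : 0 < DD a.1 b.1 c.1 h := by
      by_contra hcon
      push Not at hcon
      have := mul_nonpos_of_nonneg_of_nonpos hσ.le hcon
      linarith
    have hs : D0 a b c / DD a.1 b.1 c.1 h = σ := by
      rw [← h1]; field_simp
    refine ⟨?_, ?_⟩
    · rw [← h1]
      nlinarith
    · intro s hs'
      rw [hs]
      have ea : a.2 - σ * h a.1 = ip a.1 x := by linarith
      have eb : b.2 - σ * h b.1 = ip b.1 x := by linarith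
      rw [ea, eb, ← dt_ip_cramer a.1 b.1 s.1 x, mul_div_cancel_left₀ _ hab]
      exact hx s hs'
  · rintro ⟨h1, h2⟩
    have hDD : 0 < DD a.1 b.1 c.1 h := lt_of_lt_of_le hD h1
    obtain ⟨σ, hσ⟩ : ∃ σ, σ = D0 a b c / DD a.1 b.1 c.1 h := ⟨_, rfl⟩
    have hσ0 : 0 < σ := by rw [hσ]; positivity
    have hσ1 : σ ≤ 1 := by rw [hσ]; exact (div_le_one hDD).2 h1
    have hσD : σ * DD a.1 b.1 c.1 h = D0 a b c := by rw [hσ]; field_simp
    rw [← hσ] at h2
    obtain ⟨x, hx⟩ : ∃ x, x = cpt a.1 b.1 (a.2 - σ * h a.1) (b.2 - σ * h b.1) := ⟨_, rfl⟩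
    have hxa : ip a.1 x = a.2 - σ * h a.1 := by rw [hx]; exact ip_cpt_left hab _ _
    have hxb : ip b.1 x = b.2 - σ * h b.1 := by rw [hx]; exact ip_cpt_right hab _ _
    refine ⟨σ, hσ0, hσ1, x, ?_, by linarith, by linarith, ?_⟩
    · intro s hs
      have := h2 s hs
      rw [← hxa, ← hxb, ← dt_ip_cramer a.1 b.1 s.1 x, mul_div_cancel_left₀ _ hab] at this
      exact this
    · have h3 := dt_ip_cyc a.1 b.1 c.1 x
      have h4 : dt a.1 b.1 * (ip c.1 x + σ * h c.1 - c.2) = 0 := by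
        rw [hxa, hxb] at h3
        unfold DD D0 at hσD
        linear_combination h3 + hσD
      rcases mul_eq_zero.1 h4 with h5 | h5
      · exact absurd h5 hab
      · linarith

lemma measurable_ind {α : Type*} [MeasurableSpace α] {p : α → Prop} (h : MeasurableSet {x | p x}) :
    Measurable fun x => H16F.ind (p x) := by
  classical
  unfold H16F.ind
  exact Measurable.ite h measurable_const measurable_const

/-- joint measurability -/
theorem meas_EvX {α : Type*} [MeasurableSpace α] (P : Finset (ℂ × ℝ)) (a b c : ℂ × ℝ)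
    (f : α → ℂ → ℝ) (hf : ∀ u, Measurable fun x => f x u) :
    MeasurableSet {x | EvX P a b c (f x)} := by
  have hDD : Measurable fun x => DD a.1 b.1 c.1 (f x) := by
    unfold DD
    exact ((hf a.1).const_mul _).add ((hf b.1).const_mul _) |>.add ((hf c.1).const_mul _)
  have hq : Measurable fun x => D0 a b c / DD a.1 b.1 c.1 (f x) := measurable_const.div hDD
  have e : {x | EvX P a b c (f x)} = {x | D0 a b c ≤ DD a.1 b.1 c.1 (f x)} ∩
      ⋂ s ∈ P, {x | (dt a.1 s.1 * (b.2 - D0 a b c / DD a.1 b.1 c.1 (f x) * f x b.1)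
      + dt s.1 b.1 * (a.2 - D0 a b c / DD a.1 b.1 c.1 (f x) * f x a.1)) / dt a.1 b.1
      + D0 a b c / DD a.1 b.1 c.1 (f x) * f x s.1 ≤ s.2} := by
    ext x
    simp only [EvX, Set.mem_ofPred_eq, Set.mem_inter_iff, Set.mem_iInter]
  rw [e]
  refine (measurableSet_le measurable_const hDD).inter (Finset.measurableSet_biInter _ ?_)
  intro s _
  refine measurableSet_le ?_ measurable_const
  refine Measurable.add ?_ (hq.mul (hf s.1))
  refine Measurable.div_const ?_ _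
  exact ((measurable_const.sub (hq.mul (hf b.1))).const_mul _).add
    ((measurable_const.sub (hq.mul (hf a.1))).const_mul _)

lemma measurable_ZZ {α : Type*} [MeasurableSpace α] (u₁ u₂ u₃ : ℂ) (D₀ : ℝ)
    (f : α → ℂ → ℝ) (hf : ∀ u, Measurable fun x => f x u) :
    Measurable fun x => ZZ u₁ u₂ u₃ D₀ (f x) := by
  have hDD : Measurable fun x => DD u₁ u₂ u₃ (f x) := by
    unfold DD
    exact ((hf u₁).const_mul _).add ((hf u₂).const_mul _) |>.add ((hf u₃).const_mul _)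
  unfold ZZ
  exact (((measurable_const.sub hDD).min measurable_const).pow_const 2).neg.div_const _

/-- on the event the contribution is the full one -/
lemma ZZ_eq_zero {u₁ u₂ u₃ : ℂ} {D₀ : ℝ} {h : ℂ → ℝ} (hh : DD u₁ u₂ u₃ h ≤ D₀) :
    ZZ u₁ u₂ u₃ D₀ h = 0 := by
  unfold ZZ
  rw [min_eq_right (by linarith)]
  simp

/-- bound for the contribution -/
lemma abs_ZZ_le (u₁ u₂ u₃ : ℂ) (D₀ : ℝ) : ∃ C : ℝ, 0 ≤ C ∧ ∀ h : ℂ → ℝ,
    |ZZ u₁ u₂ u₃ D₀ h| ≤ C * (1 + (|h u₁| + |h u₂| + |h u₃|)) ^ 2 := by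
  obtain ⟨M, hM⟩ : ∃ M : ℝ, M = |D₀| + (|dt u₂ u₃| + |dt u₃ u₁| + |dt u₁ u₂|) := ⟨_, rfl⟩
  have hM0 : 0 ≤ M := by rw [hM]; positivity
  refine ⟨M ^ 2 / |2 * pr u₁ u₂ u₃|, by positivity, fun h => ?_⟩
  unfold ZZ
  rw [abs_div, abs_neg, abs_pow, div_mul_eq_mul_div]
  refine div_le_div_of_nonneg_right ?_ (abs_nonneg _)
  rw [← mul_pow]
  refine pow_le_pow_left₀ (abs_nonneg _) ?_ 2
  have h1 : |min (D₀ - DD u₁ u₂ u₃ h) 0| ≤ |D₀ - DD u₁ u₂ u₃ h| := by
    rcases le_total (D₀ - DD u₁ u₂ u₃ h) 0 with h2 | h2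
    · rw [min_eq_left h2]
    · rw [min_eq_right h2, abs_zero]; exact abs_nonneg _
  refine h1.trans ?_
  have h2 : |D₀ - DD u₁ u₂ u₃ h| ≤ |D₀| + |DD u₁ u₂ u₃ h| := abs_sub _ _
  have h3 : |DD u₁ u₂ u₃ h| ≤ |dt u₂ u₃| * |h u₁| + |dt u₃ u₁| * |h u₂| + |dt u₁ u₂| * |h u₃| := by
    unfold DD
    refine (abs_add_le _ _).trans (add_le_add ((abs_add_le _ _).trans (add_le_add ?_ ?_)) ?_)
    · rw [abs_mul]
    · rw [abs_mul]
    · rw [abs_mul]
  have a1 := abs_nonneg (h u₁)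
  have a2 := abs_nonneg (h u₂)
  have a3 := abs_nonneg (h u₃)
  have b1 := abs_nonneg (dt u₂ u₃)
  have b2 := abs_nonneg (dt u₃ u₁)
  have b3 := abs_nonneg (dt u₁ u₂)
  have b0 := abs_nonneg D₀
  rw [hM]
  have k1 : |dt u₂ u₃| * |h u₁| ≤ |dt u₂ u₃| * (|h u₁| + |h u₂| + |h u₃|) :=
    mul_le_mul_of_nonneg_left (by linarith) b1
  have k2 : |dt u₃ u₁| * |h u₂| ≤ |dt u₃ u₁| * (|h u₁| + |h u₂| + |h u₃|) :=
    mul_le_mul_of_nonneg_left (by linarith) b2
  have k3 : |dt u₁ u₂| * |h u₃| ≤ |dt u₁ u₂| * (|h u₁| + |h u₂| + |h u₃|) :=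
    mul_le_mul_of_nonneg_left (by linarith) b3
  have k0 : 0 ≤ |D₀| * (|h u₁| + |h u₂| + |h u₃|) := by positivity
  nlinarith

end Pool.Agent.AEU.H35
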