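import Pool.Agent.Helper35_AEU.Pre

/-!
helper35, AEU (MP_5b0138_an): the theorem, unconditional.
-/

set_option autoImplicit false

open MeasureTheory Pool.Agent.H16Iso Pool.Agent.AEU
open Pool.Agent.H1Gen (CCW poly)

namespace Pool.Agent.AEU.H35

theorem main_final :
    ∃ G : (n : ℕ) → Set (Fin n → ℂ),
      (∀ n : ℕ, 3 ≤ n → (∀ v ∈ G n, CCW v) ∧ ∀ᵐ v : Fin n → ℂ, CCW v → v ∈ G n) ∧
      ∀ n : ℕ, 3 ≤ n → ∀ v ∈ G n, ∃ N : ℕ, ∀ m : ℕ, 3 ≤ m → ∀ w : Fin m → ℂ, CCW w →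
        ((m ≤ n ∧ ∀ k < N, dirEig (poly w) k = dirEig (poly v) k) ∨
          (w ∈ G m ∧ ∀ k, dirEig (poly w) k = dirEig (poly v) k)) →
        m = n ∧ Congruent (poly w) (poly v) :=
  main_last

end Pool.Agent.AEU.H35
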