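import Pool.Agent.Helper35_AEU.NSum

/-! AEU: two polygons with a splitting have different remainders -/

set_option autoImplicit false

namespace Pool.Agent.AEU.H35

open MeasureTheory Complex Filter Topology ProbabilityTheory Pool.Agent.H16Iso Pool.Agent.H62T
open Pool.Agent.AEU
open Pool.Agent.H16F (ind Sublin)

lemma split_sum {T M N : Finset (Finset HP)} {L : ℝ} {F G : Finset HP → ℝ → ℝ} (hM : M ⊆ T)
    (hN : N ⊆ T) (hd : Disjoint M N) (hout : ∀ S ∈ T, S ∉ M → S ∉ N → Small L (F S))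
    (hloc : ∀ S ∈ N, Small L fun κ => F S κ - G S κ) :
    Small L fun κ => ∑ S ∈ T, F S κ - (∑ S ∈ M, F S κ + ∑ S ∈ N, G S κ) := by
  classical
  have h1 : Small L fun κ => ∑ S ∈ T \ (M ∪ N), F S κ := small_sum _ _ fun S hS => by
    rw [Finset.mem_sdiff, Finset.mem_union, not_or] at hS
    exact hout S hS.1 hS.2.1 hS.2.2
  have h2 : Small L fun κ => ∑ S ∈ N, (F S κ - G S κ) := small_sum _ _ hloc
  refine small_congr (small_add h1 h2) (Eventually.of_forall fun κ => ?_)
  have h3 := Finset.sum_sdiff (s₁ := M ∪ N) (s₂ := T) (f := fun S => F S κ)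
    (Finset.union_subset hM hN)
  rw [Finset.sum_union hd] at h3
  rw [Finset.sum_sub_distrib]
  linarith

/-- **The contradiction.** -/
theorem contra (hLD : LDStmt) (hA : GermAStmt) (hB : GermBStmt) (hB' : GermB'Stmt)
    (hD : GermDStmt) {P Q : Finset HP} (tP : ∀ S ∈ P.powersetCard 3, Tr S)
    (tQ : ∀ S ∈ Q.powersetCard 3, Tr S) (dP : ∀ S ∈ P.powersetCard 3, DistA S)
    (dQ : ∀ S ∈ Q.powersetCard 3, DistA S) {L δ : ℝ} {M N N' : Finset (Finset HP)}
    {γ : Finset HP → Iso2} {it it' : Item} (h : Split P Q L δ M N N' γ it it')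
    (heq : ∀ t : ℝ, 0 < t → RP P t = RP Q t) : False := by
  classical
  have hL := h.L0
  have hLA : L < L + δ := by linarith [h.δ0]
  obtain ⟨M', hM'⟩ : ∃ M' : Finset (Finset HP), M' = M.image fun S => S.image (mv (γ S)) :=
    ⟨_, rfl⟩
  have inj' : Set.InjOn (fun S : Finset HP => S.image (mv (γ S))) (M : Set (Finset HP)) :=
    fun S hS T hT h1 => h.inj S hS T hT h1
  have cM' : ∀ S ∈ M, S.image (mv (γ S)) ∈ Q.powersetCard 3 := fun S hS => by
    rw [Finset.mem_powersetCard]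
    refine ⟨h.MQ S hS, ?_⟩
    rw [Finset.card_image_of_injective _ (mv_inj _)]
    exact (Finset.mem_powersetCard.1 (h.MP hS)).2
  -- the sums
  have s1 : Small L fun κ => ∑ S ∈ P.powersetCard 3, Lap (TPS P S) κ -
      (∑ S ∈ M, Lap (TPS P S) κ + ∑ S ∈ N, Lap (EZs S) κ) := by
    refine split_sum (F := fun S => Lap (TPS P S)) (G := fun S => Lap (EZs S)) h.MP h.NP h.disj
      ?_ ?_
    · intro S hS h1 h2
      exact small_out hLD hL.le hLA (h.out S hS h1 h2)
    · intro S hS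
      have hS3 := Finset.mem_powersetCard.1 (h.NP hS)
      exact small_loc hLD (tP S (h.NP hS)) hS3.1 hL.le hLA (h.loc S hS)
  have s2 : Small L fun κ => ∑ S ∈ Q.powersetCard 3, Lap (TPS Q S) κ -
      (∑ S ∈ M', Lap (TPS Q S) κ + ∑ S ∈ N', Lap (EZs S) κ) := by
    refine split_sum (F := fun S => Lap (TPS Q S)) (G := fun S => Lap (EZs S)) ?_ h.NQ ?_ ?_ ?_
    · intro S hS
      rw [hM'] at hS
      obtain ⟨T, hT, rfl⟩ := Finset.mem_image.1 hS
      exact cM' T hT
    · rw [Finset.disjoint_left]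
      intro S hS
      rw [hM'] at hS
      obtain ⟨T, hT, rfl⟩ := Finset.mem_image.1 hS
      exact h.disj' T hT
    · intro S hS h1 h2
      refine small_out hLD hL.le hLA (h.out' S hS (fun T hT h3 => h1 ?_) h2)
      rw [hM', ← h3]
      exact Finset.mem_image_of_mem (fun S => S.image (mv (γ S))) hT
    · intro S hS
      have hS3 := Finset.mem_powersetCard.1 (h.NQ hS)
      exact small_loc hLD (tQ S (h.NQ hS)) hS3.1 hL.le hLA (h.loc' S hS)
  have s3 : Small L fun κ => ∑ S ∈ M, Lap (TPS P S) κ - ∑ S ∈ M', Lap (TPS Q S) κ := by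
    have h1 : Small L fun κ => ∑ S ∈ M, (Lap (TPS P S) κ -
        Lap (TPS Q (S.image (mv (γ S)))) κ) := small_sum _ _ fun S hS => by
      have hS3 := Finset.mem_powersetCard.1 (h.MP hS)
      exact small_mat hLD (γ S) (tP S (h.MP hS)) hS3.1 (h.MQ S hS) hL.le hLA (h.mat S hS)
    refine small_congr h1 (Eventually.of_forall fun κ => ?_)
    rw [hM', Finset.sum_image inj', Finset.sum_sub_distrib]
  obtain ⟨f, hf, s4⟩ := sum_N hA hB hB' hD hL h.item (fun S hS => dP S (h.NP hS)) h.injN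
  obtain ⟨f', hf', s5⟩ := sum_N hA hB hB' hD hL h.item' (fun S hS => dQ S (h.NQ hS)) h.injN'
  rw [← OF_congr h.old] at s5
  have hsum : ∀ {R : Finset HP}, (∀ S ∈ R.powersetCard 3, Tr S) → ∀ κ : ℝ, 0 < κ →
      Lap (RP R) κ = ∑ S ∈ R.powersetCard 3, Lap (TPS R S) κ := by
    intro R tR κ hκ
    exact Lap_sum _ _ (fun S hS => adm_TPS (tR S hS) (Finset.mem_powersetCard.1 hS).1) hκ
  have h6 := small_add (small_sub (small_add (small_sub s2 s1) s5) s4) (small_neg s3)
  refine itg_ne hL hf hf' h.ne (small_congr h6 ?_)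
  filter_upwards [eventually_gt_atTop 0] with κ hκ
  have e1 := hsum tP κ hκ
  have e2 := hsum tQ κ hκ
  have e3 : Lap (RP P) κ = Lap (RP Q) κ := Lap_congr heq κ
  rw [e1, e2] at e3
  linarith

end Pool.Agent.AEU.H35
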