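import Pool.Agent.Helper35_AEU.All
import Pool.Agent.Helper62_GB.All
import Pool.Agent.Helper85_TRI.POLY
import Pool.Agent.Helper42_OPEN.CptA

/-!
helper35, AEU (MP_5b0138_an): the theorem, with arbitrary bounded convex domains as competitors.
-/

set_option autoImplicit false

open MeasureTheory Pool.Agent.H16Iso Pool.Agent.AEU
open Pool.Agent.H1Gen (CCW poly det)

namespace Pool.Agent.AEU.H35

/-- a convex polygon has a list of vertices in counterclockwise order -/
theorem ccw_list {P : Set ℂ} (hP : IsConvexPolygon P) :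
    ∃ m : ℕ, 3 ≤ m ∧ ∃ w : Fin m → ℂ, CCW w ∧ P = poly w := by
  obtain ⟨N, v, hv, hPv, hccw⟩ := H62T.H85.exists_ccw hP
  refine ⟨N + 1, ?_, v, ?_, hPv⟩
  · by_contra hN
    have h12 : N = 0 ∨ N = 1 := by omega
    apply hv
    rcases h12 with rfl | rfl
    · have : Set.range v ⊆ {v 0} := by
        rintro _ ⟨i, rfl⟩
        have : i = 0 := Fin.ext (by have := i.2; simp only [Fin.val_zero]; omega)
        rw [this]; rfl
      exact (collinear_singleton ℝ (v 0)).subset this
    · have : Set.range v ⊆ {v 0, v 1} := by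
        rintro _ ⟨i, rfl⟩
        fin_cases i <;> simp
      exact (collinear_pair ℝ (v 0) (v 1)).subset this
  · intro i j k hij hjk
    have := hccw i j k hij hjk
    simpa only [H62T.dt, H1Gen.det] using this

theorem is_poly {n : ℕ} (hn : 3 ≤ n) {v : Fin n → ℂ} (h : CCW v) : IsConvexPolygon (poly v) := by
  classical
  have hne : (poly v).Nonempty := H1Gen.CCW.poly_nonempty hn h
  refine ⟨Finset.univ.image v, ?_, ?_⟩
  · rw [Finset.coe_image, Finset.coe_univ, Set.image_univ]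
    exact GB.H52.not_collinear hne
  · rw [Finset.coe_image, Finset.coe_univ, Set.image_univ]
    rfl

/-- cyclic order -/
def Cyc {n : ℕ} (i j k : Fin n) : Prop := (i < j ∧ j < k) ∨ (j < k ∧ k < i) ∨ (k < i ∧ i < j)

theorem cyc_pos {n : ℕ} {v : Fin n → ℂ} (h : CCW v) {i j k : Fin n} (hc : Cyc i j k) :
    0 < det (v j - v i) (v k - v i) := by
  rcases hc with ⟨h1, h2⟩ | ⟨h1, h2⟩ | ⟨h1, h2⟩
  · exact h i j k h1 h2
  · have := h j k i h1 h2
    simp only [det, Complex.sub_re, Complex.sub_im] at this ⊢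
    linarith
  · have := h k i j h1 h2
    simp only [det, Complex.sub_re, Complex.sub_im] at this ⊢
    linarith

/-- the neighbours of a vertex -/
theorem neighbours {n : ℕ} (hn : 3 ≤ n) (i : Fin n) : ∃ a b : Fin n, Cyc a i b ∧
    ∀ k, k ≠ i → (k = a ∨ k = b ∨ (Cyc i b k ∧ Cyc a i k)) := by
  have hi := i.2
  rcases Nat.eq_zero_or_pos (i : ℕ) with h0 | h0
  · refine ⟨⟨n - 1, by omega⟩, ⟨1, by omega⟩, ?_, fun k hk => ?_⟩
    · simp only [Cyc, Fin.lt_def]; omega
    · have hk' : (k : ℕ) ≠ i := fun h => hk (Fin.ext h)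
      have hk2 := k.2
      simp only [Cyc, Fin.lt_def, Fin.ext_iff]; omega
  · rcases Nat.lt_or_ge ((i : ℕ) + 1) n with h1 | h1
    · refine ⟨⟨i - 1, by omega⟩, ⟨i + 1, h1⟩, ?_, fun k hk => ?_⟩
      · simp only [Cyc, Fin.lt_def]; omega
      · have hk' : (k : ℕ) ≠ i := fun h => hk (Fin.ext h)
        have hk2 := k.2
        simp only [Cyc, Fin.lt_def, Fin.ext_iff]; omega
    · refine ⟨⟨i - 1, by omega⟩, ⟨0, by omega⟩, ?_, fun k hk => ?_⟩
      · simp only [Cyc, Fin.lt_def]; omega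
      · have hk' : (k : ℕ) ≠ i := fun h => hk (Fin.ext h)
        have hk2 := k.2
        simp only [Cyc, Fin.lt_def, Fin.ext_iff]; omega

/-- linear functional `-det c` -/
noncomputable def nd (c : ℂ) : ℂ →ₗ[ℝ] ℝ where
  toFun z := -det c z
  map_add' x y := by simp only [det, Complex.add_re, Complex.add_im]; ring
  map_smul' r x := by
    simp only [det, Complex.smul_re, Complex.smul_im, smul_eq_mul, RingHom.id_apply]; ring

theorem exposed {n : ℕ} (hn : 3 ≤ n) {v : Fin n → ℂ} (h : CCW v) (i : Fin n) :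
    ∃ f : ℂ →ₗ[ℝ] ℝ, ∀ k, k ≠ i → f (v k) < f (v i) := by
  obtain ⟨a, b, hab, hall⟩ := neighbours hn i
  refine ⟨nd (v b - v i) + nd (v i - v a), fun k hk => ?_⟩
  have e1 : ∀ z, (nd (v b - v i) + nd (v i - v a)) z = -det (v b - v i) z - det (v i - v a) z := by
    intro z
    show -det (v b - v i) z + -det (v i - v a) z = _
    ring
  rw [e1, e1]
  have key : 0 < det (v b - v i) (v k - v i) + det (v i - v a) (v k - v a) := by
    rcases hall k hk with rfl | rfl | ⟨h1, h2⟩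
    · have h3 := cyc_pos h hab
      have h4 : det (v b - v i) (v k - v i) = det (v i - v k) (v b - v k) := by
        simp only [det, Complex.sub_re, Complex.sub_im]; ring
      have h5 : det (v i - v k) (v k - v k) = 0 := by
        simp only [det, Complex.sub_re, Complex.sub_im]; ring
      rw [h4, h5]; linarith
    · have h3 := cyc_pos h hab
      have h5 : det (v k - v i) (v k - v i) = 0 := by
        simp only [det, Complex.sub_re, Complex.sub_im]; ring
      rw [h5]; linarith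
    · have h3 := cyc_pos h h1
      have h4 := cyc_pos h h2
      linarith
  have e2 : det (v b - v i) (v k - v i) + det (v i - v a) (v k - v a)
      = (det (v b - v i) (v k) + det (v i - v a) (v k))
        - (det (v b - v i) (v i) + det (v i - v a) (v i)) := by
    simp only [det, Complex.sub_re, Complex.sub_im]; ring
  rw [e2] at key
  linarith

/-- the number of vertices is determined by the polygon -/
theorem card_le {n m : ℕ} (hn : 3 ≤ n) (hm : 3 ≤ m) {v : Fin n → ℂ} {w : Fin m → ℂ}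
    (hv : CCW v) (hw : CCW w) (h : poly v = poly w) : m ≤ n := by
  have h1 := H5O.H42.hull_eq_of_poly_eq h (H1Gen.CCW.poly_nonempty hm hw)
  have hinj : Function.Injective w := by
    intro i j hij
    by_contra hne
    obtain ⟨f, hf⟩ := exposed hm hw i
    have := hf j (fun h => hne h.symm)
    rw [hij] at this
    exact lt_irrefl _ this
  have hsub : Set.range w ⊆ Set.range v := by
    rintro _ ⟨i, rfl⟩
    obtain ⟨f, hf⟩ := exposed hm hw i
    refine H5O.H42.corner h1 f _ ⟨i, rfl⟩ fun k hk => hf k (fun h => hk (by rw [h]))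
  choose g hg using fun i => hsub ⟨i, rfl⟩
  have hg' : Function.Injective g := by
    intro i j hij
    apply hinj
    rw [← hg i, ← hg j, hij]
  simpa using Fintype.card_le_of_injective g hg'

theorem card_eq {n m : ℕ} (hn : 3 ≤ n) (hm : 3 ≤ m) {v : Fin n → ℂ} {w : Fin m → ℂ}
    (hv : CCW v) (hw : CCW w) (h : poly v = poly w) : n = m :=
  le_antisymm (card_le hm hn hw hv h.symm) (card_le hn hm hv hw h)

theorem main_cvx :
    ∃ G : Set (Set ℂ),
      (∀ n : ℕ, 3 ≤ n → ∀ᵐ v : Fin n → ℂ, CCW v → poly v ∈ G) ∧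
      ∀ n : ℕ, 3 ≤ n → ∀ v : Fin n → ℂ, CCW v → poly v ∈ G →
        ∃ N : ℕ, ∀ Ω : Set ℂ, IsOpen Ω → Convex ℝ Ω → Bornology.IsBounded Ω → Ω.Nonempty →
          ((∃ m ≤ n, 3 ≤ m ∧ ∃ w : Fin m → ℂ, CCW w ∧ Ω = poly w) ∧
              (∀ k < N, dirEig Ω k = dirEig (poly v) k)) ∨
            (¬ (Ω ∉ G ∧ ∃ m > n, ∃ w : Fin m → ℂ, CCW w ∧ Ω = poly w) ∧
              ∀ k, dirEig Ω k = dirEig (poly v) k) →
          Congruent Ω (poly v) := by
  obtain ⟨G, hG, hmain⟩ := main_final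
  refine ⟨{Ω | ∃ n, 3 ≤ n ∧ ∃ v ∈ G n, Ω = poly v}, fun n hn => ?_, fun n hn v hv hvG => ?_⟩
  · filter_upwards [(hG n hn).2] with v hv hc
    exact ⟨n, hn, v, hv hc, rfl⟩
  obtain ⟨n', hn', v', hv', hvv⟩ := hvG
  obtain rfl : n = n' := card_eq hn hn' hv ((hG n' hn').1 v' hv') hvv
  obtain ⟨N, hN⟩ := hmain n hn v' hv'
  refine ⟨N, fun Ω hop hcv hbd hne hΩ => ?_⟩
  rw [hvv] at hΩ ⊢
  rcases hΩ with ⟨⟨m, hmn, hm, w, hw, rfl⟩, hk⟩ | ⟨hnot, hk⟩
  · exact (hN m hm w hw (Or.inl ⟨hmn, hk⟩)).2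
  · have hP : IsConvexPolygon Ω :=
      GB.poly_all Ω ⟨hop, hcv, hbd, hne⟩ _ (is_poly hn ((hG n hn).1 v' hv')) hk
    obtain ⟨m, hm, w, hw, hΩ⟩ := ccw_list hP
    subst hΩ
    rcases Nat.lt_or_ge n m with hnm | hmn
    · have hin : poly w ∈ {Ω | ∃ n, 3 ≤ n ∧ ∃ v ∈ G n, Ω = poly v} := by
        by_contra hcon
        exact hnot ⟨hcon, m, hnm, w, hw, rfl⟩
      obtain ⟨m', hm', w', hw', hww⟩ := hin
      rw [hww] at hk ⊢
      exact (hN m' hm' w' ((hG m' hm').1 w' hw') (Or.inr ⟨hw', hk⟩)).2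
    · exact (hN m hm w hw (Or.inl ⟨hmn, fun k _ => hk k⟩)).2

end Pool.Agent.AEU.H35
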