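import Pool.Agent.Helper35_AEU.ItG

/-! AEU: from the shape of a triple to its germ -/

set_option autoImplicit false

namespace Pool.Agent.AEU.H35

open MeasureTheory Complex Filter Topology ProbabilityTheory Pool.Agent.H16Iso Pool.Agent.H62T
open Pool.Agent.AEU
open Pool.Agent.AEU.H12 (Lead TA TB)

lemma unit_sq {z : ℂ} (h : ‖z‖ = 1) : z.re ^ 2 + z.im ^ 2 = 1 := by
  have := Complex.normSq_apply z
  rw [Complex.normSq_eq_norm_sq, h] at this
  linarith only [this]

lemma ip_self_one {z : ℂ} (h : ‖z‖ = 1) : ip z z = 1 := by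
  have := unit_sq h
  unfold ip; linarith only [this]

lemma ip_comm' (a b : ℂ) : ip a b = ip b a := by unfold ip; ring
lemma dt_comm' (a b : ℂ) : dt a b = -dt b a := by unfold dt; ring

lemma ip_dt_sq {a b : ℂ} (ha : ‖a‖ = 1) (hb : ‖b‖ = 1) : ip a b ^ 2 + dt a b ^ 2 = 1 := by
  have h1 := unit_sq ha
  have h2 := unit_sq hb
  have : ip a b ^ 2 + dt a b ^ 2 = (a.re ^ 2 + a.im ^ 2) * (b.re ^ 2 + b.im ^ 2) := by
    unfold ip dt; ring
  rw [this, h1, h2, mul_one]

lemma vx_re (s t : HP) : (vx s t).re = (s.2 * t.1.im - t.2 * s.1.im) / dt s.1 t.1 := by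
  unfold vx
  rw [Complex.div_ofReal_re]
  congr 1
  simp only [Complex.mul_re, Complex.sub_re, Complex.sub_im, Complex.mul_im, Complex.ofReal_re,
    Complex.ofReal_im, Complex.I_re, Complex.I_im]
  ring

lemma vx_im (s t : HP) : (vx s t).im = (t.2 * s.1.re - s.2 * t.1.re) / dt s.1 t.1 := by
  unfold vx
  rw [Complex.div_ofReal_im]
  congr 1
  simp only [Complex.mul_re, Complex.sub_re, Complex.sub_im, Complex.mul_im, Complex.ofReal_re,
    Complex.ofReal_im, Complex.I_re, Complex.I_im]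
  ring

lemma ip_vx_left {s t : HP} (h : dt s.1 t.1 ≠ 0) : ip s.1 (vx s t) = s.2 := by
  have e : ip s.1 (vx s t) = s.2 * (dt s.1 t.1 / dt s.1 t.1) := by
    show s.1.re * (vx s t).re + s.1.im * (vx s t).im = _
    rw [vx_re, vx_im]
    unfold dt
    ring
  rw [e, div_self h, mul_one]

lemma ip_vx_right {s t : HP} (h : dt s.1 t.1 ≠ 0) : ip t.1 (vx s t) = t.2 := by
  have e : ip t.1 (vx s t) = t.2 * (dt s.1 t.1 / dt s.1 t.1) := by
    show t.1.re * (vx s t).re + t.1.im * (vx s t).im = _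
    rw [vx_re, vx_im]
    unfold dt
    ring
  rw [e, div_self h, mul_one]

lemma vx_comm' (s t : HP) : vx s t = vx t s := by
  apply Complex.ext
  · rw [vx_re, vx_re, dt_comm' t.1 s.1, div_neg, ← neg_div]
    congr 1; ring
  · rw [vx_im, vx_im, dt_comm' t.1 s.1, div_neg, ← neg_div]
    congr 1; ring

lemma D0_vx {i j : HP} (q : HP) (h : dt i.1 j.1 ≠ 0) :
    D0 i j q = dt i.1 j.1 * (q.2 - ip q.1 (vx i j)) := by
  have h1 := dt_ip_cyc i.1 j.1 q.1 (vx i j)
  rw [ip_vx_left h, ip_vx_right h] at h1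
  unfold D0
  linear_combination h1

/-- position of a unit vector in a rotated basis -/
lemma rot_eq {z w : ℂ} (hz : ‖z‖ = 1) {θ : ℝ} (h1 : Real.cos θ = ip z w)
    (h2 : Real.sin θ = dt z w) : w = z * exp (θ * I) := by
  have hu := unit_sq hz
  rw [Complex.exp_mul_I, ← Complex.ofReal_cos, ← Complex.ofReal_sin, h1, h2]
  apply Complex.ext
  · simp only [Complex.mul_re, Complex.add_re, Complex.add_im, Complex.mul_im, Complex.ofReal_re,
      Complex.ofReal_im, Complex.I_re, Complex.I_im]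
    unfold ip dt
    linear_combination (-w.re) * hu
  · simp only [Complex.mul_re, Complex.add_re, Complex.add_im, Complex.mul_im, Complex.ofReal_re,
      Complex.ofReal_im, Complex.I_re, Complex.I_im]
    unfold ip dt
    linear_combination (-w.im) * hu

/-- three unit vectors with obtuse angles span the plane positively -/
lemma acute_signs {a b c : ℂ} (ha : ‖a‖ = 1) (hb : ‖b‖ = 1) (hc : ‖c‖ = 1) (h1 : ip a b < 0)
    (h2 : ip b c < 0) (h3 : ip c a < 0) :
    (0 < dt a b ∧ 0 < dt b c ∧ 0 < dt c a) ∨ (dt a b < 0 ∧ dt b c < 0 ∧ dt c a < 0) := by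
  have e1 := dt_ip_cyc a b c a
  have e2 := dt_ip_cyc a b c b
  have e3 := dt_ip_cyc a b c c
  rw [ip_self_one ha, ip_comm' b a] at e1
  rw [ip_self_one hb, ip_comm' c b] at e2
  rw [ip_self_one hc, ip_comm' a c] at e3
  have hr : dt a b ≠ 0 := by
    intro h0
    have h4 := ip_dt_sq ha hb
    rw [h0] at h4
    have h5 : ip a b = -1 := by nlinarith only [h4, h1]
    have h6 : b = -a := by
      have ua := unit_sq ha
      have ub := unit_sq hb
      have h7 : (a.re + b.re) ^ 2 + (a.im + b.im) ^ 2 = 0 := by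
        unfold ip at h5; linarith only [h5, ua, ub]
      have h8 : a.re + b.re = 0 := by nlinarith only [h7, sq_nonneg (a.re + b.re), sq_nonneg (a.im + b.im)]
      have h9 : a.im + b.im = 0 := by nlinarith only [h7, sq_nonneg (a.re + b.re), sq_nonneg (a.im + b.im)]
      apply Complex.ext
      · rw [Complex.neg_re]; linarith
      · rw [Complex.neg_im]; linarith
    have h7 : ip b c = -ip c a := by rw [h6]; unfold ip; simp only [Complex.neg_re, Complex.neg_im]; ring
    linarith
  rcases lt_or_gt_of_ne hr with hr | hr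
  · right
    have hq : dt c a < 0 := by
      by_contra hcon
      push Not at hcon
      -- `p Z = r - q Y`
      have k1 : 0 ≤ dt c a * (-ip b c) := mul_nonneg hcon (by linarith)
      have k2 : dt b c * (-ip c a) < 0 := by linarith
      have k3 : dt b c < 0 := by
        by_contra h
        push Not at h
        have := mul_nonneg h (show 0 ≤ -ip c a by linarith)
        linarith
      have k4 : 0 < dt b c * ip a b := mul_pos_of_neg_of_neg k3 h1
      have k5 : 0 < dt a b * ip b c := mul_pos_of_neg_of_neg hr h2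
      linarith
    refine ⟨hr, ?_, hq⟩
    have k4 : 0 < dt c a * ip a b := mul_pos_of_neg_of_neg hq h1
    have k5 : 0 < dt a b * ip c a := mul_pos_of_neg_of_neg hr h3
    linarith
  · left
    have hq : 0 < dt c a := by
      by_contra hcon
      push Not at hcon
      have k1 : dt c a * (-ip b c) ≤ 0 := mul_nonpos_of_nonpos_of_nonneg hcon (by linarith)
      have k2 : 0 < dt b c * (-ip c a) := by linarith
      have k3 : 0 < dt b c := by
        by_contra h
        push Not at h
        have := mul_nonpos_of_nonpos_of_nonneg h (show 0 ≤ -ip c a by linarith)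
        linarith
      have k4 : dt b c * ip a b < 0 := mul_neg_of_pos_of_neg k3 h1
      have k5 : dt a b * ip b c < 0 := mul_neg_of_pos_of_neg hr h2
      linarith
    refine ⟨hr, ?_, hq⟩
    have k4 : dt c a * ip a b < 0 := mul_neg_of_pos_of_neg hq h1
    have k5 : dt a b * ip c a < 0 := mul_neg_of_pos_of_neg hr h3
    linarith

lemma ell_eq {a b c : HP} (hab : a ≠ b) (hac : a ≠ c) (hbc : b ≠ c) :
    ell {a, b, c} = 2 * (|dt b.1 c.1| * a.2 + |dt c.1 a.1| * b.2 + |dt a.1 b.1| * c.2) := by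
  classical
  have e1 : ({a, b, c} : Finset HP).erase a = {b, c} := by
    rw [Finset.erase_insert]; simp [hab, hac]
  have e2 : ({a, b, c} : Finset HP).erase b = {a, c} := by
    rw [Finset.insert_comm, Finset.erase_insert]; simp [hab.symm, hbc]
  have e3 : ({a, b, c} : Finset HP).erase c = {a, b} := by
    have : ({a, b, c} : Finset HP) = {c, a, b} := by
      ext x; simp only [Finset.mem_insert, Finset.mem_singleton]; tauto
    rw [this, Finset.erase_insert]; simp [hac.symm, hbc.symm]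
  have dd : ∀ z : ℂ, dt z z = 0 := fun z => by unfold dt; ring
  have ac : ∀ z w : ℂ, |dt z w| = |dt w z| := fun z w => by rw [dt_comm', abs_neg]
  unfold ell
  rw [Finset.sum_insert (by simp [hab, hac]), Finset.sum_insert (by simp [hbc]),
    Finset.sum_singleton, e1, e2, e3]
  rw [Finset.sum_pair hbc, Finset.sum_pair hac, Finset.sum_pair hab, Finset.sum_pair hbc,
    Finset.sum_pair hbc, Finset.sum_pair hac, Finset.sum_pair hac, Finset.sum_pair hab,
    Finset.sum_pair hab]
  rw [dd, dd, dd, abs_zero, ac c.1 b.1, ac c.1 a.1, ac b.1 a.1]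
  ring

lemma EZs_eq {a b c : HP} (hab : a ≠ b) (hac : a ≠ c) (hbc : b ≠ c) (hD : 0 < D0 a b c) :
    EZs {a, b, c} = EZ a.1 b.1 c.1 (D0 a b c) := by
  funext t
  unfold EZs EZ
  simp_rw [Zs_eq hab hac hbc hD]

lemma swap12 (a b c : HP) : ({a, b, c} : Finset HP) = {b, a, c} := Finset.insert_comm _ _ _
lemma cyc123 (a b c : HP) : ({a, b, c} : Finset HP) = {b, c, a} := by
  classical
  ext x; simp only [Finset.mem_insert, Finset.mem_singleton]; tauto
lemma rev123 (a b c : HP) : ({a, b, c} : Finset HP) = {c, b, a} := by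
  classical
  ext x; simp only [Finset.mem_insert, Finset.mem_singleton]; tauto

lemma card3_ne {a b c : HP} (h : ({a, b, c} : Finset HP).card = 3) : a ≠ b ∧ a ≠ c ∧ b ≠ c := by
  classical
  refine ⟨?_, ?_, ?_⟩
  · rintro rfl
    have h1 : ({a, a, c} : Finset HP) = {a, c} := by simp
    rw [h1] at h
    have := Finset.card_le_two (a := a) (b := c)
    omega
  · rintro rfl
    have h1 : ({a, b, a} : Finset HP) = {a, b} := by
      ext x; simp only [Finset.mem_insert, Finset.mem_singleton]; tauto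
    rw [h1] at h
    have := Finset.card_le_two (a := a) (b := b)
    omega
  · rintro rfl
    have h1 : ({a, b, b} : Finset HP) = {a, b} := by simp
    rw [h1] at h
    have := Finset.card_le_two (a := a) (b := b)
    omega

/-- the angles between the lines of the triple are different -/
def DistA (S : Finset HP) : Prop := ∀ s ∈ S, ∀ t ∈ S, ∀ s' ∈ S, ∀ t' ∈ S, s ≠ t → s' ≠ t' →
    |ip s.1 t.1| = |ip s'.1 t'.1| → (s = s' ∧ t = t') ∨ (s = t' ∧ t = s')

lemma abs_ip_of_dt {a b c d : ℂ} (ha : ‖a‖ = 1) (hb : ‖b‖ = 1) (hc : ‖c‖ = 1) (hd : ‖d‖ = 1)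
    (h : dt a b = dt c d) : |ip a b| = |ip c d| := by
  have h1 := ip_dt_sq ha hb
  have h2 := ip_dt_sq hc hd
  rw [h] at h1
  exact (sq_eq_sq_iff_abs_eq_abs _ _).1 (by linarith)

/-- acute triples in the right order -/
lemma acute_order {S : Finset HP} (hc : S.card = 3) (hu : ∀ s ∈ S, ‖s.1‖ = 1) (ha : Acute S)
    (hpos : 0 < ell S) : ∃ a b c : HP, S = {a, b, c} ∧ a ≠ b ∧ a ≠ c ∧ b ≠ c ∧
      0 < dt a.1 b.1 ∧ 0 < dt b.1 c.1 ∧ 0 < dt c.1 a.1 ∧ ell S = 2 * D0 a b c := by
  classical
  obtain ⟨a, b, c, rfl, hab, hac, hbc, hD⟩ := exists_order hc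
  have h1 := ha a (by simp) b (by simp) hab
  have h2 := ha b (by simp) c (by simp) hbc
  have h3 := ha c (by simp) a (by simp) hac.symm
  have hl := ell_eq hab hac hbc
  rcases acute_signs (hu a (by simp)) (hu b (by simp)) (hu c (by simp)) h1 h2 h3 with
    ⟨k1, k2, k3⟩ | ⟨k1, k2, k3⟩
  · refine ⟨a, b, c, rfl, hab, hac, hbc, k1, k2, k3, ?_⟩
    rw [hl, abs_of_pos k1, abs_of_pos k2, abs_of_pos k3]
    unfold D0; ring
  · exfalso
    rw [hl, abs_of_neg k1, abs_of_neg k2, abs_of_neg k3] at hpos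
    unfold D0 at hD
    linarith

/-- type D -/
theorem small_D (hG : GermDStmt) {S : Finset HP} {L : ℝ} (hc : S.card = 3)
    (hu : ∀ s ∈ S, ‖s.1‖ = 1) (ha : Acute S) (hpos : 0 < ell S) (hd : DistA S)
    (halt : ∀ i j q, S = {i, j, q} → L / 2 < q.2 - ip q.1 (vx i j)) :
    Small L fun κ => Lap (EZs S) κ - germD (ell S) κ := by
  classical
  obtain ⟨a, b, c, rfl, hab, hac, hbc, k1, k2, k3, hl⟩ := acute_order hc hu ha hpos
  have ua := hu a (by simp)
  have ub := hu b (by simp)
  have uc := hu c (by simp)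
  have hD : 0 < D0 a b c := by linarith
  have a1 : L / 2 < c.2 - ip c.1 (vx a b) := halt a b c rfl
  have a2 : L / 2 < a.2 - ip a.1 (vx b c) := halt b c a (cyc123 a b c)
  have a3 : L / 2 < b.2 - ip b.1 (vx c a) := halt c a b (by rw [cyc123 a b c, cyc123 b c a])
  have d1 := D0_vx c k1.ne'
  have d2 := D0_vx a k2.ne'
  have d3 := D0_vx b k3.ne'
  rw [D0_cyc] at d2
  rw [D0_cyc, D0_cyc] at d3
  have h := hG a.1 b.1 c.1 (D0 a b c) L ua ub uc k1 k2 k3 (ha a (by simp) b (by simp) hab)
    (ha b (by simp) c (by simp) hbc) (ha c (by simp) a (by simp) hac.symm)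
    (fun h => by
      rcases hd a (by simp) b (by simp) b (by simp) c (by simp) hab hbc
        (abs_ip_of_dt ua ub ub uc h) with ⟨h5, -⟩ | ⟨h5, -⟩
      · exact hab h5
      · exact hac h5)
    (fun h => by
      rcases hd b (by simp) c (by simp) c (by simp) a (by simp) hbc hac.symm
        (abs_ip_of_dt ub uc uc ua h) with ⟨h5, -⟩ | ⟨h5, -⟩
      · exact hbc h5
      · exact hab h5.symm)
    (fun h => by
      rcases hd c (by simp) a (by simp) a (by simp) b (by simp) hac.symm hab
        (abs_ip_of_dt uc ua ua ub h) with ⟨h5, -⟩ | ⟨h5, -⟩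
      · exact hac h5.symm
      · exact hbc h5.symm)
    hD (by nlinarith only [d1, k1, a1]) (by nlinarith only [d2, k2, a2]) (by nlinarith only [d3, k3, a3])
  rw [EZs_eq hab hac hbc hD, hl]
  exact h

lemma TA_comm (b b' a : ℝ) : TA b b' a = TA b' b a := by
  unfold TA
  refine integral_congr_ae (Eventually.of_forall fun p => ?_)
  simp only
  ring

lemma germA_comm (l β β' : ℝ) : germA l β β' = germA l β' β := by
  funext κ
  unfold germA
  rw [TA_comm]

/-- type A, oriented -/
lemma small_A_or (hG : GermAStmt) {i j k : HP} {L c c' : ℝ} (hL : 0 < L)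
    (hcard : ({i, j, k} : Finset HP).card = 3) (h : IsA i j k L c c') (h1 : 0 < dt i.1 j.1)
    (h2 : 0 < dt j.1 k.1) : Small L fun κ => Lap (EZs {i, j, k}) κ -
      germA (L / 2) (Real.arccos c) (Real.arccos c') κ := by
  classical
  obtain ⟨hij, hik, hjk⟩ := card3_ne hcard
  have s1 : Real.sin (Real.arccos c) = dt i.1 j.1 := by
    rw [Real.sin_arccos]
    have := ip_dt_sq h.ui h.uj
    rw [h.ij] at this
    rw [show 1 - c ^ 2 = dt i.1 j.1 ^ 2 by linarith, Real.sqrt_sq h1.le]
  have s2 : Real.sin (Real.arccos c') = dt j.1 k.1 := by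
    rw [Real.sin_arccos]
    have := ip_dt_sq h.uj h.uk
    rw [h.jk] at this
    rw [show 1 - c' ^ 2 = dt j.1 k.1 ^ 2 by linarith, Real.sqrt_sq h2.le]
  have c1 : Real.cos (Real.arccos c) = c := Real.cos_arccos (by linarith [h.pos]) h.lt.le
  have c2 : Real.cos (Real.arccos c') = c' := Real.cos_arccos (by linarith [h.pos']) h.lt'.le
  have b1 : 0 < Real.arccos c := Real.arccos_pos.2 h.lt
  have b2 : 0 < Real.arccos c' := Real.arccos_pos.2 h.lt'
  have b3 : Real.arccos c < Real.pi / 2 := Real.arccos_lt_pi_div_two.2 h.pos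
  have b4 : Real.arccos c' < Real.pi / 2 := Real.arccos_lt_pi_div_two.2 h.pos'
  have ei : i.1 = j.1 * exp (-(Real.arccos c : ℂ) * I) := by
    have := rot_eq h.uj (w := i.1) (θ := -Real.arccos c)
      (by rw [Real.cos_neg, c1, ip_comm', h.ij]) (by rw [Real.sin_neg, s1, dt_comm', neg_neg])
    rw [this]; push_cast; rfl
  have ek : k.1 = j.1 * exp ((Real.arccos c' : ℂ) * I) :=
    rot_eq h.uj (w := k.1) (θ := Real.arccos c') (by rw [c2, h.jk]) s2
  have hD1 := D0_vx k h1.ne'
  have hD : 0 < D0 i j k := by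
    rw [hD1]; exact mul_pos h1 (by linarith [h.in₁])
  -- length
  have hlen : D0 i j k = Real.sin (Real.arccos c) * Real.sin (Real.arccos c') * (L / 2) := by
    rw [s1, s2]
    have e1 : ip j.1 (vx j k - vx i j) = 0 := by
      have x1 := ip_vx_right h1.ne'
      have x2 := ip_vx_left h2.ne'
      unfold ip at x1 x2 ⊢
      simp only [Complex.sub_re, Complex.sub_im]
      linarith
    have e2 : ip k.1 (vx j k - vx i j) = k.2 - ip k.1 (vx i j) := by
      have x1 := ip_vx_right h2.ne'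
      unfold ip at x1 ⊢
      simp only [Complex.sub_re, Complex.sub_im]
      linarith
    obtain ⟨y, hy⟩ : ∃ y, y = vx j k - vx i j := ⟨_, rfl⟩
    rw [← hy] at e1 e2
    obtain ⟨τ, hτ⟩ : ∃ τ, τ = dt j.1 y := ⟨_, rfl⟩
    have uj := unit_sq h.uj
    have yr : y.re = -τ * j.1.im := by
      rw [hτ]; unfold dt; unfold ip at e1
      linear_combination (-y.re) * uj + j.1.re * e1
    have yi : y.im = τ * j.1.re := by
      rw [hτ]; unfold dt; unfold ip at e1
      linear_combination (-y.im) * uj + j.1.im * e1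
    have e3 : ip k.1 y = τ * dt j.1 k.1 := by
      unfold ip dt; rw [yr, yi]; ring
    have hτ0 : 0 < τ := by
      have x1 : 0 < τ * dt j.1 k.1 := by rw [← e3, e2]; linarith [h.in₁]
      exact pos_of_mul_pos_left x1 h2.le
    have hn : ‖y‖ = τ := by
      have x1 : ‖y‖ ^ 2 = τ ^ 2 := by
        rw [← Complex.normSq_eq_norm_sq, Complex.normSq_apply, yr, yi]
        linear_combination τ ^ 2 * uj
      exact (pow_left_inj₀ (norm_nonneg _) hτ0.le two_ne_zero).1 x1
    have hlen := h.len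
    unfold eA at hlen
    rw [norm_sub_rev, ← hy, hn] at hlen
    rw [hD1, ← e2, e3, ← hlen]
    ring
  have hg := hG j.1 (Real.arccos c) (Real.arccos c') (L / 2) h.uj b1 b3 b2 b4 (by linarith)
  rw [← ei, ← ek, ← hlen, show 2 * (L / 2) = L by ring] at hg
  rw [EZs_eq hij hik hjk hD]
  exact hg

lemma isA_rev {i j k : HP} {L c c' : ℝ} (h : IsA i j k L c c') : IsA k j i L c' c where
  ui := h.uk
  uj := h.uj
  uk := h.ui
  ij := by rw [ip_comm']; exact h.jk
  jk := by rw [ip_comm']; exact h.ij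
  pos := h.pos'
  pos' := h.pos
  lt := h.lt'
  lt' := h.lt
  or := by
    have := h.or
    rw [dt_comm' k.1 j.1, dt_comm' j.1 i.1]; linarith
  len := by
    have := h.len
    unfold eA at this ⊢
    rw [vx_comm' k j, vx_comm' j i, norm_sub_rev]; exact this
  in₁ := by rw [vx_comm' k j]; exact h.in₂
  in₂ := by rw [vx_comm' j i]; exact h.in₁

/-- type A -/
theorem small_A (hG : GermAStmt) {i j k : HP} {L c c' : ℝ} (hL : 0 < L)
    (hcard : ({i, j, k} : Finset HP).card = 3) (h : IsA i j k L c c') :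
    ∃ f, ItG L (Item.A c c') f ∧ Small L fun κ => Lap (EZs {i, j, k}) κ - f κ := by
  have c1 : Real.cos (Real.arccos c) = c := Real.cos_arccos (by linarith [h.pos]) h.lt.le
  have c2 : Real.cos (Real.arccos c') = c' := Real.cos_arccos (by linarith [h.pos']) h.lt'.le
  refine ⟨germA (L / 2) (Real.arccos c) (Real.arccos c'), ItG.A c c' _ _ (Real.arccos_pos.2 h.lt)
    (Real.arccos_lt_pi_div_two.2 h.pos) (Real.arccos_pos.2 h.lt')
    (Real.arccos_lt_pi_div_two.2 h.pos') c1 c2, ?_⟩
  rcases lt_trichotomy (dt i.1 j.1) 0 with h1 | h1 | h1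
  · have h2 : dt j.1 k.1 < 0 := by
      by_contra hcon
      push Not at hcon
      have := mul_nonpos_of_nonpos_of_nonneg h1.le hcon
      linarith [h.or]
    have h3 := small_A_or hG hL (by rw [rev123]; exact hcard) (isA_rev h)
      (by rw [dt_comm']; linarith) (by rw [dt_comm']; linarith)
    rw [rev123, germA_comm]
    exact h3
  · have := h.or
    rw [h1, zero_mul] at this
    exact absurd this (lt_irrefl _)
  · have h2 : 0 < dt j.1 k.1 := by
      by_contra hcon
      push Not at hcon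
      have := mul_nonpos_of_nonneg_of_nonpos h1.le hcon
      linarith [h.or]
    exact small_A_or hG hL hcard h h1 h2

/-- shape of type B, oriented -/
lemma shapeB {i j q : ℂ} (hi : ‖i‖ = 1) (hj : ‖j‖ = 1) (hq : ‖q‖ = 1) (hij : 0 < dt i j)
    (ha : ip i q < 0) (hb : ip j q < 0) : ∃ α η : ℝ, 0 < η ∧ η < α ∧ α < Real.pi ∧
      Real.cos α = -ip i j ∧ Real.sin α = dt i j ∧ Real.sin η = -ip j q ∧
      Real.sin (α - η) = -ip i q ∧ i = j * exp (-(Real.pi - α) * I) ∧
      q = j * I * exp (η * I) := by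
  have q1 := ip_dt_sq hi hj
  have q2 := ip_dt_sq hj hq
  have l1 : -1 < -ip i j := by nlinarith only [q1, hij]
  have l2 : -ip i j < 1 := by nlinarith only [q1, hij]
  have l3 : -1 < dt j q := by nlinarith only [q2, hb]
  have l4 : dt j q < 1 := by nlinarith only [q2, hb]
  obtain ⟨α, hα⟩ : ∃ α, α = Real.arccos (-ip i j) := ⟨_, rfl⟩
  obtain ⟨η, hη⟩ : ∃ η, η = Real.arccos (dt j q) := ⟨_, rfl⟩
  have c1 : Real.cos α = -ip i j := by rw [hα]; exact Real.cos_arccos l1.le l2.le
  have c2 : Real.cos η = dt j q := by rw [hη]; exact Real.cos_arccos l3.le l4.le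
  have s1 : Real.sin α = dt i j := by
    rw [hα, Real.sin_arccos, show 1 - (-ip i j) ^ 2 = dt i j ^ 2 by linarith, Real.sqrt_sq hij.le]
  have s2 : Real.sin η = -ip j q := by
    rw [hη, Real.sin_arccos, show 1 - dt j q ^ 2 = (-ip j q) ^ 2 by linarith,
      Real.sqrt_sq (by linarith)]
  have uj := unit_sq hj
  have e1 : ip i q = ip i j * ip j q - dt i j * dt j q := by
    unfold ip dt
    linear_combination (-(i.re * q.re + i.im * q.im)) * uj
  have s3 : Real.sin (α - η) = -ip i q := by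
    rw [Real.sin_sub, s1, c2, c1, s2, e1]; ring
  have a0 : 0 < α := by rw [hα]; exact Real.arccos_pos.2 l2
  have a1 : α < Real.pi := by
    rw [hα]
    refine lt_of_le_of_ne (Real.arccos_le_pi _) ?_
    intro h
    rw [Real.arccos_eq_pi] at h
    linarith
  have n0 : 0 < η := by rw [hη]; exact Real.arccos_pos.2 l4
  have n1 : η ≤ Real.pi := by rw [hη]; exact Real.arccos_le_pi _
  have hlt : η < α := by
    by_contra hcon
    push Not at hcon
    have h1 : Real.sin (α - η) ≤ 0 := Real.sin_nonpos_of_nonpos_of_neg_pi_le (by linarith) (by linarith)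
    linarith
  refine ⟨α, η, n0, hlt, a1, c1, s1, s2, s3, ?_, ?_⟩
  · have := rot_eq hj (w := i) (θ := -(Real.pi - α))
      (by rw [Real.cos_neg, Real.cos_pi_sub, c1, neg_neg, ip_comm'])
      (by rw [Real.sin_neg, Real.sin_pi_sub, s1, dt_comm', neg_neg])
    conv_lhs => rw [this]
    push_cast
    rfl
  · refine rot_eq (z := j * I) (by rw [norm_mul, hj, Complex.norm_I, mul_one]) ?_ ?_
    · rw [c2]; unfold ip dt
      simp only [Complex.mul_re, Complex.mul_im, Complex.I_re, Complex.I_im]; ring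
    · rw [s2]; unfold ip dt
      simp only [Complex.mul_re, Complex.mul_im, Complex.I_re, Complex.I_im]; ring

lemma isB_swap {i j q : HP} {L c a b : ℝ} (h : IsB i j q L c a b) : IsB j i q L c b a where
  ui := h.uj
  uj := h.ui
  uq := h.uq
  ij := by rw [ip_comm']; exact h.ij
  iq := h.jq
  jq := h.iq
  lt := h.lt
  lta := h.ltb
  ltb := h.lta
  nega := h.negb
  negb := h.nega
  len := by rw [vx_comm']; exact h.len

/-- type B, obtuse, oriented -/
lemma small_B_or (hG : GermBStmt) {i j q : HP} {L c a b : ℝ} (hL : 0 < L)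
    (hcard : ({i, j, q} : Finset HP).card = 3) (h : IsB i j q L c a b) (hc : 0 < c)
    (h1 : 0 < dt i.1 j.1) : ∃ α η, GoodB α η ∧ c = -Real.cos α ∧ b = -Real.sin η ∧
      a = -Real.sin (α - η) ∧
      Small L fun κ => Lap (EZs {i, j, q}) κ - germB (L / 2) α η κ := by
  classical
  have hp := Real.pi_pos
  obtain ⟨hij, hiq, hjq⟩ := card3_ne hcard
  obtain ⟨α, η, n0, n1, n2, c1, s1, s2, s3, ei, eq⟩ := shapeB h.ui h.uj h.uq h1
    (by rw [h.iq]; exact h.nega) (by rw [h.jq]; exact h.negb)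
  rw [h.ij] at c1
  rw [h.jq] at s2
  rw [h.iq] at s3
  have hα : Real.pi / 2 < α := by
    by_contra hcon
    push Not at hcon
    have := Real.cos_nonneg_of_mem_Icc (x := α) ⟨by linarith, hcon⟩
    linarith
  have hη : η ≠ Real.pi / 2 := by
    intro h0
    rw [h0, Real.sin_pi_div_two] at s2
    linarith [h.ltb]
  have hη' : α - η ≠ Real.pi / 2 := by
    intro h0
    rw [h0, Real.sin_pi_div_two] at s3
    linarith [h.lta]
  refine ⟨α, η, ⟨n0, n1, Or.inl ⟨hα, n2, hη, hη'⟩⟩, by linarith, by linarith, by linarith, ?_⟩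
  have hD1 : D0 i j q = Real.sin α * (L / 2) := by rw [D0_vx q h1.ne', h.len, s1]
  have hD : 0 < D0 i j q := by rw [hD1, s1]; positivity
  have hg := hG j.1 α η (L / 2) h.uj hα n2 n0 n1 hη hη' (by linarith)
  rw [← ei, ← eq, ← hD1, show 2 * (L / 2) = L by ring] at hg
  rw [EZs_eq hij hiq hjq hD]
  exact hg

/-- type B, acute, oriented -/
lemma small_B'_or (hG : GermB'Stmt) {i j q : HP} {L c a b : ℝ} (hL : 0 < L)
    (hcard : ({i, j, q} : Finset HP).card = 3) (h : IsB i j q L c a b)
    (hac : Acute {i, j, q}) (hb : b < c) (ha : a < c)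
    (h1 : 0 < dt i.1 j.1) : ∃ α η, GoodB α η ∧ c = -Real.cos α ∧ b = -Real.sin η ∧
      a = -Real.sin (α - η) ∧
      Small L fun κ => Lap (EZs {i, j, q}) κ - (germB (L / 2) α η κ + germD (ell {i, j, q}) κ) := by
  classical
  have hp := Real.pi_pos
  obtain ⟨hij, hiq, hjq⟩ := card3_ne hcard
  obtain ⟨α, η, n0, n1, n2, c1, s1, s2, s3, ei, eq⟩ := shapeB h.ui h.uj h.uq h1
    (by rw [h.iq]; exact h.nega) (by rw [h.jq]; exact h.negb)
  have k1 := hac i (by simp) j (by simp) hij
  have k2 := hac j (by simp) q (by simp) hjq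
  have k3 := hac q (by simp) i (by simp) hiq.symm
  rw [h.ij] at c1
  rw [h.jq] at s2
  rw [h.iq] at s3
  rw [h.ij] at k1
  have hα : α < Real.pi / 2 := by
    by_contra hcon
    push Not at hcon
    have := Real.cos_nonpos_of_pi_div_two_le_of_le hcon (by linarith)
    linarith
  have hη : Real.pi / 2 - η < α := by
    by_contra hcon
    push Not at hcon
    have := Real.sin_le_sin_of_le_of_le_pi_div_two (x := η) (y := Real.pi / 2 - α) (by linarith)
      (by linarith) (by linarith)
    rw [Real.sin_pi_div_two_sub] at this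
    linarith
  have hη' : Real.pi / 2 - (α - η) < α := by
    by_contra hcon
    push Not at hcon
    have := Real.sin_le_sin_of_le_of_le_pi_div_two (x := α - η) (y := Real.pi / 2 - α) (by linarith)
      (by linarith) (by linarith)
    rw [Real.sin_pi_div_two_sub] at this
    linarith
  refine ⟨α, η, ⟨n0, n1, Or.inr ⟨hα, hη, hη'⟩⟩, by linarith, by linarith, by linarith, ?_⟩
  have hD1 : D0 i j q = Real.sin α * (L / 2) := by rw [D0_vx q h1.ne', h.len, s1]
  have hD : 0 < D0 i j q := by rw [hD1, s1]; positivity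
  have hl : ell {i, j, q} = 2 * (L / 2) * Real.sin α := by
    rw [ell_eq hij hiq hjq]
    rcases acute_signs h.ui h.uj h.uq (by rw [h.ij]; exact k1) k2 k3 with
      ⟨x1, x2, x3⟩ | ⟨x1, -, -⟩
    · rw [abs_of_pos x1, abs_of_pos x2, abs_of_pos x3]
      have : 2 * (L / 2) * Real.sin α = 2 * D0 i j q := by rw [hD1]; ring
      rw [this]
      unfold D0; ring
    · linarith
  have hg := hG j.1 α η (L / 2) h.uj hα hη hη' (by linarith)
  rw [← ei, ← eq, ← hD1, ← hl, show 2 * (L / 2) = L by ring] at hg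
  rw [EZs_eq hij hiq hjq hD]
  exact hg

lemma isB_dt {i j q : HP} {L c a b : ℝ} (h : IsB i j q L c a b) : dt i.1 j.1 ≠ 0 := by
  intro h0
  have h1 := ip_dt_sq h.ui h.uj
  rw [h0, h.ij] at h1
  have h2 := h.lt
  rw [← sq_lt_one_iff_abs_lt_one] at h2
  linarith

/-- type B, obtuse -/
theorem small_B (hG : GermBStmt) {i j q : HP} {L c a b : ℝ} (hL : 0 < L)
    (hcard : ({i, j, q} : Finset HP).card = 3) (h : IsB i j q L c a b) (hc : 0 < c) :
    ∃ f, ItG L (Item.B c a b) f ∧ Small L fun κ => Lap (EZs {i, j, q}) κ - f κ := by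
  rcases lt_or_gt_of_ne (isB_dt h) with h1 | h1
  · obtain ⟨α, η, g1, g2, g3, g4, g5⟩ := small_B_or hG hL (by rw [swap12]; exact hcard)
      (isB_swap h) hc (by rw [dt_comm']; linarith)
    rw [swap12] at g5
    exact ⟨_, ItG.B c a b α η g1 g2 (Or.inr ⟨g3, g4⟩), g5⟩
  · obtain ⟨α, η, g1, g2, g3, g4, g5⟩ := small_B_or hG hL hcard h hc h1
    exact ⟨_, ItG.B c a b α η g1 g2 (Or.inl ⟨g4, g3⟩), g5⟩

/-- type B, acute -/
theorem small_B' (hG : GermB'Stmt) {i j q : HP} {L c a b : ℝ} (hL : 0 < L)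
    (hcard : ({i, j, q} : Finset HP).card = 3) (h : IsB i j q L c a b)
    (hac : Acute {i, j, q}) (hb : b < c) (ha : a < c) :
    ∃ f, ItG L (Item.B c a b) f ∧
      Small L fun κ => Lap (EZs {i, j, q}) κ - (f κ + germD (ell {i, j, q}) κ) := by
  rcases lt_or_gt_of_ne (isB_dt h) with h1 | h1
  · obtain ⟨α, η, g1, g2, g3, g4, g5⟩ := small_B'_or hG hL (by rw [swap12]; exact hcard)
      (isB_swap h) (by rw [swap12]; exact hac) ha hb (by rw [dt_comm']; linarith)
    rw [swap12] at g5
    exact ⟨_, ItG.B c a b α η g1 g2 (Or.inr ⟨g3, g4⟩), g5⟩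
  · obtain ⟨α, η, g1, g2, g3, g4, g5⟩ := small_B'_or hG hL hcard h hac hb ha h1
    exact ⟨_, ItG.B c a b α η g1 g2 (Or.inl ⟨g4, g3⟩), g5⟩

end Pool.Agent.AEU.H35
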