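import Pool.Agent.Helper35_AEU.Inv

/-! AEU: germs of different items are different -/

set_option autoImplicit false

namespace Pool.Agent.AEU.H35

open MeasureTheory Complex Filter Topology Pool.Agent.H62T
open Pool.Agent.AEU
open Pool.Agent.AEU.H12 (Lead TA TB)

/-- the admissible parameters of type B -/
structure GoodB (α η : ℝ) : Prop where
  η0 : 0 < η
  ηα : η < α
  or : (Real.pi / 2 < α ∧ α < Real.pi ∧ η ≠ Real.pi / 2 ∧ α - η ≠ Real.pi / 2) ∨
    (α < Real.pi / 2 ∧ Real.pi / 2 - η < α ∧ Real.pi / 2 - (α - η) < α)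

/-- `f` is a germ of the item -/
inductive ItG (L : ℝ) : Item → (ℝ → ℝ) → Prop
  | none : ItG L Item.none (fun _ => 0)
  | gh : ItG L Item.gh (germD L)
  | A (c c' β β' : ℝ) (h1 : 0 < β) (h2 : β < Real.pi / 2) (h3 : 0 < β') (h4 : β' < Real.pi / 2)
      (h5 : Real.cos β = c) (h6 : Real.cos β' = c') : ItG L (Item.A c c') (germA (L / 2) β β')
  | B (c a b α η : ℝ) (h1 : GoodB α η) (h2 : c = -Real.cos α)
      (h3 : (a = -Real.sin (α - η) ∧ b = -Real.sin η) ∨
        (a = -Real.sin η ∧ b = -Real.sin (α - η))) :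
      ItG L (Item.B c a b) (germB (L / 2) α η)

lemma nuA {β : ℝ} (h1 : 0 < β) (h2 : β < Real.pi / 2) :
    Real.pi / (Real.pi - β) ∈ Set.Ioo (1 : ℝ) 2 := by
  have hp := Real.pi_pos
  have h3 : 0 < Real.pi - β := by linarith
  constructor
  · rw [lt_div_iff₀ h3]; linarith
  · rw [div_lt_iff₀ h3]; linarith

lemma nuA_inj {β γ : ℝ} (h1 : β < Real.pi / 2) (h2 : γ < Real.pi / 2)
    (h : Real.pi / (Real.pi - β) = Real.pi / (Real.pi - γ)) : β = γ := by
  have hp := Real.pi_pos
  rw [div_eq_div_iff (by linarith) (by linarith)] at h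
  have := mul_left_cancel₀ hp.ne' h
  linarith

lemma GoodB.pos {α η : ℝ} (h : GoodB α η) : 0 < α := h.η0.trans h.ηα

/-- the exponent is not an integer -/
lemma GoodB.sin_ne {α η : ℝ} (h : GoodB α η) : Real.sin (Real.pi / α * Real.pi) ≠ 0 := by
  have hp := Real.pi_pos
  have hα := h.pos
  rcases h.or with ⟨h1, h2, -, -⟩ | ⟨h1, h2, h3⟩
  · have k1 : 1 < Real.pi / α := by rw [lt_div_iff₀ hα]; linarith
    have k2 : Real.pi / α < 2 := by rw [div_lt_iff₀ hα]; linarith
    have e : Real.sin (Real.pi / α * Real.pi) = -Real.sin ((Real.pi / α - 1) * Real.pi) := by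
      rw [← Real.sin_add_pi]; congr 1; ring
    rw [e, neg_ne_zero]
    refine (Real.sin_pos_of_pos_of_lt_pi ?_ ?_).ne'
    · apply mul_pos (by linarith) hp
    · nlinarith
  · have k1 : 2 < Real.pi / α := by rw [lt_div_iff₀ hα]; linarith
    have k2 : Real.pi / α < 3 := by rw [div_lt_iff₀ hα]; linarith
    have e : Real.sin (Real.pi / α * Real.pi) = Real.sin ((Real.pi / α - 2) * Real.pi) := by
      rw [← Real.sin_sub_two_pi]; congr 1; ring
    rw [e]
    refine (Real.sin_pos_of_pos_of_lt_pi ?_ ?_).ne'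
    · apply mul_pos (by linarith) hp
    · nlinarith

lemma GoodB.mem {α η : ℝ} (h : GoodB α η) : η ∈ Set.Ioo 0 (Real.pi / (Real.pi / α)) := by
  have hp := Real.pi_pos
  have hα := h.pos
  have : Real.pi / (Real.pi / α) = α := by field_simp
  rw [this]
  exact ⟨h.η0, h.ηα⟩

lemma GoodB.cos_ne {α η : ℝ} (h : GoodB α η) :
    Real.cos (Real.pi / α * Real.pi) ≠ Real.cos (2 * (Real.pi / α) * η) := by
  have hp := Real.pi_pos
  have hα := h.pos
  intro hcon
  rw [Real.cos_eq_cos_iff] at hcon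
  obtain ⟨k, hk⟩ := hcon
  -- `2 (π/α) η = 2 k π ± (π/α) π`, that is, `η = k α ± π / 2`
  have hk2 : η = k * α + Real.pi / 2 ∨ η = k * α - Real.pi / 2 := by
    rcases hk with hk | hk
    · left
      have : 2 * (Real.pi / α) * η = (2 * (Real.pi / α)) * (k * α + Real.pi / 2) := by
        rw [hk]; field_simp
      exact mul_left_cancel₀ (by positivity) this
    · right
      have : 2 * (Real.pi / α) * η = (2 * (Real.pi / α)) * (k * α - Real.pi / 2) := by
        rw [hk]; field_simp
      exact mul_left_cancel₀ (by positivity) this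
  have hη0 := h.η0
  have hηα := h.ηα
  rcases h.or with ⟨h1, h2, h3, h4⟩ | ⟨h1, h2, h3⟩
  · rcases hk2 with hk2 | hk2
    · -- k = 0
      have k1 : (k : ℝ) * α < 1 * α := by linarith
      have k2 : (-1 : ℝ) * α < k * α := by linarith
      have k3 := lt_of_mul_lt_mul_right k1 hα.le
      have k4 := lt_of_mul_lt_mul_right k2 hα.le
      have k5 : k < 1 := by exact_mod_cast k3
      have k6 : -1 < k := by exact_mod_cast k4
      have k7 : k = 0 := by omega
      subst k7
      apply h3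
      push_cast at hk2
      linarith
    · have k1 : (k : ℝ) * α < 2 * α := by linarith
      have k2 : (0 : ℝ) * α < k * α := by linarith
      have k3 := lt_of_mul_lt_mul_right k1 hα.le
      have k4 := lt_of_mul_lt_mul_right k2 hα.le
      have k5 : k < 2 := by exact_mod_cast k3
      have k6 : 0 < k := by exact_mod_cast k4
      have k7 : k = 1 := by omega
      subst k7
      apply h4
      push_cast at hk2
      linarith
  · rcases hk2 with hk2 | hk2
    · -- `η = k α + π/2 > -α + π/2`, `η < 2 α - π/2 `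
      have k1 : (k : ℝ) * α < 0 * α := by linarith
      have k2 : (-1 : ℝ) * α < k * α := by linarith
      have k3 := lt_of_mul_lt_mul_right k1 hα.le
      have k4 := lt_of_mul_lt_mul_right k2 hα.le
      have k5 : k < 0 := by exact_mod_cast k3
      have k6 : -1 < k := by exact_mod_cast k4
      omega
    · have k1 : (k : ℝ) * α < 2 * α := by linarith
      have k2 : (1 : ℝ) * α < k * α := by linarith
      have k3 := lt_of_mul_lt_mul_right k1 hα.le
      have k4 := lt_of_mul_lt_mul_right k2 hα.le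
      have k5 : k < 2 := by exact_mod_cast k3
      have k6 : 1 < k := by exact_mod_cast k4
      omega

/-- power in the leading term -/
noncomputable def pw : Item → ℝ
  | Item.none => 0
  | Item.gh => 0
  | Item.A _ _ => 3
  | Item.B _ _ _ => 1 / 2

lemma itg_lead {L : ℝ} (hL : 0 < L) {it : Item} {f : ℝ → ℝ} (h : ItG L it f)
    (hne : it ≠ Item.none) : ∃ c, c ≠ 0 ∧ Lead f L (pw it) c := by
  have hp := Real.pi_pos
  cases h with
  | none => exact absurd rfl hne
  | gh => exact ⟨-1, by norm_num, (H12.lead_TD L).neg⟩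
  | A c c' β β' h1 h2 h3 h4 h5 h6 =>
    obtain ⟨c0, hc0, hl⟩ := H12.lead_TA_exists (l := L / 2) (by linarith) (nuA h1 h2) (nuA h3 h4)
    rw [show 2 * (L / 2) = L by ring] at hl
    refine ⟨1 / Real.pi ^ 2 * c0, mul_ne_zero (by positivity) hc0.ne', ?_⟩
    exact hl.const_mul (1 / Real.pi ^ 2)
  | B c a b α η h1 h2 h3 =>
    obtain ⟨c0, hc0, hl⟩ := H12.lead_TB_exists (d := L / 2) (b := Real.pi / α) (η := η)
      (by linarith) (div_pos hp h1.pos) h1.sin_ne h1.mem h1.cos_ne
    rw [show 2 * (L / 2) = L by ring] at hl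
    exact ⟨c0, hc0, hl⟩

/-- germs of different items are different -/
theorem itg_ne {L : ℝ} (hL : 0 < L) {it it' : Item} {f f' : ℝ → ℝ} (h : ItG L it f)
    (h' : ItG L it' f') (hne : ItemNe it it') (hs : Small L fun κ => f κ - f' κ) : False := by
  have hp := Real.pi_pos
  obtain ⟨C, δ, hδ, hC⟩ := hs
  by_cases n1 : it = Item.none
  · subst n1
    cases h
    by_cases n2 : it' = Item.none
    · subst n2; exact hne
    · obtain ⟨c, hc, hl⟩ := itg_lead hL h' n2
      refine hl.not_small hc hδ (C := C) ?_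
      filter_upwards [hC] with κ hκ
      rw [zero_sub, abs_neg] at hκ
      exact hκ
  by_cases n2 : it' = Item.none
  · subst n2
    cases h'
    obtain ⟨c, hc, hl⟩ := itg_lead hL h n1
    refine hl.not_small hc hδ (C := C) ?_
    filter_upwards [hC] with κ hκ
    rw [sub_zero] at hκ
    exact hκ
  obtain ⟨c0, hc0, hl⟩ := itg_lead hL h n1
  obtain ⟨c0', hc0', hl'⟩ := itg_lead hL h' n2
  have hpw := (hl.unique hl' hc0 hc0' hδ hC).2.1
  cases h with
  | none => exact n1 rfl
  | gh =>
    cases h' with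
    | none => exact n2 rfl
    | gh => exact hne
    | A c c' β β' h1 h2 h3 h4 h5 h6 => norm_num [pw] at hpw
    | B c a b α η h1 h2 h3 => norm_num [pw] at hpw
  | A c c' β β' h1 h2 h3 h4 h5 h6 =>
    cases h' with
    | none => exact n2 rfl
    | gh => norm_num [pw] at hpw
    | B c a b α η h1 h2 h3 => norm_num [pw] at hpw
    | A d d' γ γ' k1 k2 k3 k4 k5 k6 =>
      have hT : ∀ᶠ κ in atTop, |TA (Real.pi / (Real.pi - β)) (Real.pi / (Real.pi - β')) (κ * (L / 2))
          - TA (Real.pi / (Real.pi - γ)) (Real.pi / (Real.pi - γ')) (κ * (L / 2))|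
          ≤ (Real.pi ^ 2 * C) * Real.exp (-((2 * (L / 2) + δ) * κ)) := by
        filter_upwards [hC] with κ hκ
        rw [show 2 * (L / 2) = L by ring]
        unfold germA at hκ
        rw [← mul_sub, abs_mul, abs_of_pos (show (0:ℝ) < 1 / Real.pi ^ 2 by positivity)] at hκ
        have e : ∀ x : ℝ, x = Real.pi ^ 2 * (1 / Real.pi ^ 2 * x) := by intro x; field_simp
        rw [e |_|, mul_assoc]
        exact mul_le_mul_of_nonneg_left hκ (by positivity)
      have h7 := (H12.germA (by linarith) (by linarith) (nuA h1 h2) (nuA h3 h4) (nuA k1 k2)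
        (nuA k3 k4) hδ hT).2
      apply hne
      rcases h7 with ⟨e1, e2⟩ | ⟨e1, e2⟩
      · left
        rw [← h5, ← h6, ← k5, ← k6, nuA_inj h2 k2 e1, nuA_inj h4 k4 e2]
        exact ⟨rfl, rfl⟩
      · right
        rw [← h5, ← h6, ← k5, ← k6, nuA_inj h2 k4 e1, nuA_inj h4 k2 e2]
        exact ⟨rfl, rfl⟩
  | B c a b α η h1 h2 h3 =>
    cases h' with
    | none => exact n2 rfl
    | gh => norm_num [pw] at hpw
    | A d d' γ γ' k1 k2 k3 k4 k5 k6 => norm_num [pw] at hpw
    | B c' a' b' α' η' k1 k2 k3 =>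
      have hT : ∀ᶠ κ in atTop, |TB (L / 2) (Real.pi / α) η κ - TB (L / 2) (Real.pi / α') η' κ|
          ≤ C * Real.exp (-((2 * (L / 2) + δ) * κ)) := by
        filter_upwards [hC] with κ hκ
        rw [show 2 * (L / 2) = L by ring]
        exact hκ
      obtain ⟨-, e1, e2⟩ := H12.germB (by linarith) (by linarith) (div_pos hp h1.pos)
        (div_pos hp k1.pos) h1.sin_ne k1.sin_ne h1.mem k1.mem h1.cos_ne k1.cos_ne hδ hT
      have hα : α' = α := by
        have hα := h1.pos
        have hα' := k1.pos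
        rw [div_eq_div_iff hα.ne' hα'.ne'] at e1
        exact mul_left_cancel₀ hp.ne' e1
      have e3 : Real.pi / (Real.pi / α) = α := by
        have hα := h1.pos
        field_simp
      rw [e3] at e2
      rw [hα] at k3 k2
      apply hne
      refine ⟨by rw [h2, k2], ?_⟩
      rcases e2 with e2 | e2
      · rw [e2] at k3
        rcases h3 with ⟨x1, x2⟩ | ⟨x1, x2⟩ <;> rcases k3 with ⟨y1, y2⟩ | ⟨y1, y2⟩
        · left; rw [x1, x2, y1, y2]; exact ⟨rfl, rfl⟩
        · right; rw [x1, x2, y1, y2]; exact ⟨rfl, rfl⟩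
        · right; rw [x1, x2, y1, y2]; exact ⟨rfl, rfl⟩
        · left; rw [x1, x2, y1, y2]; exact ⟨rfl, rfl⟩
      · rw [e2, show α - (α - η) = η by ring] at k3
        rcases h3 with ⟨x1, x2⟩ | ⟨x1, x2⟩ <;> rcases k3 with ⟨y1, y2⟩ | ⟨y1, y2⟩
        · right; rw [x1, x2, y1, y2]; exact ⟨rfl, rfl⟩
        · left; rw [x1, x2, y1, y2]; exact ⟨rfl, rfl⟩
        · left; rw [x1, x2, y1, y2]; exact ⟨rfl, rfl⟩
        · right; rw [x1, x2, y1, y2]; exact ⟨rfl, rfl⟩

end Pool.Agent.AEU.H35
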