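import Pool.Agent.Helper35_AEU.DefsMain

/-! AEU: bounds for the transform `Lap` -/

set_option autoImplicit false

namespace Pool.Agent.AEU.H35

open MeasureTheory Complex Filter Topology ProbabilityTheory Pool.Agent.H16Iso Pool.Agent.H62T
open Pool.Agent.AEU

/-- admissible functions of the time -/
structure Adm (f : ℝ → ℝ) : Prop where
  meas : Measurable f
  near : ∃ C c : ℝ, 0 < c ∧ ∀ t, 0 < t → t ≤ 1 → |f t| ≤ C * Real.exp (-(c / t))
  far : ∃ C : ℝ, ∀ t, 1 ≤ t → |f t| ≤ C * t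

lemma amgm {κ B t : ℝ} (ht : 0 < t) :
    -(κ ^ 2 * t) - B ^ 2 / (4 * t) ≤ -(κ * B) := by
  have h : κ ^ 2 * t + B ^ 2 / (4 * t) - κ * B = (κ * t - B / 2) ^ 2 / t := by
    field_simp; ring
  have h2 : 0 ≤ (κ * t - B / 2) ^ 2 / t := by positivity
  linarith only [h, h2]

/-- `t ^ (-2)` is absorbed by a small part of the exponential -/
lemma absorb {e : ℝ} (he : 0 < e) {t : ℝ} (ht : 0 < t) :
    Real.exp (-(e / t)) / t ^ 2 ≤ 2 / e ^ 2 := by
  have h1 : (e / t) ^ 2 / 2 ≤ Real.exp (e / t) := by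
    have h0 : 0 ≤ e / t := by positivity
    have := Real.quadratic_le_exp_of_nonneg h0
    linarith
  have h2 : 0 < Real.exp (e / t) := Real.exp_pos _
  rw [Real.exp_neg, div_le_div_iff₀ (by positivity) (by positivity)]
  rw [inv_mul_le_iff₀ h2]
  have h3 : e ^ 2 / (2 * t ^ 2) ≤ Real.exp (e / t) := by
    calc e ^ 2 / (2 * t ^ 2) = (e / t) ^ 2 / 2 := by field_simp
      _ ≤ _ := h1
  rw [div_le_iff₀ (by positivity)] at h3
  linarith

lemma far_int {κ : ℝ} (hκ : 0 < κ) :
    IntegrableOn (fun t : ℝ => Real.exp (-(κ ^ 2 * t))) (Set.Ioi 1) := by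
  have h := integrableOn_exp_mul_Ioi (a := -(κ ^ 2)) (by
    have : 0 < κ ^ 2 := by positivity
    linarith) 1
  refine h.congr_fun ?_ measurableSet_Ioi
  intro t _
  simp only
  congr 1; ring

lemma far_int_eq {κ : ℝ} (hκ : 0 < κ) :
    ∫ t in Set.Ioi (1 : ℝ), Real.exp (-(κ ^ 2 * t)) = Real.exp (-κ ^ 2) / κ ^ 2 := by
  have h0 : -(κ ^ 2) < 0 := by
    have : 0 < κ ^ 2 := by positivity
    linarith
  have h := integral_exp_mul_Ioi (a := -(κ ^ 2)) h0 1
  have e : ∀ t : ℝ, Real.exp (-(κ ^ 2 * t)) = Real.exp (-(κ ^ 2) * t) := by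
    intro t; congr 1; ring
  simp_rw [e]
  rw [h, mul_one]
  field_simp

/-- the integrand is integrable for admissible functions -/
lemma Adm.integrable {f : ℝ → ℝ} (hf : Adm f) {κ : ℝ} (hκ : 0 < κ) :
    IntegrableOn (fun t => Real.exp (-(κ ^ 2 * t)) * f t / (4 * Real.pi * t ^ 2)) (Set.Ioi 0) := by
  have hm : Measurable fun t => Real.exp (-(κ ^ 2 * t)) * f t / (4 * Real.pi * t ^ 2) := by
    have := hf.meas
    fun_prop
  have hsplit : Set.Ioi (0 : ℝ) = Set.Ioc 0 1 ∪ Set.Ioi 1 := (Set.Ioc_union_Ioi_eq_Ioi zero_le_one).symm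
  rw [hsplit]
  refine IntegrableOn.union ?_ ?_
  · obtain ⟨C, c, hc, hC⟩ := hf.near
    refine Measure.integrableOn_of_bounded (M := |C| * (2 / c ^ 2)) ?_ hm.aestronglyMeasurable ?_
    · simp
    · refine (ae_restrict_iff' measurableSet_Ioc).2 (Eventually.of_forall fun t ht => ?_)
      have ht0 : 0 < t := ht.1
      rw [Real.norm_eq_abs, abs_div, abs_mul, abs_of_pos (Real.exp_pos _),
        abs_of_pos (show (0:ℝ) < 4 * Real.pi * t ^ 2 by positivity)]
      have h1 : Real.exp (-(κ ^ 2 * t)) ≤ 1 := Real.exp_le_one_iff.2 (by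
        have : 0 ≤ κ ^ 2 * t := by positivity
        linarith)
      have h2 := (hC t ht0 ht.2).trans (mul_le_mul_of_nonneg_right (le_abs_self C) (Real.exp_pos _).le)
      have h3 := absorb hc ht0
      have hpi : (1 : ℝ) ≤ 4 * Real.pi := by have := Real.pi_gt_three; linarith
      calc Real.exp (-(κ ^ 2 * t)) * |f t| / (4 * Real.pi * t ^ 2)
          ≤ 1 * (|C| * Real.exp (-(c / t))) / (1 * t ^ 2) := by
            gcongr
        _ = |C| * (Real.exp (-(c / t)) / t ^ 2) := by ring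
        _ ≤ |C| * (2 / c ^ 2) := by gcongr
  · obtain ⟨C, hC⟩ := hf.far
    refine Integrable.mono' ((far_int hκ).const_mul |C|) hm.aestronglyMeasurable ?_
    refine (ae_restrict_iff' measurableSet_Ioi).2 (Eventually.of_forall fun t ht => ?_)
    have ht1 : (1 : ℝ) < t := ht
    have ht0 : 0 < t := by linarith
    rw [Real.norm_eq_abs, abs_div, abs_mul, abs_of_pos (Real.exp_pos _),
      abs_of_pos (show (0:ℝ) < 4 * Real.pi * t ^ 2 by positivity)]
    have h2 := (hC t ht1.le).trans (mul_le_mul_of_nonneg_right (le_abs_self C) ht0.le)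
    have hpi : (1 : ℝ) ≤ 4 * Real.pi := by have := Real.pi_gt_three; linarith
    rw [div_le_iff₀ (by positivity)]
    have h4 : |C| * t ≤ |C| * (4 * Real.pi * t ^ 2) := by
      refine mul_le_mul_of_nonneg_left ?_ (abs_nonneg _)
      nlinarith only [ht1, hpi]
    calc Real.exp (-(κ ^ 2 * t)) * |f t| ≤ Real.exp (-(κ ^ 2 * t)) * (|C| * (4 * Real.pi * t ^ 2)) := by
          gcongr
          exact h2.trans h4
      _ = _ := by ring

lemma Adm.add {f g : ℝ → ℝ} (hf : Adm f) (hg : Adm g) : Adm fun t => f t + g t := by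
  refine ⟨hf.meas.add hg.meas, ?_, ?_⟩
  · obtain ⟨C, c, hc, hC⟩ := hf.near
    obtain ⟨C', c', hc', hC'⟩ := hg.near
    refine ⟨|C| + |C'|, min c c', lt_min hc hc', fun t ht ht1 => ?_⟩
    have h1 : Real.exp (-(c / t)) ≤ Real.exp (-(min c c' / t)) := by
      apply Real.exp_le_exp.2
      have := div_le_div_of_nonneg_right (min_le_left c c') ht.le
      linarith
    have h2 : Real.exp (-(c' / t)) ≤ Real.exp (-(min c c' / t)) := by
      apply Real.exp_le_exp.2
      have := div_le_div_of_nonneg_right (min_le_right c c') ht.le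
      linarith
    calc |f t + g t| ≤ |f t| + |g t| := abs_add_le _ _
      _ ≤ |C| * Real.exp (-(c / t)) + |C'| * Real.exp (-(c' / t)) := by
          refine add_le_add ((hC t ht ht1).trans ?_) ((hC' t ht ht1).trans ?_)
          · exact mul_le_mul_of_nonneg_right (le_abs_self _) (Real.exp_pos _).le
          · exact mul_le_mul_of_nonneg_right (le_abs_self _) (Real.exp_pos _).le
      _ ≤ |C| * Real.exp (-(min c c' / t)) + |C'| * Real.exp (-(min c c' / t)) := by
          gcongr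
      _ = _ := by ring
  · obtain ⟨C, hC⟩ := hf.far
    obtain ⟨C', hC'⟩ := hg.far
    refine ⟨C + C', fun t ht => ?_⟩
    calc |f t + g t| ≤ |f t| + |g t| := abs_add_le _ _
      _ ≤ C * t + C' * t := add_le_add (hC t ht) (hC' t ht)
      _ = _ := by ring

lemma Adm.const_mul {f : ℝ → ℝ} (hf : Adm f) (a : ℝ) : Adm fun t => a * f t := by
  refine ⟨hf.meas.const_mul a, ?_, ?_⟩
  · obtain ⟨C, c, hc, hC⟩ := hf.near
    refine ⟨|a| * C, c, hc, fun t ht ht1 => ?_⟩
    rw [abs_mul, mul_assoc]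
    exact mul_le_mul_of_nonneg_left (hC t ht ht1) (abs_nonneg _)
  · obtain ⟨C, hC⟩ := hf.far
    refine ⟨|a| * C, fun t ht => ?_⟩
    rw [abs_mul, mul_assoc]
    exact mul_le_mul_of_nonneg_left (hC t ht) (abs_nonneg _)

lemma Adm.neg {f : ℝ → ℝ} (hf : Adm f) : Adm fun t => -f t := by
  have := hf.const_mul (-1)
  simpa using this

lemma Adm.sub {f g : ℝ → ℝ} (hf : Adm f) (hg : Adm g) : Adm fun t => f t - g t := by
  have := hf.add hg.neg
  simpa [sub_eq_add_neg] using this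

lemma Adm.zero : Adm fun _ => (0 : ℝ) :=
  ⟨measurable_const, ⟨0, 1, one_pos, fun t _ _ => by simp⟩, ⟨0, fun t _ => by simp⟩⟩

lemma Adm.sum {ι : Type*} (s : Finset ι) (f : ι → ℝ → ℝ) (hf : ∀ i ∈ s, Adm (f i)) :
    Adm fun t => ∑ i ∈ s, f i t := by
  classical
  induction s using Finset.induction_on with
  | empty => simpa using Adm.zero
  | insert a s ha ih =>
    have h1 := hf a (Finset.mem_insert_self a s)
    have h2 := ih fun i hi => hf i (Finset.mem_insert_of_mem hi)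
    have := h1.add h2
    simpa [Finset.sum_insert ha] using this

lemma Lap_add {f g : ℝ → ℝ} (hf : Adm f) (hg : Adm g) {κ : ℝ} (hκ : 0 < κ) :
    Lap (fun t => f t + g t) κ = Lap f κ + Lap g κ := by
  unfold Lap
  rw [← integral_add (hf.integrable hκ) (hg.integrable hκ)]
  refine integral_congr_ae (Eventually.of_forall fun t => ?_)
  simp only
  ring

lemma Lap_sub {f g : ℝ → ℝ} (hf : Adm f) (hg : Adm g) {κ : ℝ} (hκ : 0 < κ) :
    Lap (fun t => f t - g t) κ = Lap f κ - Lap g κ := by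
  unfold Lap
  rw [← integral_sub (hf.integrable hκ) (hg.integrable hκ)]
  refine integral_congr_ae (Eventually.of_forall fun t => ?_)
  simp only
  ring

lemma Lap_zero (κ : ℝ) : Lap (fun _ => (0 : ℝ)) κ = 0 := by
  unfold Lap; simp

lemma Lap_sum {ι : Type*} (s : Finset ι) (f : ι → ℝ → ℝ) (hf : ∀ i ∈ s, Adm (f i)) {κ : ℝ}
    (hκ : 0 < κ) : Lap (fun t => ∑ i ∈ s, f i t) κ = ∑ i ∈ s, Lap (f i) κ := by
  classical
  induction s using Finset.induction_on with
  | empty => simpa using Lap_zero κ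
  | insert a s ha ih =>
    have h1 := hf a (Finset.mem_insert_self a s)
    have h3 : ∀ i ∈ s, Adm (f i) := fun i hi => hf i (Finset.mem_insert_of_mem hi)
    have h2 := Adm.sum s f h3
    rw [Finset.sum_insert ha, ← ih h3, ← Lap_add h1 h2 hκ]
    congr 1
    funext t
    rw [Finset.sum_insert ha]

lemma Lap_congr {f g : ℝ → ℝ} (h : ∀ t, 0 < t → f t = g t) (κ : ℝ) : Lap f κ = Lap g κ := by
  unfold Lap
  refine setIntegral_congr_fun measurableSet_Ioi ?_
  intro t ht
  simp only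
  rw [h t ht]

/-- the main bound: a function of size `exp(-(1-ε) A²/(4t))` for small times has a small
transform -/
theorem Lap_small {f : ℝ → ℝ} {L A : ℝ} (hL : 0 ≤ L) (hA : L < A)
    (near : ∀ ε : ℝ, 0 < ε → ε < 1 → ∃ C : ℝ, ∀ t, 0 < t → t ≤ 1 →
      |f t| ≤ C * Real.exp (-((1 - ε) * A ^ 2 / (4 * t))))
    (far : ∃ C : ℝ, ∀ t, 1 ≤ t → |f t| ≤ C * t) : Small L (Lap f) := by
  -- intermediate exponents
  obtain ⟨B, hB⟩ : ∃ B, B = (L + A) / 2 := ⟨_, rfl⟩
  have hLB : L < B := by rw [hB]; linarith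
  have hBA : B < A := by rw [hB]; linarith
  have hB0 : 0 < B := lt_of_le_of_lt hL hLB
  have hA0 : 0 < A := hB0.trans hBA
  -- `(1-ε) A² = B² + 4 e` with `e > 0`
  obtain ⟨ε, hε⟩ : ∃ ε, ε = (A ^ 2 - B ^ 2) / (2 * A ^ 2) := ⟨_, rfl⟩
  have hAB : B ^ 2 < A ^ 2 := by nlinarith only [hL, hB, hLB]
  have hε0 : 0 < ε := by rw [hε]; apply div_pos; linarith; positivity
  have hε1 : ε < 1 := by
    rw [hε, div_lt_one (by positivity)]
    nlinarith [sq_nonneg B]
  obtain ⟨e, he⟩ : ∃ e, e = (A ^ 2 - B ^ 2) / 8 := ⟨_, rfl⟩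
  have he0 : 0 < e := by rw [he]; linarith only [hAB]
  have hkey : (1 - ε) * A ^ 2 = B ^ 2 + 4 * e := by
    rw [hε, he]; field_simp; ring
  obtain ⟨C, hC⟩ := near ε hε0 hε1
  obtain ⟨C', hC'⟩ := far
  refine ⟨|C| * (2 / e ^ 2) + |C'|, B - L, by linarith, ?_⟩
  filter_upwards [eventually_ge_atTop (max 1 B)] with κ hκ
  have hκ1 : 1 ≤ κ := (le_max_left _ _).trans hκ
  have hκB : B ≤ κ := (le_max_right _ _).trans hκ
  have hκ0 : 0 < κ := by linarith
  rw [show L + (B - L) = B by ring]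
  -- dominating function
  have hdom : ∀ t ∈ Set.Ioi (0:ℝ), ‖Real.exp (-(κ ^ 2 * t)) * f t / (4 * Real.pi * t ^ 2)‖ ≤
      (Set.Ioc (0:ℝ) 1).indicator (fun _ => |C| * (2 / e ^ 2) * Real.exp (-(B * κ))) t +
      (Set.Ioi (1:ℝ)).indicator (fun t => |C'| * Real.exp (-(κ ^ 2 * t))) t := by
    intro t ht
    have ht0 : (0:ℝ) < t := ht
    have hpi : (1 : ℝ) ≤ 4 * Real.pi := by have := Real.pi_gt_three; linarith
    rw [Real.norm_eq_abs, abs_div, abs_mul, abs_of_pos (Real.exp_pos _),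
      abs_of_pos (show (0:ℝ) < 4 * Real.pi * t ^ 2 by positivity)]
    by_cases ht1 : t ≤ 1
    · rw [Set.indicator_of_mem (show t ∈ Set.Ioc (0:ℝ) 1 from ⟨ht0, ht1⟩),
        Set.indicator_of_notMem (show t ∉ Set.Ioi (1:ℝ) from not_lt.2 ht1), add_zero]
      have h2 := (hC t ht0 ht1).trans
        (mul_le_mul_of_nonneg_right (le_abs_self C) (Real.exp_pos _).le)
      have h3 := absorb he0 ht0
      have h4 : Real.exp (-(κ ^ 2 * t)) * Real.exp (-((1 - ε) * A ^ 2 / (4 * t)))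
          ≤ Real.exp (-(B * κ)) * Real.exp (-(e / t)) := by
        rw [← Real.exp_add, ← Real.exp_add]
        apply Real.exp_le_exp.2
        rw [hkey]
        have h5 := amgm (κ := κ) (B := B) ht0
        have h6 : (B ^ 2 + 4 * e) / (4 * t) = B ^ 2 / (4 * t) + e / t := by field_simp
        rw [h6]
        linarith
      calc Real.exp (-(κ ^ 2 * t)) * |f t| / (4 * Real.pi * t ^ 2)
          ≤ Real.exp (-(κ ^ 2 * t)) * (|C| * Real.exp (-((1 - ε) * A ^ 2 / (4 * t)))) / (1 * t ^ 2) := by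
            gcongr
        _ = |C| * (Real.exp (-(κ ^ 2 * t)) * Real.exp (-((1 - ε) * A ^ 2 / (4 * t)))) / t ^ 2 := by
            ring
        _ ≤ |C| * (Real.exp (-(B * κ)) * Real.exp (-(e / t))) / t ^ 2 := by gcongr
        _ = |C| * Real.exp (-(B * κ)) * (Real.exp (-(e / t)) / t ^ 2) := by ring
        _ ≤ |C| * Real.exp (-(B * κ)) * (2 / e ^ 2) := by gcongr
        _ = _ := by ring
    · push Not at ht1
      rw [Set.indicator_of_notMem (show t ∉ Set.Ioc (0:ℝ) 1 from fun h => absurd h.2 (not_le.2 ht1)),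
        Set.indicator_of_mem (show t ∈ Set.Ioi (1:ℝ) from ht1), zero_add]
      have h2 := (hC' t ht1.le).trans (mul_le_mul_of_nonneg_right (le_abs_self C') ht0.le)
      rw [div_le_iff₀ (by positivity)]
      have h4 : |C'| * t ≤ |C'| * (4 * Real.pi * t ^ 2) := by
        refine mul_le_mul_of_nonneg_left ?_ (abs_nonneg _)
        nlinarith only [hpi, ht1]
      calc Real.exp (-(κ ^ 2 * t)) * |f t|
          ≤ Real.exp (-(κ ^ 2 * t)) * (|C'| * (4 * Real.pi * t ^ 2)) := by
            gcongr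
            exact h2.trans h4
        _ = _ := by ring
  have hint1 : Integrable ((Set.Ioc (0:ℝ) 1).indicator
      fun _ => |C| * (2 / e ^ 2) * Real.exp (-(B * κ))) := by
    rw [integrable_indicator_iff measurableSet_Ioc]
    exact integrableOn_const (by simp)
  have hint2 : Integrable ((Set.Ioi (1:ℝ)).indicator fun t => |C'| * Real.exp (-(κ ^ 2 * t))) := by
    rw [integrable_indicator_iff measurableSet_Ioi]
    exact (far_int hκ0).const_mul _
  have hb : ‖Lap f κ‖ ≤ ∫ t in Set.Ioi (0:ℝ), ((Set.Ioc (0:ℝ) 1).indicator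
      (fun _ => |C| * (2 / e ^ 2) * Real.exp (-(B * κ))) t +
      (Set.Ioi (1:ℝ)).indicator (fun t => |C'| * Real.exp (-(κ ^ 2 * t))) t) := by
    unfold Lap
    exact norm_integral_le_of_norm_le (hint1.add hint2).integrableOn
      ((ae_restrict_iff' measurableSet_Ioi).2 (Eventually.of_forall hdom))
  have e1 : ∫ t in Set.Ioi (0:ℝ), ((Set.Ioc (0:ℝ) 1).indicator
      (fun _ => |C| * (2 / e ^ 2) * Real.exp (-(B * κ))) t +
      (Set.Ioi (1:ℝ)).indicator (fun t => |C'| * Real.exp (-(κ ^ 2 * t))) t)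
      = |C| * (2 / e ^ 2) * Real.exp (-(B * κ)) + |C'| * (Real.exp (-κ ^ 2) / κ ^ 2) := by
    rw [integral_add hint1.integrableOn hint2.integrableOn]
    congr 1
    · rw [setIntegral_indicator measurableSet_Ioc]
      have : Set.Ioi (0:ℝ) ∩ Set.Ioc 0 1 = Set.Ioc 0 1 := by
        ext x; simp only [Set.mem_inter_iff, Set.mem_Ioi, Set.mem_Ioc]; tauto
      rw [this, setIntegral_const]
      simp
    · rw [setIntegral_indicator measurableSet_Ioi]
      have : Set.Ioi (0:ℝ) ∩ Set.Ioi 1 = Set.Ioi 1 := by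
        ext x; simp only [Set.mem_inter_iff, Set.mem_Ioi]
        constructor
        · exact fun h => h.2
        · exact fun h => ⟨by linarith, h⟩
      rw [this, integral_const_mul, far_int_eq hκ0]
  rw [e1, Real.norm_eq_abs] at hb
  refine hb.trans ?_
  have h7 : Real.exp (-κ ^ 2) / κ ^ 2 ≤ Real.exp (-(B * κ)) := by
    have h8 : Real.exp (-κ ^ 2) ≤ Real.exp (-(B * κ)) := by
      apply Real.exp_le_exp.2
      nlinarith only [hκB, hκ1]
    have h9 : (1:ℝ) ≤ κ ^ 2 := by nlinarith only [hκ1]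
    calc Real.exp (-κ ^ 2) / κ ^ 2 ≤ Real.exp (-κ ^ 2) / 1 := by gcongr
      _ = Real.exp (-κ ^ 2) := div_one _
      _ ≤ _ := h8
  calc |C| * (2 / e ^ 2) * Real.exp (-(B * κ)) + |C'| * (Real.exp (-κ ^ 2) / κ ^ 2)
      ≤ |C| * (2 / e ^ 2) * Real.exp (-(B * κ)) + |C'| * Real.exp (-(B * κ)) := by gcongr
    _ = _ := by ring

/-! ### calculus of `Small` -/

lemma small_congr {L : ℝ} {f g : ℝ → ℝ} (h : Small L f) (e : ∀ᶠ κ in atTop, g κ = f κ) :
    Small L g := by
  obtain ⟨C, δ, hδ, hC⟩ := h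
  refine ⟨C, δ, hδ, ?_⟩
  filter_upwards [hC, e] with κ h1 h2
  rw [h2]; exact h1

lemma small_add {L : ℝ} {f g : ℝ → ℝ} (hf : Small L f) (hg : Small L g) :
    Small L fun κ => f κ + g κ := by
  obtain ⟨C, δ, hδ, hC⟩ := hf
  obtain ⟨C', δ', hδ', hC'⟩ := hg
  refine ⟨|C| + |C'|, min δ δ', lt_min hδ hδ', ?_⟩
  filter_upwards [hC, hC', eventually_ge_atTop 0] with κ h1 h2 h0
  have k1 : Real.exp (-((L + δ) * κ)) ≤ Real.exp (-((L + min δ δ') * κ)) := by
    apply Real.exp_le_exp.2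
    have := mul_le_mul_of_nonneg_right (min_le_left δ δ') h0
    nlinarith
  have k2 : Real.exp (-((L + δ') * κ)) ≤ Real.exp (-((L + min δ δ') * κ)) := by
    apply Real.exp_le_exp.2
    have := mul_le_mul_of_nonneg_right (min_le_right δ δ') h0
    linarith only [this]
  calc |f κ + g κ| ≤ |f κ| + |g κ| := abs_add_le _ _
    _ ≤ |C| * Real.exp (-((L + δ) * κ)) + |C'| * Real.exp (-((L + δ') * κ)) := by
        refine add_le_add (h1.trans ?_) (h2.trans ?_)
        · exact mul_le_mul_of_nonneg_right (le_abs_self _) (Real.exp_pos _).le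
        · exact mul_le_mul_of_nonneg_right (le_abs_self _) (Real.exp_pos _).le
    _ ≤ |C| * Real.exp (-((L + min δ δ') * κ)) + |C'| * Real.exp (-((L + min δ δ') * κ)) := by
        gcongr
    _ = _ := by ring

lemma small_neg {L : ℝ} {f : ℝ → ℝ} (hf : Small L f) : Small L fun κ => -f κ := by
  obtain ⟨C, δ, hδ, hC⟩ := hf
  refine ⟨C, δ, hδ, ?_⟩
  filter_upwards [hC] with κ h1
  rw [abs_neg]; exact h1

lemma small_sub {L : ℝ} {f g : ℝ → ℝ} (hf : Small L f) (hg : Small L g) :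
    Small L fun κ => f κ - g κ := by
  have := small_add hf (small_neg hg)
  simpa [sub_eq_add_neg] using this

lemma small_zero (L : ℝ) : Small L fun _ => 0 :=
  ⟨0, 1, one_pos, by simp⟩

lemma small_sum {L : ℝ} {ι : Type*} (s : Finset ι) (f : ι → ℝ → ℝ)
    (hf : ∀ i ∈ s, Small L (f i)) : Small L fun κ => ∑ i ∈ s, f i κ := by
  classical
  induction s using Finset.induction_on with
  | empty => simpa using small_zero L
  | insert a s ha ih =>
    have h1 := hf a (Finset.mem_insert_self a s)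
    have h2 := ih fun i hi => hf i (Finset.mem_insert_of_mem hi)
    have := small_add h1 h2
    simpa [Finset.sum_insert ha] using this

end Pool.Agent.AEU.H35
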