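import Pool.Agent.Helper35_AEU.Main
import Pool.Agent.Helper96_AEU.DeathP
import Pool.Agent.Helper25_AEU.Final

/-! AEU: the theorem, from the germs -/

set_option autoImplicit false

namespace Pool.Agent.AEU.H35

open MeasureTheory Complex Filter Topology Pool.Agent.H16Iso
open Pool.Agent.AEU
open Pool.Agent.H1Gen (CCW poly)

/-- the first part, from the germs -/
theorem main_germ (hA : GermAStmt) (hB : GermBStmt) (hB' : GermB'Stmt) (hD : GermDStmt)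
    {n : ℕ} (hn : 3 ≤ n) :
    ∃ G : Set (Fin n → ℂ), IsOpen G ∧ (∀ v ∈ G, CCW v) ∧ (∀ᵐ v : Fin n → ℂ, CCW v → v ∈ G) ∧
      ∀ v ∈ G, ∃ N : ℕ, ∀ m : ℕ, 3 ≤ m → m ≤ n → ∀ w : Fin m → ℂ, CCW w →
        (∀ k < N, dirEig (poly w) k = dirEig (poly v) k) →
        m = n ∧ Congruent (poly w) (poly v) :=
  main_of hA hB hB' hD H96.death H25.geo_final hn

/-- the second part, from the germs: almost all convex polygons are distinguished from each other by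
their spectra -/
theorem main_germ2 (hA : GermAStmt) (hB : GermBStmt) (hB' : GermB'Stmt) (hD : GermDStmt) :
    ∃ G : (n : ℕ) → Set (Fin n → ℂ), (∀ n, ∀ v ∈ G n, 3 ≤ n ∧ CCW v) ∧
      (∀ n, 3 ≤ n → ∀ᵐ v : Fin n → ℂ, CCW v → v ∈ G n) ∧
      ∀ (n m : ℕ) (v : Fin n → ℂ) (w : Fin m → ℂ), v ∈ G n → w ∈ G m →
        (∀ k, dirEig (poly v) k = dirEig (poly w) k) → n = m ∧ Congruent (poly v) (poly w) := by
  refine ⟨fun n => {v | 3 ≤ n ∧ ∀ h : NeZero n, GG v}, ?_, fun n hn => ?_, ?_⟩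
  · rintro n v ⟨hn, hv⟩
    have hz : NeZero n := ⟨by omega⟩
    exact ⟨hn, (hv hz).ccw⟩
  · have hz : NeZero n := ⟨by omega⟩
    filter_upwards [ae_GG (n := n) hn] with v hv hc
    exact ⟨hn, fun _ => hv hc⟩
  · rintro n m v w ⟨hn, hv⟩ ⟨hm, hw⟩ hiso
    have hz : NeZero n := ⟨by omega⟩
    have hz' : NeZero m := ⟨by omega⟩
    exact pair_of hA hB hB' hD (H62.expect H96.death) H25.geo_final hn hm (hv hz) (hw hz') hiso

/-- everything, from the germs: almost every convex polygon is determined by its spectrum, among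
the convex polygons with at most as many vertices (where finitely many eigenvalues suffice) and
among almost all convex polygons with any number of vertices -/
theorem main_one (hA : GermAStmt) (hB : GermBStmt) (hB' : GermB'Stmt) (hD : GermDStmt) :
    ∃ G : (n : ℕ) → Set (Fin n → ℂ),
      (∀ n : ℕ, 3 ≤ n → (∀ v ∈ G n, CCW v) ∧ ∀ᵐ v : Fin n → ℂ, CCW v → v ∈ G n) ∧
      ∀ n : ℕ, 3 ≤ n → ∀ v ∈ G n, ∃ N : ℕ, ∀ m : ℕ, 3 ≤ m → ∀ w : Fin m → ℂ, CCW w →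
        ((m ≤ n ∧ ∀ k < N, dirEig (poly w) k = dirEig (poly v) k) ∨
          (w ∈ G m ∧ ∀ k, dirEig (poly w) k = dirEig (poly v) k)) →
        m = n ∧ Congruent (poly w) (poly v) := by
  have h1 : ∀ n : ℕ, ∃ G : Set (Fin n → ℂ), 3 ≤ n → (∀ v ∈ G, CCW v) ∧
      (∀ᵐ v : Fin n → ℂ, CCW v → v ∈ G) ∧
      ∀ v ∈ G, ∃ N : ℕ, ∀ m : ℕ, 3 ≤ m → m ≤ n → ∀ w : Fin m → ℂ, CCW w →
        (∀ k < N, dirEig (poly w) k = dirEig (poly v) k) →
        m = n ∧ Congruent (poly w) (poly v) := by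
    intro n
    by_cases hn : 3 ≤ n
    · obtain ⟨G, -, g2, g3, g4⟩ := main_germ hA hB hB' hD hn
      exact ⟨G, fun _ => ⟨g2, g3, g4⟩⟩
    · exact ⟨∅, fun h => absurd h hn⟩
  choose G1 hG1 using h1
  obtain ⟨G2, a1, a2, a3⟩ := main_germ2 hA hB hB' hD
  refine ⟨fun n => G1 n ∩ G2 n, fun n hn => ⟨fun v hv => (hG1 n hn).1 v hv.1, ?_⟩, ?_⟩
  · filter_upwards [(hG1 n hn).2.1, a2 n hn] with v h1 h2 h3
    exact ⟨h1 h3, h2 h3⟩
  · rintro n hn v ⟨hv1, hv2⟩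
    obtain ⟨N, hN⟩ := (hG1 n hn).2.2 v hv1
    refine ⟨N, ?_⟩
    rintro m hm w hw (⟨hmn, hk⟩ | ⟨hwG, hk⟩)
    · exact hN m hm hmn w hw hk
    · exact a3 m n w v hwG.2 hv2 hk

end Pool.Agent.AEU.H35
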