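import Pool.Agent.Helper35_AEU.Pair
import Pool.Agent.Helper62_AEU.Exp
import Pool.Agent.Helper62_AEU.LD
import Pool.Agent.Helper1_AEU.NLift
import Pool.Agent.Helper8_AEU.TieV
import Pool.Agent.Helper29_AEU.GencFinal
import Pool.Agent.Helper41_AEU.Finn
import Pool.Agent.Helper85_TRI.DN
import Pool.Agent.Helper62_TRI.MainOf

/-! AEU: the assembly -/

set_option autoImplicit false

namespace Pool.Agent.AEU.H35

open MeasureTheory Complex Filter Topology ProbabilityTheory Pool.Agent.H16Iso Pool.Agent.H62T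
open Pool.Agent.AEU
open Pool.Agent.H62T.H85 (nrm off CC)
open Pool.Agent.H1Gen (CCW poly)

theorem ldStmt : LDStmt := fun ε h0 h1 => AEU62.ld ε h0 h1

/-! ### isometries -/

lemma iso_apply (g : Iso2) (x : ℂ) : g x = g.linearIsometryEquiv x + g 0 := by
  have h := g.map_vadd 0 x
  rw [vadd_eq_add, vadd_eq_add, add_zero] at h
  exact h

lemma mem_mv (g : Iso2) (s : HP) (x : ℂ) : ip (mv g s).1 (g x) < (mv g s).2 ↔ ip s.1 x < s.2 := by
  show ip (g.linearIsometryEquiv s.1) (g x) <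
    s.2 + ip (g.linearIsometryEquiv s.1) (g 0) ↔ ip s.1 x < s.2
  rw [iso_apply g x, ip_add_r, ip_iso]
  constructor <;> intro h <;> linarith

lemma opn_mv {P Q : Finset HP} {g : Iso2} (h : P.image (mv g) = Q) : g '' opn P = opn Q := by
  classical
  have key : ∀ x, g x ∈ opn Q ↔ x ∈ opn P := by
    intro x
    constructor
    · intro hx s hs
      have h1 : mv g s ∈ Q := by rw [← h]; exact Finset.mem_image_of_mem _ hs
      exact (mem_mv g s x).1 (hx _ h1)
    · intro hx s hs
      rw [← h] at hs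
      obtain ⟨t, ht, rfl⟩ := Finset.mem_image.1 hs
      exact (mem_mv g t x).2 (hx t ht)
  ext y
  constructor
  · rintro ⟨x, hx, rfl⟩
    exact (key x).2 hx
  · intro hy
    refine ⟨g.symm y, (key _).1 ?_, g.apply_symm_apply y⟩
    rw [g.apply_symm_apply]
    exact hy

/-! ### sides of polygons -/

section

variable {n : ℕ} [NeZero n]

omit [NeZero n] in
lemma opn_sides (u : Fin n → ℂ) (H : Fin n → ℝ) : opn (sides u H) = H62T.Poly u H := by
  ext x
  unfold opn sides H62T.Poly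
  simp only [Finset.mem_image, Finset.mem_univ, true_and, Set.mem_ofPred_eq, forall_exists_index,
    forall_apply_eq_imp_iff]

lemma opn_poly (hn : 3 ≤ n) {v : Fin n → ℂ} (hv : CCW v) :
    opn (sides (nrm v) (off v)) = poly v := by
  rw [opn_sides]
  exact (H85.poly_eq hn hv).symm

lemma side_inj (hn : 3 ≤ n) {v : Fin n → ℂ} (hv : CCW v) :
    Function.Injective fun i => ((nrm v i, off v i) : HP) := by
  intro i j hij
  have h1 : nrm v i = nrm v j := congrArg Prod.fst hij
  have h2 : off v i = off v j := congrArg Prod.snd hij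
  by_contra hne
  have hv' : CC v := hv
  -- the vertices `j`, `j + 1` are on the side `i`
  have on1 : j = i ∨ j = i + 1 := by
    by_contra hcon
    push Not at hcon
    have := H85.lt_off hn hv' hcon.1 hcon.2
    rw [h1, h2] at this
    exact lt_irrefl _ this
  have on2 : j + 1 = i ∨ j + 1 = i + 1 := by
    by_contra hcon
    push Not at hcon
    have h3 := H85.lt_off hn hv' hcon.1 hcon.2
    rw [h1, h2, H85.off_succ] at h3
    exact lt_irrefl _ h3
  rcases on1 with h3 | h3
  · exact hne h3.symm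
  rcases on2 with h4 | h4
  · rw [h3] at h4
    exact (H85.succ_ne hn i).2 h4
  · exact hne (add_right_cancel h4).symm

lemma card_sides (hn : 3 ≤ n) {v : Fin n → ℂ} (hv : CCW v) :
    (sides (nrm v) (off v)).card = n := by
  classical
  unfold sides
  rw [Finset.card_image_of_injective _ (side_inj hn hv), Finset.card_univ, Fintype.card_fin]

/-- generic polygons without ties -/
structure GG (v : Fin n → ℂ) : Prop where
  ccw : CCW v
  gen : Gen (sides (nrm v) (off v))
  tie : ∀ᵐ ω ∂PP, NoTie (sides (nrm v) (off v)) (hs ω)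

lemma ae_GG (hn : 3 ≤ n) : ∀ᵐ v : Fin n → ℂ, CCW v → GG v := by
  filter_upwards [H29.gencThm n hn, H8.tieV hn] with v h1 h2 h3
  exact ⟨h3, h1 h3, h2 h3⟩

end

/-! ### triangles -/

lemma not_collinear {a b c : ℂ} (h : 0 < H1Gen.det (b - a) (c - a)) : ¬ Collinear ℝ {a, b, c} := by
  intro hc
  rw [collinear_iff_of_mem (p₀ := a) (by simp)] at hc
  obtain ⟨v, hv⟩ := hc
  obtain ⟨r, hr⟩ := hv b (by simp)
  obtain ⟨s, hs⟩ := hv c (by simp)
  rw [hr, hs, vadd_eq_add, vadd_eq_add, add_sub_cancel_right, add_sub_cancel_right] at h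
  unfold H1Gen.det at h
  simp only [Complex.real_smul, Complex.mul_re, Complex.mul_im, Complex.ofReal_re,
    Complex.ofReal_im] at h
  nlinarith

lemma range3 (v : Fin 3 → ℂ) : Set.range v = {v 0, v 1, v 2} := by
  ext z
  simp only [Set.mem_range, Set.mem_insert_iff, Set.mem_singleton_iff]
  constructor
  · rintro ⟨i, rfl⟩
    fin_cases i <;> simp
  · rintro (rfl | rfl | rfl)
    · exact ⟨0, rfl⟩
    · exact ⟨1, rfl⟩
    · exact ⟨2, rfl⟩

lemma uq3 (v : Fin 3 → ℂ) (hv : CCW v) : H41.Uq v := by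
  classical
  intro m h3 hm w hw hiso
  obtain rfl : m = 3 := by omega
  refine ⟨rfl, ?_⟩
  have e : ∀ u : Fin 3 → ℂ, poly u = interior (convexHull ℝ {u 0, u 1, u 2}) := fun u => by
    unfold poly; rw [range3]
  have hc : ∀ u : Fin 3 → ℂ, CCW u → ¬ Collinear ℝ {u 0, u 1, u 2} := fun u hu =>
    not_collinear (hu 0 1 2 (by decide) (by decide))
  refine H62T.main_of H85.dn _ _ ⟨w 0, w 1, w 2, hc w hw, e w⟩ ⟨{v 0, v 1, v 2}, ?_, ?_⟩ hiso
  · have := hc v hv
    simpa using this
  · rw [e v]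
    simp

/-! ### the theorem -/

/-- almost every convex polygon is determined by its spectrum among the convex polygons with at
most as many vertices -/
theorem uq_of (hA : GermAStmt) (hB : GermBStmt) (hB' : GermB'Stmt) (hD : GermDStmt)
    (hE : ExpectStmt) (hG : GeoStatement) {n : ℕ} (hn : 3 ≤ n) :
    ∀ᵐ v : Fin n → ℂ, CCW v → H41.Uq v := by
  obtain ⟨k, rfl⟩ : ∃ k, n = k + 3 := ⟨n - 3, by omega⟩
  rcases Nat.eq_zero_or_pos k with rfl | hk
  · exact Eventually.of_forall fun v hv => uq3 v hv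
  filter_upwards [H1.nlift (k + 3) hn GG (ae_GG hn)] with v hv hccw
  obtain ⟨gv, hl⟩ := hv hccw
  intro m h3 hm w hw hiso
  obtain ⟨rfl, a, u, hu, gw⟩ := hl m h3 hm w hw hiso
  refine ⟨rfl, ?_⟩
  have ecast : (fun i => a + u * w (Fin.cast rfl i)) = fun i => a + u * w i := rfl
  rw [ecast] at gw
  obtain ⟨w', hw'⟩ : ∃ w' : Fin (k + 3) → ℂ, w' = fun i => a + u * w i := ⟨_, rfl⟩
  rw [← hw'] at gw
  have h4 : 4 ≤ (sides (nrm v) (off v)).card := by
    rw [card_sides hn gv.ccw]; omega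
  obtain ⟨g, hg⟩ := pair ldStmt hA hB hB' hD hE hG gv.gen gw.gen h4 gv.tie gw.tie (fun j => by
    rw [opn_poly hn gv.ccw, opn_poly hn gw.ccw, hw', H1.dirEig_copy w a hu, hiso])
  have h5 := opn_mv hg
  rw [opn_poly hn gv.ccw, opn_poly hn gw.ccw] at h5
  obtain ⟨g1, hg1⟩ := H1.congruent_copy w a hu
  rw [← hw', ← h5] at hg1
  refine ⟨g1.trans g.toIsometryEquiv.symm, ?_⟩
  have e1 : (g1.trans g.toIsometryEquiv.symm : ℂ → ℂ) '' poly w
      = g.toIsometryEquiv.symm '' (g1 '' poly w) := by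
    rw [← Set.image_comp]; rfl
  rw [e1, hg1, ← Set.image_comp]
  have e2 : (g.toIsometryEquiv.symm : ℂ → ℂ) ∘ (g : ℂ → ℂ) = id := by
    funext x
    exact g.toIsometryEquiv.symm_apply_apply x
  rw [e2, Set.image_id]

/-- generic polygons are distinguished from each other by the spectrum, whatever the numbers of
their vertices -/
theorem pair_of (hA : GermAStmt) (hB : GermBStmt) (hB' : GermB'Stmt) (hD : GermDStmt)
    (hE : ExpectStmt) (hG : GeoStatement) {n m : ℕ} [NeZero n] [NeZero m] (hn : 3 ≤ n)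
    (hm : 3 ≤ m) {v : Fin n → ℂ} {w : Fin m → ℂ} (gv : GG v) (gw : GG w)
    (hiso : ∀ k, dirEig (poly v) k = dirEig (poly w) k) : n = m ∧ Congruent (poly v) (poly w) := by
  classical
  have key : ∀ {n m : ℕ} [NeZero n] [NeZero m], 3 ≤ n → 3 ≤ m → ∀ {v : Fin n → ℂ} {w : Fin m → ℂ},
      GG v → GG w → (∀ k, dirEig (poly v) k = dirEig (poly w) k) → 4 ≤ n →
      n = m ∧ ∃ g : Iso2, g '' poly v = poly w := by
    intro n m _ _ hn hm v w gv gw hiso h4
    obtain ⟨g, hg⟩ := pair ldStmt hA hB hB' hD hE hG gv.gen gw.gen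
      (by rw [card_sides hn gv.ccw]; exact h4) gv.tie gw.tie (fun j => by
        rw [opn_poly hn gv.ccw, opn_poly hm gw.ccw, hiso])
    have h5 := opn_mv hg
    rw [opn_poly hn gv.ccw, opn_poly hm gw.ccw] at h5
    refine ⟨?_, g, h5⟩
    have h6 := congrArg Finset.card hg
    rw [Finset.card_image_of_injective _ (mv_inj g), card_sides hn gv.ccw,
      card_sides hm gw.ccw] at h6
    exact h6
  rcases Nat.lt_or_ge n 4 with h | h
  · rcases Nat.lt_or_ge m 4 with h' | h'
    · obtain rfl : n = 3 := by omega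
      obtain rfl : m = 3 := by omega
      exact uq3 w gw.ccw 3 le_rfl le_rfl v gv.ccw hiso
    · have := (key hm hn gw gv (fun k => (hiso k).symm) h').1
      omega
  · obtain ⟨h1, g, hg⟩ := key hn hm gv gw hiso h
    exact ⟨h1, g.toIsometryEquiv, hg⟩

/-- the final theorem, from the parts which are not finished -/
theorem main_of (hA : GermAStmt) (hB : GermBStmt) (hB' : GermB'Stmt) (hD : GermDStmt)
    (hDeath : DeathStmt) (hG : GeoStatement) {n : ℕ} (hn : 3 ≤ n) :
    ∃ G : Set (Fin n → ℂ), IsOpen G ∧ (∀ v ∈ G, CCW v) ∧ (∀ᵐ v : Fin n → ℂ, CCW v → v ∈ G) ∧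
      ∀ v ∈ G, ∃ N : ℕ, ∀ m : ℕ, 3 ≤ m → m ≤ n → ∀ w : Fin m → ℂ, CCW w →
        (∀ k < N, dirEig (poly w) k = dirEig (poly v) k) →
        m = n ∧ Congruent (poly w) (poly v) :=
  H41.finn hn (uq_of hA hB hB' hD (H62.expect hDeath) hG hn)

end Pool.Agent.AEU.H35
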