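import Pool.Agent.Helper35_AEU.Geo

/-! AEU: the sum over the new triples is a sum of Fagnano germs and the germ of the item -/

set_option autoImplicit false

namespace Pool.Agent.AEU.H35

open MeasureTheory Complex Filter Topology ProbabilityTheory Pool.Agent.H16Iso Pool.Agent.H62T
open Pool.Agent.AEU

open Classical in
/-- the old ghosts -/
noncomputable def FF (N : Finset (Finset HP)) (L : ℝ) : Finset (Finset HP) :=
  N.filter fun S => Acute S ∧ ell S < L

open Classical in
/-- the old ghosts as a finite set of lengths -/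
noncomputable def OF (N : Finset (Finset HP)) (L : ℝ) : Finset ℝ := (FF N L).image ell

lemma mem_FF {N : Finset (Finset HP)} {L : ℝ} {S : Finset HP} :
    S ∈ FF N L ↔ S ∈ N ∧ Acute S ∧ ell S < L := by
  classical
  unfold FF
  rw [Finset.mem_filter]

lemma mem_OF {N : Finset (Finset HP)} {L l : ℝ} : l ∈ OF N L ↔ l ∈ OldSet N L := by
  classical
  unfold OF OldSet
  simp only [Finset.mem_image, mem_FF, Set.mem_ofPred_eq]
  constructor
  · rintro ⟨S, ⟨h1, h2, h3⟩, h4⟩
    exact ⟨S, h1, h2, h3, h4⟩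
  · rintro ⟨S, h1, h2, h3, h4⟩
    exact ⟨S, ⟨h1, h2, h3⟩, h4⟩

lemma OF_congr {N N' : Finset (Finset HP)} {L : ℝ} (h : OldSet N L = OldSet N' L) :
    OF N L = OF N' L := by
  ext l
  rw [mem_OF, mem_OF, h]

lemma sum_OF {N : Finset (Finset HP)} {L : ℝ}
    (hinj : ∀ S ∈ N, ∀ T ∈ N, Acute S → Acute T → ell S = ell T → S = T) (f : ℝ → ℝ) :
    ∑ l ∈ OF N L, f l = ∑ S ∈ FF N L, f (ell S) := by
  classical
  unfold OF
  rw [Finset.sum_image]
  intro S hS T hT h
  have h1 := mem_FF.1 hS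
  have h2 := mem_FF.1 hT
  exact hinj S h1.1 T h2.1 h1.2.1 h2.2.1 h

lemma not_acute {i j k : HP} (hij : i ≠ j) (h : 0 < ip i.1 j.1) : ¬ Acute {i, j, k} := fun ha => by
  have := ha i (by simp) j (by simp) hij
  linarith

theorem sum_N (hA : GermAStmt) (hB : GermBStmt) (hB' : GermB'Stmt) (hD : GermDStmt)
    {N : Finset (Finset HP)} {L : ℝ} (hL : 0 < L) {it : Item} (hit : HasItem N L it)
    (hd : ∀ S ∈ N, DistA S)
    (hinj : ∀ S ∈ N, ∀ T ∈ N, Acute S → Acute T → ell S = ell T → S = T) :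
    ∃ f, ItG L it f ∧ Small L fun κ => ∑ S ∈ N, Lap (EZs S) κ -
      (f κ + ∑ l ∈ OF N L, germD l κ) := by
  classical
  have old : ∀ S ∈ N, Old S L → Small L fun κ => Lap (EZs S) κ - germD (ell S) κ := fun S hS h =>
    small_D hD h.card h.unit h.acute h.pos (hd S hS) h.alt
  have oldF : ∀ S ∈ N, Old S L → S ∈ FF N L := fun S hS h => mem_FF.2 ⟨hS, h.acute, h.lt⟩
  -- one exceptional triple which is not in `FF`
  have exc : ∀ (S₀ : Finset HP) (f : ℝ → ℝ), S₀ ∈ N → (∀ S ∈ N, S ≠ S₀ → Old S L) →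
      S₀ ∉ FF N L → Small L (fun κ => Lap (EZs S₀) κ - f κ) →
      Small L fun κ => ∑ S ∈ N, Lap (EZs S) κ - (f κ + ∑ l ∈ OF N L, germD l κ) := by
    intro S₀ f h0 hold hnot hs
    have eF : FF N L = N.erase S₀ := by
      ext S
      rw [Finset.mem_erase]
      constructor
      · intro h
        exact ⟨fun h1 => hnot (h1 ▸ h), (mem_FF.1 h).1⟩
      · rintro ⟨h1, h2⟩
        exact oldF S h2 (hold S h2 h1)
    have h1 : Small L fun κ => ∑ S ∈ N.erase S₀, (Lap (EZs S) κ - germD (ell S) κ) :=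
      small_sum _ _ fun S hS => by
        obtain ⟨h1, h2⟩ := Finset.mem_erase.1 hS
        exact old S h2 (hold S h2 h1)
    refine small_congr (small_add h1 hs) (Eventually.of_forall fun κ => ?_)
    rw [sum_OF hinj, eF, Finset.sum_sub_distrib, ← Finset.add_sum_erase N _ h0]
    ring
  cases it with
  | none =>
    have hold : ∀ S ∈ N, Old S L := hit
    refine ⟨fun _ => 0, ItG.none, ?_⟩
    have eF : FF N L = N := by
      ext S
      exact ⟨fun h => (mem_FF.1 h).1, fun h => oldF S h (hold S h)⟩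
    have h1 : Small L fun κ => ∑ S ∈ N, (Lap (EZs S) κ - germD (ell S) κ) :=
      small_sum _ _ fun S hS => old S hS (hold S hS)
    refine small_congr h1 (Eventually.of_forall fun κ => ?_)
    rw [sum_OF hinj, eF, Finset.sum_sub_distrib]
    ring
  | gh =>
    obtain ⟨S₀, h0, hold, hc, hu, hac, hl, halt⟩ := hit
    refine ⟨germD L, ItG.gh, exc S₀ _ h0 hold (fun h => ?_) ?_⟩
    · have := (mem_FF.1 h).2.2
      rw [hl] at this
      exact lt_irrefl _ this
    · have h1 := small_D hD hc hu hac (by rw [hl]; exact hL) (hd S₀ h0) halt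
      rw [hl] at h1
      exact h1
  | A c c' =>
    obtain ⟨S₀, h0, hold, i, j, k, rfl, hc, hsh⟩ := hit
    obtain ⟨f, hf, hs⟩ := small_A hA hL hc hsh
    refine ⟨f, hf, exc _ f h0 hold (fun h => ?_) hs⟩
    exact not_acute (card3_ne hc).1 (by rw [hsh.ij]; exact hsh.pos) (mem_FF.1 h).2.1
  | B c a b =>
    obtain ⟨S₀, h0, hold, i, j, q, rfl, hc, hsh, hor⟩ := hit
    rcases hor with hc0 | ⟨hac, hpos, hlt, hbc, hac'⟩
    · obtain ⟨f, hf, hs⟩ := small_B hB hL hc hsh hc0
      refine ⟨f, hf, exc _ f h0 hold (fun h => ?_) hs⟩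
      exact not_acute (card3_ne hc).1 (by rw [hsh.ij]; exact hc0) (mem_FF.1 h).2.1
    · obtain ⟨f, hf, hs⟩ := small_B' hB' hL hc hsh hac hbc hac'
      refine ⟨f, hf, ?_⟩
      have eF : FF N L = N := by
        ext S
        refine ⟨fun h => (mem_FF.1 h).1, fun h => ?_⟩
        by_cases h1 : S = {i, j, q}
        · rw [h1] at h ⊢
          exact mem_FF.2 ⟨h, hac, hlt⟩
        · exact oldF S h (hold S h h1)
      have h1 : Small L fun κ => ∑ S ∈ N.erase {i, j, q}, (Lap (EZs S) κ - germD (ell S) κ) :=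
        small_sum _ _ fun S hS => by
          obtain ⟨h1, h2⟩ := Finset.mem_erase.1 hS
          exact old S h2 (hold S h2 h1)
      refine small_congr (small_add h1 hs) (Eventually.of_forall fun κ => ?_)
      rw [sum_OF hinj, eF, Finset.sum_sub_distrib, ← Finset.add_sum_erase N _ h0,
        ← Finset.add_sum_erase N (fun S => germD (ell S) κ) h0]
      ring

end Pool.Agent.AEU.H35
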