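import Pool.Agent.Helper35_AEU.Contra
import Pool.Agent.Helper25_AEU.Stmt
import Pool.Agent.Helper62_AEU.Stmt

/-! AEU: generic isospectral polygons without ties are congruent -/

set_option autoImplicit false

namespace Pool.Agent.AEU.H35

open MeasureTheory Complex Filter Topology ProbabilityTheory Pool.Agent.H16Iso Pool.Agent.H62T
open Pool.Agent.AEU
open Pool.Agent.H16F (ind Sublin)

lemma small_zero' {x C : ℝ} (h : ∀ s : ℝ, 0 < s → s ≤ 1 → |x| ≤ C * s) : x = 0 := by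
  by_contra hx
  have hx' : 0 < |x| := abs_pos.2 hx
  have hC : 0 < C := by
    have := h 1 one_pos le_rfl
    linarith
  have h1 := h (min 1 (|x| / (2 * C))) (lt_min one_pos (by positivity)) (min_le_left _ _)
  have h2 : C * min 1 (|x| / (2 * C)) ≤ C * (|x| / (2 * C)) :=
    mul_le_mul_of_nonneg_left (min_le_right _ _) hC.le
  have h3 : C * (|x| / (2 * C)) = |x| / 2 := by field_simp
  linarith

lemma poly_zero {d0 d1 d2 K : ℝ}
    (h : ∀ s : ℝ, 0 < s → s ≤ 1 → |d0 + d1 * s + d2 * s ^ 2| ≤ K * s ^ 4) :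
    d0 = 0 ∧ d1 = 0 ∧ d2 = 0 := by
  have hK : 0 ≤ K := by
    have := h 1 one_pos le_rfl
    have := abs_nonneg (d0 + d1 * 1 + d2 * 1 ^ 2)
    linarith
  have e0 : d0 = 0 := by
    refine small_zero' (C := |d1| + |d2| + K) fun s hs hs1 => ?_
    have h1 := h s hs hs1
    have h2 : |d0| ≤ |d0 + d1 * s + d2 * s ^ 2| + |d1 * s| + |d2 * s ^ 2| := by
      have : d0 = (d0 + d1 * s + d2 * s ^ 2) - d1 * s - d2 * s ^ 2 := by ring
      calc |d0| = |(d0 + d1 * s + d2 * s ^ 2) - d1 * s - d2 * s ^ 2| := by rw [← this]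
        _ ≤ |(d0 + d1 * s + d2 * s ^ 2) - d1 * s| + |d2 * s ^ 2| := abs_sub _ _
        _ ≤ _ := by
          have := abs_sub (d0 + d1 * s + d2 * s ^ 2) (d1 * s)
          linarith
    rw [abs_mul, abs_mul, abs_of_pos hs, abs_of_pos (show 0 < s ^ 2 by positivity)] at h2
    have h3 : s ^ 2 ≤ s := by nlinarith
    have h4 : s ^ 4 ≤ s := by
      have k1 : s ^ 2 ≤ 1 := by nlinarith
      have k2 : s ^ 2 * s ^ 2 ≤ 1 * s ^ 2 := mul_le_mul_of_nonneg_right k1 (by positivity)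
      nlinarith
    have h5 : |d2| * s ^ 2 ≤ |d2| * s := mul_le_mul_of_nonneg_left h3 (abs_nonneg _)
    have h6 : K * s ^ 4 ≤ K * s := mul_le_mul_of_nonneg_left h4 hK
    linarith
  subst e0
  have e1 : d1 = 0 := by
    refine small_zero' (C := |d2| + K) fun s hs hs1 => ?_
    have h1 := h s hs hs1
    have h2 : |d1 * s| ≤ |0 + d1 * s + d2 * s ^ 2| + |d2 * s ^ 2| := by
      have : d1 * s = (0 + d1 * s + d2 * s ^ 2) - d2 * s ^ 2 := by ring
      calc |d1 * s| = |(0 + d1 * s + d2 * s ^ 2) - d2 * s ^ 2| := by rw [← this]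
        _ ≤ _ := abs_sub _ _
    rw [abs_mul, abs_mul, abs_of_pos hs, abs_of_pos (show 0 < s ^ 2 by positivity)] at h2
    have h4 : s ^ 4 ≤ s * s := by
      have k1 : s ^ 2 ≤ 1 := by nlinarith
      have k2 : s ^ 2 * s ^ 2 ≤ 1 * s ^ 2 := mul_le_mul_of_nonneg_right k1 (by positivity)
      nlinarith
    have h6 : K * s ^ 4 ≤ K * (s * s) := mul_le_mul_of_nonneg_left h4 hK
    have h7 : |d1| * s ≤ ((|d2| + K) * s) * s := by nlinarith
    exact le_of_mul_le_mul_right h7 hs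
  subst e1
  refine ⟨rfl, rfl, ?_⟩
  refine small_zero' (C := K) fun s hs hs1 => ?_
  have h1 := h s hs hs1
  have e : (0:ℝ) + 0 * s + d2 * s ^ 2 = d2 * s ^ 2 := by ring
  rw [e, abs_mul, abs_of_pos (show 0 < s ^ 2 by positivity)] at h1
  have h4 : s ^ 2 ≤ s := by nlinarith
  have h6 : K * s ^ 4 ≤ (K * s) * s ^ 2 := by
    have : K * s ^ 4 = K * s ^ 2 * s ^ 2 := by ring
    rw [this]
    gcongr
  exact le_of_mul_le_mul_right (h1.trans h6) (by positivity)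

lemma dt_ne_of_lt {a b : ℂ} (ha : ‖a‖ = 1) (hb : ‖b‖ = 1) (h : |ip a b| < 1) : dt a b ≠ 0 := by
  intro h0
  have h1 := ip_dt_sq ha hb
  rw [h0] at h1
  rw [← sq_lt_one_iff_abs_lt_one] at h
  linarith

lemma gen_tr {P : Finset HP} (g : Gen P) : ∀ S ∈ P.powersetCard 3, Tr S := fun S hS => by
  obtain ⟨h1, h2⟩ := Finset.mem_powersetCard.1 hS
  exact ⟨h2, fun s hs => g.pg.unit s (h1 hs), fun s hs t ht hne =>
    dt_ne_of_lt (g.pg.unit s (h1 hs)) (g.pg.unit t (h1 ht)) (g.g1.lt1 s (h1 hs) t (h1 ht) hne)⟩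

lemma gen_dist {P : Finset HP} (g : Gen P) : ∀ S ∈ P.powersetCard 3, DistA S := fun S hS => by
  obtain ⟨h1, -⟩ := Finset.mem_powersetCard.1 hS
  intro s hs t ht s' hs' t' ht' n1 n2 h
  exact g.g1.inj s (h1 hs) t (h1 ht) s' (h1 hs') t' (h1 ht') n1 n2 h

lemma gen_nonpar {P : Finset HP} (g : Gen P) : Nonpar P := fun s hs t ht hne =>
  dt_ne_of_lt (g.pg.unit s hs) (g.pg.unit t ht) (g.g1.lt1 s hs t ht hne)

/-- isospectral polygons have the same remainder -/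
theorem same_RP (hE : ExpectStmt) {P Q : Finset HP} (gP : Gen P) (gQ : Gen Q)
    (nP : ∀ᵐ ω ∂PP, NoTie P (hs ω)) (nQ : ∀ᵐ ω ∂PP, NoTie Q (hs ω))
    (hiso : ∀ k, dirEig (opn P) k = dirEig (opn Q) k) : ∀ t : ℝ, 0 < t → RP P t = RP Q t := by
  obtain ⟨a0, a1, a2, ha⟩ := hE P gP.pg (gen_nonpar gP) nP
  obtain ⟨b0, b1, b2, hb⟩ := hE Q gQ.pg (gen_nonpar gQ) nQ
  have hadm : Adm fun t => RP Q t - RP P t := (adm_RP (gen_tr gQ)).sub (adm_RP (gen_tr gP))
  obtain ⟨C, c, hc, hC⟩ := hadm.near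
  have key : ∀ t : ℝ, 0 < t → (a0 - b0) + (a1 - b1) * Real.sqrt t + (a2 - b2) * t
      = RP Q t - RP P t := by
    intro t ht
    have h1 := ha t ht
    have h2 := hb t ht
    simp_rw [hiso] at h1
    rw [h1] at h2
    linarith
  have h0 := poly_zero (d0 := a0 - b0) (d1 := a1 - b1) (d2 := a2 - b2) (K := |C| * (2 / c ^ 2))
    (fun s hs hs1 => by
      have hs2 : 0 < s ^ 2 := by positivity
      have h1 := key (s ^ 2) hs2
      rw [Real.sqrt_sq hs.le] at h1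
      rw [h1]
      have h2 := hC (s ^ 2) hs2 (by nlinarith)
      have h3 := absorb hc hs2
      rw [div_le_iff₀ (by positivity)] at h3
      calc |RP Q (s ^ 2) - RP P (s ^ 2)| ≤ C * Real.exp (-(c / s ^ 2)) := h2
        _ ≤ |C| * Real.exp (-(c / s ^ 2)) :=
          mul_le_mul_of_nonneg_right (le_abs_self _) (Real.exp_pos _).le
        _ ≤ |C| * (2 / c ^ 2 * (s ^ 2) ^ 2) := mul_le_mul_of_nonneg_left h3 (abs_nonneg _)
        _ = _ := by ring)
  intro t ht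
  have h1 := key t ht
  rw [h0.1, h0.2.1, h0.2.2] at h1
  linarith

/-- **Pairs**: two generic polygons without ties and with the same spectrum are congruent. -/
theorem pair (hLD : LDStmt) (hA : GermAStmt) (hB : GermBStmt) (hB' : GermB'Stmt)
    (hD : GermDStmt) (hE : ExpectStmt) (hG : GeoStatement) {P Q : Finset HP} (gP : Gen P)
    (gQ : Gen Q) (h4 : 4 ≤ P.card)
    (nP : ∀ᵐ ω ∂PP, NoTie P (hs ω)) (nQ : ∀ᵐ ω ∂PP, NoTie Q (hs ω))
    (hiso : ∀ k, dirEig (opn P) k = dirEig (opn Q) k) : ∃ g : Iso2, P.image (mv g) = Q := by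
  by_contra hcon
  obtain ⟨L, δ, M, N, N', γ, it, it', hS⟩ := hG P Q gP gQ h4 hcon
  exact contra hLD hA hB hB' hD (gen_tr gP) (gen_tr gQ) (gen_dist gP) (gen_dist gQ) hS
    (same_RP hE gP gQ nP nQ hiso)

end Pool.Agent.AEU.H35
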