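import Pool.Agent.Helper35_AEU.EvX

/-! AEU: contributions of triples: algebra, explicit form of the event `Ev` -/

set_option autoImplicit false

namespace Pool.Agent.AEU.H35

open MeasureTheory Complex Filter Topology ProbabilityTheory Pool.Agent.H16Iso Pool.Agent.H62T
open Pool.Agent.AEU

lemma D0_cyc (a b c : HP) : D0 b c a = D0 a b c := by unfold D0; ring
lemma D0_swap (a b c : HP) : D0 b a c = -D0 a b c := by unfold D0 dt; ring
lemma D0_swap' (a b c : HP) : D0 a c b = -D0 a b c := by unfold D0 dt; ring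
lemma D0_swap'' (a b c : HP) : D0 c b a = -D0 a b c := by unfold D0 dt; ring
lemma D0_aab (a c : HP) : D0 a a c = 0 := by unfold D0 dt; ring
lemma D0_aba (a b : HP) : D0 a b a = 0 := by unfold D0 dt; ring
lemma D0_abb (a b : HP) : D0 a b b = 0 := by unfold D0 dt; ring

lemma DD_cyc (a b c : ℂ) (h : ℂ → ℝ) : DD b c a h = DD a b c h := by unfold DD; ring
lemma DD_swap (a b c : ℂ) (h : ℂ → ℝ) : DD b a c h = -DD a b c h := by unfold DD dt; ring
lemma pr_cyc (a b c : ℂ) : pr b c a = pr a b c := by unfold pr; ring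
lemma pr_swap (a b c : ℂ) : pr b a c = -pr a b c := by unfold pr dt; ring

lemma ZZ_cyc (a b c : ℂ) (D : ℝ) (h : ℂ → ℝ) : ZZ b c a D h = ZZ a b c D h := by
  unfold ZZ; rw [DD_cyc, pr_cyc]

lemma Zs_eq {a b c : HP} (hab : a ≠ b) (hac : a ≠ c) (hbc : b ≠ c) (hD : 0 < D0 a b c)
    (h : ℂ → ℝ) : Zs {a, b, c} h = ZZ a.1 b.1 c.1 (D0 a b c) h := by
  classical
  have e0 : ∀ f : HP → ℝ, ∑ x ∈ ({a, b, c} : Finset HP), f x = f a + f b + f c := by
    intro f
    rw [Finset.sum_insert (by simp [hab, hac]), Finset.sum_insert (by simp [hbc]),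
      Finset.sum_singleton]
    ring
  have h1 : D0 b c a = D0 a b c := D0_cyc a b c
  have h2 : D0 c a b = D0 a b c := by rw [D0_cyc, D0_cyc]
  have h3 : D0 b a c = -D0 a b c := D0_swap a b c
  have h4 : D0 a c b = -D0 a b c := D0_swap' a b c
  have h5 : D0 c b a = -D0 a b c := D0_swap'' a b c
  have n0 : ¬ (0 : ℝ) < -D0 a b c := by linarith
  unfold Zs
  simp only [e0, D0_aab, D0_aba, D0_abb, h1, h2, h3, h4, h5, lt_irrefl, if_false, if_neg n0,
    if_pos hD, ZZ_cyc]
  ring

lemma Zs_zero {a b c : HP} (hD : D0 a b c = 0) (h : ℂ → ℝ) : Zs {a, b, c} h = 0 := by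
  classical
  have h1 : D0 b c a = D0 a b c := D0_cyc a b c
  have h2 : D0 c a b = D0 a b c := by rw [D0_cyc, D0_cyc]
  have h3 : D0 b a c = -D0 a b c := D0_swap a b c
  have h4 : D0 a c b = -D0 a b c := D0_swap' a b c
  have h5 : D0 c b a = -D0 a b c := D0_swap'' a b c
  have key : ∀ x ∈ ({a, b, c} : Finset HP), ∀ y ∈ ({a, b, c} : Finset HP),
      ∀ z ∈ ({a, b, c} : Finset HP), D0 x y z = 0 := by
    intro x hx y hy z hz
    simp only [Finset.mem_insert, Finset.mem_singleton] at hx hy hz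
    rcases hx with rfl | rfl | rfl <;> rcases hy with rfl | rfl | rfl <;>
      rcases hz with rfl | rfl | rfl <;>
      simp [D0_aab, D0_aba, D0_abb, h1, h2, h3, h4, h5, hD]
  unfold Zs
  rw [Finset.sum_eq_zero, mul_zero]
  intro x hx
  refine Finset.sum_eq_zero fun y hy => Finset.sum_eq_zero fun z hz => ?_
  rw [key x hx y hy z hz, if_neg (lt_irrefl _)]

/-- three members in a good order -/
lemma exists_order {S : Finset HP} (hS : S.card = 3) :
    ∃ a b c : HP, S = {a, b, c} ∧ a ≠ b ∧ a ≠ c ∧ b ≠ c ∧ 0 ≤ D0 a b c := by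
  classical
  obtain ⟨a, b, c, hab, hac, hbc, rfl⟩ := Finset.card_eq_three.1 hS
  rcases le_total 0 (D0 a b c) with h | h
  · exact ⟨a, b, c, rfl, hab, hac, hbc, h⟩
  · refine ⟨b, a, c, ?_, hab.symm, hbc, hac, ?_⟩
    · rw [Finset.insert_comm]
    · rw [D0_swap]; linarith

/-- explicit form of `Ev` -/
def EvY (P : Finset HP) (a b c : HP) (h : ℂ → ℝ) : Prop :=
  D0 a b c ≤ DD a.1 b.1 c.1 h ∧ ∀ s ∈ P, s ≠ a → s ≠ b → s ≠ c →
    (dt a.1 s.1 * (b.2 - D0 a b c / DD a.1 b.1 c.1 h * h b.1)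
      + dt s.1 b.1 * (a.2 - D0 a b c / DD a.1 b.1 c.1 h * h a.1)) / dt a.1 b.1
      + D0 a b c / DD a.1 b.1 c.1 h * h s.1 < s.2

lemma mem_touch {P : Finset HP} {h : ℂ → ℝ} {s : HP} :
    s ∈ touch P h ↔ s ∈ P ∧ h s.1 = s.2 := by
  classical
  unfold touch
  rw [Finset.mem_filter]

theorem ev_iff' {P : Finset HP} {a b c : HP} (ha : a ∈ P) (hb : b ∈ P) (hc : c ∈ P)
    (hab : dt a.1 b.1 ≠ 0) (hD : 0 < D0 a b c)
    (h : ℂ → ℝ) : Ev P {a, b, c} h ↔ EvY P a b c h := by
  classical
  constructor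
  · rintro ⟨σ, x, hσ, hσ1, hx, ht⟩
    have hm : ∀ s ∈ P, (σ * h s.1 + ip s.1 x = s.2 ↔ s = a ∨ s = b ∨ s = c) := by
      intro s hs
      have := Finset.ext_iff.1 ht s
      rw [mem_touch] at this
      simp only [Finset.mem_insert, Finset.mem_singleton] at this
      rw [← this]
      exact ⟨fun h => ⟨hs, h⟩, fun h => h.2⟩
    have e1 := (hm a ha).2 (Or.inl rfl)
    have e2 := (hm b hb).2 (Or.inr (Or.inl rfl))
    have e3 := (hm c hc).2 (Or.inr (Or.inr rfl))
    have h1 : σ * DD a.1 b.1 c.1 h = D0 a b c := by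
      have := dt_ip_cyc a.1 b.1 c.1 x
      have ea : a.2 - σ * h a.1 = ip a.1 x := by linarith
      have eb : b.2 - σ * h b.1 = ip b.1 x := by linarith
      have ec : c.2 - σ * h c.1 = ip c.1 x := by linarith
      rw [← ea, ← eb, ← ec] at this
      unfold DD D0
      linarith
    have hDD : 0 < DD a.1 b.1 c.1 h := by
      by_contra hcon
      push Not at hcon
      have := mul_nonpos_of_nonneg_of_nonpos hσ.le hcon
      linarith
    have hs : D0 a b c / DD a.1 b.1 c.1 h = σ := by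
      rw [← h1]; field_simp
    refine ⟨?_, ?_⟩
    · rw [← h1]
      nlinarith
    · intro s hs' n1 n2 n3
      rw [hs]
      have ea : a.2 - σ * h a.1 = ip a.1 x := by linarith
      have eb : b.2 - σ * h b.1 = ip b.1 x := by linarith
      rw [ea, eb, ← dt_ip_cramer a.1 b.1 s.1 x, mul_div_cancel_left₀ _ hab]
      have h2 := hx s hs'
      simp only at h2
      have h3 : σ * h s.1 + ip s.1 x ≠ s.2 := fun h4 => by
        rcases (hm s hs').1 h4 with h5 | h5 | h5
        · exact n1 h5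
        · exact n2 h5
        · exact n3 h5
      have := lt_of_le_of_ne h2 h3
      linarith
  · rintro ⟨h1, h2⟩
    have hDD : 0 < DD a.1 b.1 c.1 h := lt_of_lt_of_le hD h1
    obtain ⟨σ, hσ⟩ : ∃ σ, σ = D0 a b c / DD a.1 b.1 c.1 h := ⟨_, rfl⟩
    have hσ0 : 0 < σ := by rw [hσ]; positivity
    have hσ1 : σ ≤ 1 := by rw [hσ]; exact (div_le_one hDD).2 h1
    have hσD : σ * DD a.1 b.1 c.1 h = D0 a b c := by rw [hσ]; field_simp
    rw [← hσ] at h2
    obtain ⟨x, hx⟩ : ∃ x, x = cpt a.1 b.1 (a.2 - σ * h a.1) (b.2 - σ * h b.1) := ⟨_, rfl⟩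
    have hxa : ip a.1 x = a.2 - σ * h a.1 := by rw [hx]; exact ip_cpt_left hab _ _
    have hxb : ip b.1 x = b.2 - σ * h b.1 := by rw [hx]; exact ip_cpt_right hab _ _
    have hxc : ip c.1 x = c.2 - σ * h c.1 := by
      have h3 := dt_ip_cyc a.1 b.1 c.1 x
      have h4 : dt a.1 b.1 * (ip c.1 x + σ * h c.1 - c.2) = 0 := by
        rw [hxa, hxb] at h3
        unfold DD D0 at hσD
        linear_combination h3 + hσD
      rcases mul_eq_zero.1 h4 with h5 | h5
      · exact absurd h5 hab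
      · linarith
    have hlt : ∀ s ∈ P, s ≠ a → s ≠ b → s ≠ c → σ * h s.1 + ip s.1 x < s.2 := by
      intro s hs n1 n2 n3
      have := h2 s hs n1 n2 n3
      rw [← hxa, ← hxb, ← dt_ip_cramer a.1 b.1 s.1 x, mul_div_cancel_left₀ _ hab] at this
      linarith
    have heq : ∀ s, s = a ∨ s = b ∨ s = c → σ * h s.1 + ip s.1 x = s.2 := by
      rintro s (rfl | rfl | rfl) <;> linarith
    refine ⟨σ, x, hσ0, hσ1, ?_, ?_⟩
    · intro s hs
      by_cases hm : s = a ∨ s = b ∨ s = c
      · exact (heq s hm).le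
      · push Not at hm
        exact (hlt s hs hm.1 hm.2.1 hm.2.2).le
    · ext s
      rw [mem_touch]
      simp only [Finset.mem_insert, Finset.mem_singleton]
      constructor
      · rintro ⟨hs, h4⟩
        by_contra hm
        push Not at hm
        exact absurd h4 (ne_of_lt (hlt s hs hm.1 hm.2.1 hm.2.2))
      · intro hm
        refine ⟨?_, heq s hm⟩
        rcases hm with rfl | rfl | rfl <;> assumption

/-- joint measurability -/
theorem meas_EvY {α : Type*} [MeasurableSpace α] (P : Finset HP) (a b c : HP)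
    (f : α → ℂ → ℝ) (hf : ∀ u, Measurable fun x => f x u) :
    MeasurableSet {x | EvY P a b c (f x)} := by
  have hDD : Measurable fun x => DD a.1 b.1 c.1 (f x) := by
    unfold DD
    exact ((hf a.1).const_mul _).add ((hf b.1).const_mul _) |>.add ((hf c.1).const_mul _)
  have hq : Measurable fun x => D0 a b c / DD a.1 b.1 c.1 (f x) := measurable_const.div hDD
  have e : {x | EvY P a b c (f x)} = {x | D0 a b c ≤ DD a.1 b.1 c.1 (f x)} ∩
      ⋂ s ∈ P, {x | s ≠ a → s ≠ b → s ≠ c →
      (dt a.1 s.1 * (b.2 - D0 a b c / DD a.1 b.1 c.1 (f x) * f x b.1)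
      + dt s.1 b.1 * (a.2 - D0 a b c / DD a.1 b.1 c.1 (f x) * f x a.1)) / dt a.1 b.1
      + D0 a b c / DD a.1 b.1 c.1 (f x) * f x s.1 < s.2} := by
    ext x
    simp only [EvY, Set.mem_ofPred_eq, Set.mem_inter_iff, Set.mem_iInter]
  rw [e]
  refine (measurableSet_le measurable_const hDD).inter (Finset.measurableSet_biInter _ ?_)
  intro s _
  by_cases h1 : s ≠ a ∧ s ≠ b ∧ s ≠ c
  · simp only [h1.1, h1.2.1, h1.2.2, ne_eq, not_false_eq_true, forall_true_left]
    refine measurableSet_lt ?_ measurable_const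
    refine Measurable.add ?_ (hq.mul (hf s.1))
    refine Measurable.div_const ?_ _
    exact ((measurable_const.sub (hq.mul (hf b.1))).const_mul _).add
      ((measurable_const.sub (hq.mul (hf a.1))).const_mul _)
  · have : {x : α | s ≠ a → s ≠ b → s ≠ c →
      (dt a.1 s.1 * (b.2 - D0 a b c / DD a.1 b.1 c.1 (f x) * f x b.1)
      + dt s.1 b.1 * (a.2 - D0 a b c / DD a.1 b.1 c.1 (f x) * f x a.1)) / dt a.1 b.1
      + D0 a b c / DD a.1 b.1 c.1 (f x) * f x s.1 < s.2} = Set.univ := by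
      ext x
      simp only [Set.mem_ofPred_eq, Set.mem_univ, iff_true]
      intro k1 k2 k3
      exact absurd ⟨k1, k2, k3⟩ h1
    rw [this]
    exact MeasurableSet.univ

/-- triples with unit normals, no two parallel lines -/
structure Tr (S : Finset HP) : Prop where
  card : S.card = 3
  unit : ∀ s ∈ S, ‖s.1‖ = 1
  nd : ∀ s ∈ S, ∀ t ∈ S, s ≠ t → dt s.1 t.1 ≠ 0

lemma measurable_Zs {α : Type*} [MeasurableSpace α] (S : Finset HP)
    (f : α → ℂ → ℝ) (hf : ∀ u, Measurable fun x => f x u) :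
    Measurable fun x => Zs S (f x) := by
  classical
  unfold Zs
  refine Measurable.const_mul ?_ _
  refine Finset.measurable_sum _ fun a _ => Finset.measurable_sum _ fun b _ =>
    Finset.measurable_sum _ fun c _ => ?_
  by_cases h : 0 < D0 a b c
  · simp only [if_pos h]
    exact measurable_ZZ _ _ _ _ f hf
  · simp only [if_neg h]
    exact measurable_const

/-- the product of the indicator function and the contribution is measurable -/
lemma measurable_indZs {α : Type*} [MeasurableSpace α] {P S : Finset HP} (hT : Tr S) (hSP : S ⊆ P)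
    (f : α → ℂ → ℝ) (hf : ∀ u, Measurable fun x => f x u) :
    Measurable fun x => H16F.ind (Ev P S (f x)) * Zs S (f x) := by
  classical
  obtain ⟨a, b, c, rfl, hab, hac, hbc, hD⟩ := exists_order hT.card
  rcases hD.eq_or_lt with hD | hD
  · have : (fun x => H16F.ind (Ev P {a, b, c} (f x)) * Zs {a, b, c} (f x)) = fun _ => 0 := by
      funext x
      rw [Zs_zero hD.symm, mul_zero]
    rw [this]
    exact measurable_const
  · have ha : a ∈ P := hSP (by simp)
    have hb : b ∈ P := hSP (by simp)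
    have hc : c ∈ P := hSP (by simp)
    have hdt := hT.nd a (by simp) b (by simp) hab
    have : (fun x => H16F.ind (Ev P {a, b, c} (f x)) * Zs {a, b, c} (f x))
        = fun x => H16F.ind (EvY P a b c (f x)) * Zs {a, b, c} (f x) := by
      funext x
      rw [propext (ev_iff' ha hb hc hdt hD (f x))]
    rw [this]
    exact (measurable_ind (meas_EvY P a b c f hf)).mul (measurable_Zs _ f hf)

end Pool.Agent.AEU.H35
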