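import Pool.Agent.Helper35_AEU.LapB
import Pool.Agent.Helper35_AEU.ZsB
import Pool.Agent.Helper10_Fine.HINV
import Pool.Agent.Helper13_Fine.Law2
import Pool.Agent.Helper13_Fine.Ut
import Pool.Agent.Helper62_TRI.MainOf

/-! AEU: bounds for the expected contributions of triples -/

set_option autoImplicit false

namespace Pool.Agent.AEU.H35

open MeasureTheory Complex Filter Topology ProbabilityTheory Pool.Agent.H16Iso Pool.Agent.H62T
open Pool.Agent.AEU
open Pool.Agent.H62T.H9 (AM)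
open Pool.Agent.H16F (ind)

theorem momS : MomStatement := mom osc_stmt

/-- size of the body in the directions of `S` -/
noncomputable def sz (S : Finset HP) (h : ℂ → ℝ) : ℝ := (1 + ∑ s ∈ S, |h s.1|) ^ 2

lemma sz_nonneg (S : Finset HP) (h : ℂ → ℝ) : 0 ≤ sz S h := sq_nonneg _

lemma abs_Zs_le (S : Finset HP) : ∃ C : ℝ, 0 ≤ C ∧ ∀ h : ℂ → ℝ, |Zs S h| ≤ C * sz S h := by
  classical
  have h1 : ∀ a b c : HP, ∃ C : ℝ, 0 ≤ C ∧ ∀ h : ℂ → ℝ,
      |ZZ a.1 b.1 c.1 (D0 a b c) h| ≤ C * (1 + (|h a.1| + |h b.1| + |h c.1|)) ^ 2 :=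
    fun a b c => abs_ZZ_le _ _ _ _
  choose C hC0 hC using h1
  refine ⟨∑ a ∈ S, ∑ b ∈ S, ∑ c ∈ S, 9 * C a b c, ?_, fun h => ?_⟩
  · exact Finset.sum_nonneg fun a _ => Finset.sum_nonneg fun b _ => Finset.sum_nonneg fun c _ => by
      have := hC0 a b c
      positivity
  · unfold Zs
    have h2 : |∑ a ∈ S, ∑ b ∈ S, ∑ c ∈ S, if 0 < D0 a b c then ZZ a.1 b.1 c.1 (D0 a b c) h else 0|
        ≤ ∑ a ∈ S, ∑ b ∈ S, ∑ c ∈ S, 9 * C a b c * sz S h := by
      refine (Finset.abs_sum_le_sum_abs _ _).trans (Finset.sum_le_sum fun a ha => ?_)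
      refine (Finset.abs_sum_le_sum_abs _ _).trans (Finset.sum_le_sum fun b hb => ?_)
      refine (Finset.abs_sum_le_sum_abs _ _).trans (Finset.sum_le_sum fun c hc => ?_)
      have hnn : 0 ≤ 9 * C a b c * sz S h := by
        have := hC0 a b c
        have := sz_nonneg S h
        positivity
      split_ifs with h3
      · refine (hC a b c h).trans ?_
        have k : ∀ s ∈ S, |h s.1| ≤ ∑ s ∈ S, |h s.1| := fun s hs =>
          Finset.single_le_sum (f := fun s : HP => |h s.1|) (fun i _ => abs_nonneg _) hs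
        have k1 := k a ha
        have k2 := k b hb
        have k3 := k c hc
        have h0 : 0 ≤ ∑ s ∈ S, |h s.1| := Finset.sum_nonneg fun i _ => abs_nonneg _
        have h4 : (1 + (|h a.1| + |h b.1| + |h c.1|)) ^ 2 ≤ 9 * sz S h := by
          unfold sz
          have h5 : 1 + (|h a.1| + |h b.1| + |h c.1|) ≤ 3 * (1 + ∑ s ∈ S, |h s.1|) := by linarith
          have h6 : 0 ≤ 1 + (|h a.1| + |h b.1| + |h c.1|) := by positivity
          calc (1 + (|h a.1| + |h b.1| + |h c.1|)) ^ 2 ≤ (3 * (1 + ∑ s ∈ S, |h s.1|)) ^ 2 :=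
                pow_le_pow_left₀ h6 h5 2
            _ = _ := by ring
        calc C a b c * (1 + (|h a.1| + |h b.1| + |h c.1|)) ^ 2 ≤ C a b c * (9 * sz S h) :=
              mul_le_mul_of_nonneg_left h4 (hC0 a b c)
          _ = _ := by ring
      · rw [abs_zero]; exact hnn
    have h7 : (∑ a ∈ S, ∑ b ∈ S, ∑ c ∈ S, 9 * C a b c * sz S h)
        = (∑ a ∈ S, ∑ b ∈ S, ∑ c ∈ S, 9 * C a b c) * sz S h := by
      simp only [Finset.sum_mul]
    rw [h7] at h2
    rw [abs_mul, abs_of_pos (by norm_num : (0:ℝ) < 1 / 3)]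
    have h8 := abs_nonneg (∑ a ∈ S, ∑ b ∈ S, ∑ c ∈ S,
      if 0 < D0 a b c then ZZ a.1 b.1 c.1 (D0 a b c) h else 0)
    linarith

lemma fin_pos {ι : Type*} (T : Finset ι) (f : ι → ℝ) (hf : ∀ i ∈ T, 0 < f i) :
    ∃ m : ℝ, 0 < m ∧ ∀ i ∈ T, m ≤ f i := by
  classical
  induction T using Finset.induction_on with
  | empty => exact ⟨1, one_pos, by simp⟩
  | insert a T ha ih =>
    obtain ⟨m, hm, h⟩ := ih fun i hi => hf i (Finset.mem_insert_of_mem hi)
    refine ⟨min m (f a), lt_min hm (hf a (Finset.mem_insert_self _ _)), fun i hi => ?_⟩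
    rcases Finset.mem_insert.1 hi with rfl | hi
    · exact min_le_right _ _
    · exact (min_le_left _ _).trans (h i hi)

/-- small bodies do not contribute -/
lemma Zs_small (S : Finset HP) : ∃ m : ℝ, 0 < m ∧ ∀ h : ℂ → ℝ, (∀ s ∈ S, |h s.1| < m) → Zs S h = 0 := by
  classical
  obtain ⟨m, hm, hM⟩ := fin_pos (S ×ˢ S ×ˢ S)
    (fun p : HP × HP × HP => if 0 < D0 p.1 p.2.1 p.2.2 then
      D0 p.1 p.2.1 p.2.2 / (|dt p.2.1.1 p.2.2.1| + |dt p.2.2.1 p.1.1| + |dt p.1.1 p.2.1.1| + 1)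
      else 1) (by
      intro p _
      split_ifs with h
      · positivity
      · exact one_pos)
  refine ⟨m, hm, fun h hh => ?_⟩
  unfold Zs
  rw [Finset.sum_eq_zero, mul_zero]
  intro a ha
  refine Finset.sum_eq_zero fun b hb => Finset.sum_eq_zero fun c hc => ?_
  split_ifs with h1
  · apply ZZ_eq_zero
    have h2 := hM (a, b, c) (by simp [ha, hb, hc])
    simp only [if_pos h1] at h2
    rw [le_div_iff₀ (by positivity)] at h2
    have e1 := hh a ha
    have e2 := hh b hb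
    have e3 := hh c hc
    have b1 := abs_nonneg (dt b.1 c.1)
    have b2 := abs_nonneg (dt c.1 a.1)
    have b3 := abs_nonneg (dt a.1 b.1)
    unfold DD
    have k1 : dt b.1 c.1 * h a.1 ≤ |dt b.1 c.1| * m := by
      calc dt b.1 c.1 * h a.1 ≤ |dt b.1 c.1 * h a.1| := le_abs_self _
        _ = |dt b.1 c.1| * |h a.1| := abs_mul _ _
        _ ≤ _ := mul_le_mul_of_nonneg_left e1.le b1
    have k2 : dt c.1 a.1 * h b.1 ≤ |dt c.1 a.1| * m := by
      calc dt c.1 a.1 * h b.1 ≤ |dt c.1 a.1 * h b.1| := le_abs_self _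
        _ = |dt c.1 a.1| * |h b.1| := abs_mul _ _
        _ ≤ _ := mul_le_mul_of_nonneg_left e2.le b2
    have k3 : dt a.1 b.1 * h c.1 ≤ |dt a.1 b.1| * m := by
      calc dt a.1 b.1 * h c.1 ≤ |dt a.1 b.1 * h c.1| := le_abs_self _
        _ = |dt a.1 b.1| * |h c.1| := abs_mul _ _
        _ ≤ _ := mul_le_mul_of_nonneg_left e3.le b3
    nlinarith
  · rfl

lemma am_sz (S : Finset HP) (C : ℝ) : AM fun ω => C * sz S (hs ω) :=
  (((AM.const 1).add (AM.sum _ fun s _ => H16F.H10.am_abs (AM.hs momS s.1))).pow 2).const_mul C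

lemma sz_scale_near (S : Finset HP) (ω : Sp) {t : ℝ} (_ : 0 < t) (h1 : t ≤ 1) :
    sz S (fun u => Real.sqrt t * hs ω u) ≤ sz S (hs ω) := by
  unfold sz
  have h0 : 0 ≤ ∑ s ∈ S, |Real.sqrt t * hs ω s.1| := Finset.sum_nonneg fun i _ => abs_nonneg _
  have h2 : ∑ s ∈ S, |Real.sqrt t * hs ω s.1| ≤ ∑ s ∈ S, |hs ω s.1| := by
    refine Finset.sum_le_sum fun s _ => ?_
    rw [abs_mul, abs_of_nonneg (Real.sqrt_nonneg _)]
    exact mul_le_of_le_one_left (abs_nonneg _) (Real.sqrt_le_one.2 h1)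
  gcongr

lemma sz_scale_far (S : Finset HP) (ω : Sp) {t : ℝ} (h1 : 1 ≤ t) :
    sz S (fun u => Real.sqrt t * hs ω u) ≤ t * sz S (hs ω) := by
  unfold sz
  have ht : 0 ≤ t := by linarith
  have e : ∑ s ∈ S, |Real.sqrt t * hs ω s.1| = Real.sqrt t * ∑ s ∈ S, |hs ω s.1| := by
    rw [Finset.mul_sum]
    refine Finset.sum_congr rfl fun s _ => ?_
    rw [abs_mul, abs_of_nonneg (Real.sqrt_nonneg _)]
  rw [e]
  have h2 : 1 ≤ Real.sqrt t := Real.one_le_sqrt.2 h1
  have h0 : 0 ≤ ∑ s ∈ S, |hs ω s.1| := Finset.sum_nonneg fun i _ => abs_nonneg _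
  have h3 : 1 + Real.sqrt t * ∑ s ∈ S, |hs ω s.1| ≤ Real.sqrt t * (1 + ∑ s ∈ S, |hs ω s.1|) := by
    linarith
  calc (1 + Real.sqrt t * ∑ s ∈ S, |hs ω s.1|) ^ 2
      ≤ (Real.sqrt t * (1 + ∑ s ∈ S, |hs ω s.1|)) ^ 2 := by
        refine pow_le_pow_left₀ (by positivity) h3 2
    _ = _ := by rw [mul_pow, Real.sq_sqrt ht]

/-- far bound -/
lemma far_bound (S : Finset HP) : ∃ C : ℝ, ∀ t : ℝ, 1 ≤ t → ∀ e : Sp → ℝ, (∀ ω, |e ω| ≤ 1) →
    |∫ ω, e ω * Zs S (fun u => Real.sqrt t * hs ω u) ∂PP| ≤ C * t := by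
  obtain ⟨C, hC0, hC⟩ := abs_Zs_le S
  refine ⟨∫ ω, C * sz S (hs ω) ∂PP, fun t ht e he => ?_⟩
  have hi : Integrable (fun ω => C * sz S (hs ω) * t) PP := (am_sz S C).integrable.mul_const t
  have h1 := norm_integral_le_of_norm_le (f := fun ω => e ω * Zs S (fun u => Real.sqrt t * hs ω u))
    hi (Eventually.of_forall fun ω => by
      rw [Real.norm_eq_abs, abs_mul]
      have h2 := hC fun u => Real.sqrt t * hs ω u
      have h3 := sz_scale_far S ω ht
      calc |e ω| * |Zs S fun u => Real.sqrt t * hs ω u|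
          ≤ 1 * (C * sz S (fun u => Real.sqrt t * hs ω u)) := by
            gcongr
            exact he ω
        _ ≤ 1 * (C * (t * sz S (hs ω))) := by gcongr
        _ = _ := by ring)
  rw [Real.norm_eq_abs, integral_mul_const] at h1
  exact h1

/-- near bound: small times -/
lemma near_bound {S : Finset HP} (hu : ∀ s ∈ S, ‖s.1‖ = 1) : ∃ C c : ℝ, 0 < c ∧
    ∀ t : ℝ, 0 < t → t ≤ 1 → ∀ e : Sp → ℝ, (∀ ω, |e ω| ≤ 1) →
    |∫ ω, e ω * Zs S (fun u => Real.sqrt t * hs ω u) ∂PP| ≤ C * Real.exp (-(c / t)) := by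
  classical
  obtain ⟨C, hC0, hC⟩ := abs_Zs_le S
  obtain ⟨m, hm, hM⟩ := Zs_small S
  have hA : ∀ ε : ℝ, 0 < ε → ε < 1 → ∃ C : ℝ, ∀ t : ℝ, 0 < t → t ≤ 1 →
      PP {ω | ∃ s ∈ S, ω ∈ {ω | m ≤ Real.sqrt t * hs ω s.1}} ≤
        ENNReal.ofReal (C * Real.exp (-((1 - ε) * m ^ 2 / t))) := by
    refine H16F.H10.tail_finset S (A := fun s t => {ω | m ≤ Real.sqrt t * hs ω s.1}) ?_
    intro s hs'
    refine H16F.H10.tail_scale (X := fun ω => hs ω s.1) ?_ hm.le
    intro ε h0 h1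
    obtain ⟨C, hC⟩ := H16F.H13.ut.1 s.1 (hu s hs') ε h0 h1
    refine ⟨C, fun y hy => (measure_mono fun ω hω => ?_).trans (hC y hy)⟩
    have h2 : y ≤ hs ω s.1 := hω
    show y ≤ hs ω s.1 + hs ω (-s.1)
    linarith [momS.2.1 (-s.1) ω]
  obtain ⟨C', -, hC'⟩ := H16F.H10.tail_int (am_sz S C)
    (fun ω => mul_nonneg hC0 (sz_nonneg _ _)) hA (1 / 2) (by norm_num) (by norm_num)
  refine ⟨C', m ^ 2 / 2, by positivity, fun t ht ht1 e he => ?_⟩
  have h1 := hC' t ht ht1 (fun ω => e ω * Zs S (fun u => Real.sqrt t * hs ω u))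
    (Eventually.of_forall fun ω => by
      rw [abs_mul]
      by_cases hω : ∃ s ∈ S, ω ∈ {ω | m ≤ Real.sqrt t * hs ω s.1}
      · have hω' : ω ∈ {ω | ∃ s ∈ S, ω ∈ {ω | m ≤ Real.sqrt t * hs ω s.1}} := hω
        rw [H16F.H10.ind_pos hω', mul_one]
        have h2 := hC fun u => Real.sqrt t * hs ω u
        have h3 := sz_scale_near S ω ht ht1
        calc |e ω| * |Zs S fun u => Real.sqrt t * hs ω u|
            ≤ 1 * (C * sz S (fun u => Real.sqrt t * hs ω u)) := by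
              gcongr
              exact he ω
          _ ≤ 1 * (C * sz S (hs ω)) := by gcongr
          _ = _ := by ring
      · have hz : Zs S (fun u => Real.sqrt t * hs ω u) = 0 := by
          apply hM
          intro s hs'
          by_contra hcon
          push Not at hcon
          rw [abs_of_nonneg (mul_nonneg (Real.sqrt_nonneg _) (momS.2.1 _ _))] at hcon
          exact hω ⟨s, hs', hcon⟩
        rw [hz, abs_zero, mul_zero]
        exact mul_nonneg (mul_nonneg hC0 (sz_nonneg _ _)) (H16F.H10.ind_nonneg _))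
  refine h1.trans (le_of_eq ?_)
  congr 2
  ring

lemma abs_ind_le (p : Prop) : |ind p| ≤ 1 := by
  unfold ind
  split_ifs <;> simp

lemma meas_sq (u : ℂ) : Measurable fun p : ℝ × Sp => Real.sqrt p.1 * hs p.2 u :=
  (Real.continuous_sqrt.measurable.comp measurable_fst).mul ((momS.1 u).comp measurable_snd)

theorem adm_TPS {P S : Finset HP} (hT : Tr S) (hSP : S ⊆ P) : Adm (TPS P S) := by
  refine ⟨?_, ?_, ?_⟩
  · have h1 : Measurable fun p : ℝ × Sp => ind (Ev P S fun u => Real.sqrt p.1 * hs p.2 u) *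
        Zs S (fun u => Real.sqrt p.1 * hs p.2 u) :=
      measurable_indZs hT hSP (fun (p : ℝ × Sp) u => Real.sqrt p.1 * hs p.2 u) meas_sq
    exact (h1.stronglyMeasurable.integral_prod_right' (ν := PP)).measurable
  · obtain ⟨C, c, hc, h⟩ := near_bound hT.unit
    exact ⟨C, c, hc, fun t ht ht1 => h t ht ht1 _ fun ω => abs_ind_le _⟩
  · obtain ⟨C, h⟩ := far_bound S
    exact ⟨C, fun t ht => h t ht _ fun ω => abs_ind_le _⟩

theorem adm_EZs {S : Finset HP} (hT : Tr S) : Adm (EZs S) := by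
  refine ⟨?_, ?_, ?_⟩
  · have h1 : Measurable fun p : ℝ × Sp => Zs S (fun u => Real.sqrt p.1 * hs p.2 u) :=
      measurable_Zs S (fun (p : ℝ × Sp) u => Real.sqrt p.1 * hs p.2 u) meas_sq
    exact (h1.stronglyMeasurable.integral_prod_right' (ν := PP)).measurable
  · obtain ⟨C, c, hc, h⟩ := near_bound hT.unit
    refine ⟨C, c, hc, fun t ht ht1 => ?_⟩
    have := h t ht ht1 (fun _ => 1) (fun ω => by simp)
    simpa [EZs] using this
  · obtain ⟨C, h⟩ := far_bound S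
    refine ⟨C, fun t ht => ?_⟩
    have := h t ht (fun _ => 1) (fun ω => by simp)
    simpa [EZs] using this

theorem adm_RP {P : Finset HP} (hT : ∀ S ∈ P.powersetCard 3, Tr S) : Adm (RP P) := by
  unfold RP
  exact Adm.sum _ _ fun S hS => adm_TPS (hT S hS) (Finset.mem_powersetCard.1 hS).1

end Pool.Agent.AEU.H35
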